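import Pool.Agent.N571.EX.Stm

/-!
# Project EX: assembly
-/

set_option autoImplicit false

namespace Pool.Agent.N571.EX

open Filter Topology
open scoped InnerProductSpace ComplexOrder
open Pool.Agent.H494R3.GT (L2 dl inner_dl vec_ext)
open Pool.Agent.N557.QW (lam rgt LG LK cf rc)
open Pool.Agent.N44.NS (el E3)
open Pool.Agent.N708.MX (PT)

noncomputable section

/-- The group inclusion `K ≤ G` is existential along `U`: there is an embedding of `G` in the
ultrapower of `K` which is the diagonal embedding on `K`. -/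
def GExistential {G : Type} [Group G] (K : Subgroup G) (U : Ultrafilter ℕ) : Prop :=
  ∃ φ : G →* Filter.Germ (U : Filter ℕ) K, Function.Injective φ ∧
    ∀ k : K, φ (k : G) = ((k : K) : Filter.Germ (U : Filter ℕ) K)

theorem gex {G : Type} [Group G] {K : Subgroup G} {Kn : ℕ → Subgroup G} {θ : ℕ → G → G}
    (h : ExD G K Kn θ) (U : Ultrafilter ℕ) (hU : (U : Filter ℕ) ≤ cofinite) :
    GExistential K U := by
  have hU' : (U : Filter ℕ) ≤ atTop := by rwa [← Nat.cofinite_eq_atTop]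
  let φ : G →* Filter.Germ (U : Filter ℕ) K := MonoidHom.mk'
    (fun g => ((fun n => (⟨θ n g, h.val n g⟩ : K) : ℕ → K) : Filter.Germ (U : Filter ℕ) K))
    (by
      intro a b
      change ((_ : ℕ → K) : Filter.Germ (U : Filter ℕ) K) =
        (((_ : ℕ → K) * (_ : ℕ → K) : ℕ → K) : Filter.Germ (U : Filter ℕ) K)
      rw [Filter.Germ.coe_eq]
      filter_upwards [hU' (h.mul a b)] with n hn
      exact Subtype.ext hn)
  refine ⟨φ, ?_, ?_⟩
  · rw [injective_iff_map_eq_one]
    intro g hg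
    by_contra hne
    have h1 := hU' (h.ne g hne)
    have h2 : ((fun n => (⟨θ n g, h.val n g⟩ : K) : ℕ → K) : Filter.Germ (U : Filter ℕ) K) =
        ((1 : ℕ → K) : Filter.Germ (U : Filter ℕ) K) := hg
    rw [Filter.Germ.coe_eq] at h2
    obtain ⟨n, hn1, hn2⟩ := (h2.and h1).exists
    exact hn2 (congrArg Subtype.val hn1)
  · intro k
    change ((fun n => (⟨θ n (k : G), h.val n _⟩ : K) : ℕ → K) : Filter.Germ (U : Filter ℕ) K) =
      ((fun _ => k : ℕ → K) : Filter.Germ (U : Filter ℕ) K)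
    rw [Filter.Germ.coe_eq]
    filter_upwards [hU' (h.id k k.2)] with n hn
    exact Subtype.ext hn

theorem sep (G : Type) [Countable G] : TopologicalSpace.SeparableSpace (L2 G) := by
  classical
  have h1 : Dense ((Submodule.span ℂ (Set.range (dl : G → L2 G)) : Submodule ℂ (L2 G)) :
      Set (L2 G)) := by
    rw [Submodule.dense_iff_topologicalClosure_eq_top, Submodule.topologicalClosure_eq_top_iff,
      Submodule.eq_bot_iff]
    intro v hv
    apply vec_ext
    intro x
    rw [← inner_dl]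
    exact (Submodule.mem_orthogonal _ _).1 hv _ (Submodule.subset_span ⟨x, rfl⟩)
  have h2 : TopologicalSpace.IsSeparable
      ((Submodule.span ℂ (Set.range (dl : G → L2 G)) : Submodule ℂ (L2 G)) : Set (L2 G)) :=
    (Set.countable_range _).isSeparable.span
  have h3 := h2.closure
  rw [h1.closure_eq] at h3
  exact TopologicalSpace.isSeparable_univ_iff.1 h3

/-- The von Neumann algebra part. -/
def FinalVN : Prop :=
  ∃ (H : Type) (_ : NormedAddCommGroup H) (_ : InnerProductSpace ℂ H) (_ : CompleteSpace H)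
    (_ : TopologicalSpace.SeparableSpace H) (N M : VonNeumannAlgebra H) (Ω : H),
    (∀ x ∈ N, x ∈ M) ∧ IsIIOne N Ω ∧ IsIIOne M Ω ∧ Haagerup N Ω ∧ HasT M ∧
      ∀ U : Ultrafilter ℕ, (U : Filter ℕ) ≤ cofinite → Existential N M Ω U

/-- The group part. -/
def FinalGr : Prop :=
  ∃ (G : Type) (_ : Group G) (K : Subgroup G), Countable G ∧ PT G ∧ ICC G ∧ ICC K ∧ Infinite K ∧
    (∀ S : Finset K, Finite (Subgroup.closure (S : Set K))) ∧
    ∀ U : Ultrafilter ℕ, (U : Filter ℕ) ≤ cofinite → GExistential K U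

theorem lf {G : Type} [Group G] {K : Subgroup G} {Kn : ℕ → Subgroup G} {θ : ℕ → G → G}
    (h : ExD G K Kn θ) (S : Finset K) : Finite (Subgroup.closure (S : Set K)) := by
  classical
  have h1 : ∀ S : Finset K, ∃ n, ∀ x ∈ S, (x : G) ∈ Kn n := by
    intro S
    induction S using Finset.induction_on with
    | empty => exact ⟨0, by simp⟩
    | insert a S ha ih =>
      obtain ⟨n, hn⟩ := ih
      obtain ⟨m, hm⟩ := (h.mem a).1 a.2
      refine ⟨max n m, ?_⟩
      intro x hx
      rcases Finset.mem_insert.1 hx with rfl | hx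
      · exact h.mono (le_max_right _ _) hm
      · exact h.mono (le_max_left _ _) (hn x hx)
  obtain ⟨n, hn⟩ := h1 S
  have h2 : Subgroup.closure (S : Set K) ≤ (Kn n).subgroupOf K := by
    rw [Subgroup.closure_le]
    intro x hx
    exact Subgroup.mem_subgroupOf.2 (hn x hx)
  haveI := h.fin n
  have h3 : Finite ((Kn n).subgroupOf K) := by
    have : Function.Injective (fun x : (Kn n).subgroupOf K =>
        (⟨((x : K) : G), Subgroup.mem_subgroupOf.1 x.2⟩ : Kn n)) := by
      intro x y hxy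
      have := congrArg Subtype.val hxy
      exact Subtype.ext (Subtype.ext this)
    exact Finite.of_injective _ this
  exact Finite.of_injective _ (Subgroup.inclusion_injective h2)

theorem icc_congr {G G' : Type} [Group G] [Group G'] (e : G ≃* G') (h : ICC G) : ICC G' := by
  intro g hg
  have h1 : e.symm g ≠ 1 := by
    intro h2
    apply hg
    rw [← e.apply_symm_apply g, h2, map_one]
  have h2 := (h _ h1).image (f := e) e.injective.injOn
  refine h2.mono ?_
  rintro _ ⟨x, ⟨k, rfl⟩, rfl⟩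
  exact ⟨e k, by simp⟩

theorem inf_e3 (F : Type) [Field F] (Γ : Type) [Group Γ] [Infinite Γ] :
    Infinite (E3 (MonoidAlgebra F Γ)) := by
  have h01 : (0 : Fin 3) ≠ 1 := by decide
  refine Infinite.of_injective (fun γ : Γ => (⟨el 0 1 h01 (MonoidAlgebra.of F Γ γ),
    Subgroup.subset_closure ⟨0, 1, h01, _, rfl⟩⟩ : E3 (MonoidAlgebra F Γ))) ?_
  intro a b hab
  have h1 := congrArg (fun x : E3 (MonoidAlgebra F Γ) =>
    ((x : (Matrix (Fin 3) (Fin 3) (MonoidAlgebra F Γ))ˣ) :
      Matrix (Fin 3) (Fin 3) (MonoidAlgebra F Γ)) 0 1) hab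
  have h2 : ∀ c : MonoidAlgebra F Γ, ((el 0 1 h01 c : (Matrix (Fin 3) (Fin 3) (MonoidAlgebra F Γ))ˣ) :
      Matrix (Fin 3) (Fin 3) (MonoidAlgebra F Γ)) 0 1 = c := by
    intro c
    change (1 + Matrix.single 0 1 c : Matrix (Fin 3) (Fin 3) (MonoidAlgebra F Γ)) 0 1 = c
    simp
  simp only [h2] at h1
  exact MonoidAlgebra.of_injective h1

theorem final_of (hG : S_GAM) (hI : S_ICC) (hE : S_EX3) (hF : S_FLD) (hTG : S_TG)
    (hTR : S_TR) (hFAC : S_FAC) (hHAA : S_HAA) (hEXI : S_EXI) (hPTM : S_PTM)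
    (hFG : Pool.Agent.N708.MX.S_FG) :
    FinalVN ∧ FinalGr := by
  obtain ⟨F, _, _, hF1, hF2⟩ := hF
  obtain ⟨Γ, _, s, t, K, Kn, θ, hst, hi1, hi2, hinf, hD⟩ := hG
  have : Infinite K := hinf
  have : Infinite Γ := Infinite.of_injective (Subtype.val : K → Γ) Subtype.val_injective
  obtain ⟨K', Kn', θ', hD', ⟨e⟩⟩ := hE F Γ K Kn θ hD
  have hT : PT (E3 (MonoidAlgebra F Γ)) := hTG F hF1 Γ s t hst
  have hiG : ICC (E3 (MonoidAlgebra F Γ)) := hI F Γ hF2 hi1
  have hiK : ICC K' := icc_congr e (hI F K hF2 hi2)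
  have hinfK : Infinite K' := by
    have := inf_e3 F K
    exact Infinite.of_injective e e.injective
  have hinfG : Infinite (E3 (MonoidAlgebra F Γ)) := inf_e3 F Γ
  obtain ⟨k, γ, hγ⟩ := hFG (E3 (MonoidAlgebra F Γ)) hT
  have : Countable (E3 (MonoidAlgebra F Γ)) := hγ.countable
  obtain ⟨h1, -⟩ := hTR (E3 (MonoidAlgebra F Γ)) K'
  refine ⟨⟨L2 (E3 (MonoidAlgebra F Γ)), inferInstance, inferInstance, inferInstance, sep _, LK K',
    LG (E3 (MonoidAlgebra F Γ)), dl 1,
    fun x hx => ((h1 x).1 hx).1, (hFAC _ K').2 hiK hinfK, (hFAC _ K').1 hiG hinfG,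
    hHAA _ K' Kn' hD'.mono hD'.fin hD'.mem, hPTM _ hT, hEXI _ K' Kn' θ' hD'⟩, ?_⟩
  exact ⟨E3 (MonoidAlgebra F Γ), inferInstance, K', inferInstance, hT, hiG, hiK, hinfK, lf hD',
    gex hD'⟩

end

end Pool.Agent.N571.EX
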