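import Mathlib

/-!
# Project EX: existential extensions of II₁ factors, definitions
-/

set_option autoImplicit false

namespace Pool.Agent.N571.EX

open Filter Topology
open scoped InnerProductSpace ComplexOrder

noncomputable section

variable {H : Type} [NormedAddCommGroup H] [InnerProductSpace ℂ H] [CompleteSpace H]

/-- The elements of a von Neumann algebra, as a `*`-algebra. -/
abbrev El (M : VonNeumannAlgebra H) : Type := ↥M.toStarSubalgebra

/-- `τ(x) = ⟪Ω, x Ω⟫` is a faithful (normal) tracial state on the von Neumann algebra `M`. The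
2-norm of `x ∈ M` is then `‖x Ω‖`, and `L²(M)` is the closure of `M Ω`. -/
structure IsTrace (M : VonNeumannAlgebra H) (Ω : H) : Prop where
  unit : ‖Ω‖ = 1
  tracial : ∀ x ∈ M, ∀ y ∈ M, ⟪Ω, (x * y) Ω⟫_ℂ = ⟪Ω, (y * x) Ω⟫_ℂ
  faithful : ∀ x ∈ M, x Ω = 0 → x = 0

/-- `M` is a `II₁` factor with trace `τ(x) = ⟪Ω, x Ω⟫`: an infinite-dimensional tracial von Neumann
algebra with trivial centre. -/
structure IsIIOne (M : VonNeumannAlgebra H) (Ω : H) : Prop extends IsTrace M Ω where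
  factor : ∀ z ∈ M, (∀ x ∈ M, z * x = x * z) → ∃ c : ℂ, z = c • (1 : H →L[ℂ] H)
  infinite : ¬ FiniteDimensional ℂ (Submodule.span ℂ (M : Set (H →L[ℂ] H)))

/-- Normality of a map `φ : M → B(K)` (`M` acting on a separable Hilbert space): if `x n → x`
strongly and `‖x n‖` is bounded, then `φ (x n) → φ x` strongly. -/
def Normal (M : VonNeumannAlgebra H) {K : Type} [NormedAddCommGroup K] [InnerProductSpace ℂ K]
    (φ : El M → (K →L[ℂ] K)) : Prop :=
  ∀ (x : ℕ → El M) (x₀ : El M) (C : ℝ), (∀ n, ‖(x n : H →L[ℂ] H)‖ ≤ C) →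
    (∀ v : H, Tendsto (fun n => (x n : H →L[ℂ] H) v) atTop (𝓝 ((x₀ : H →L[ℂ] H) v))) →
    ∀ w : K, Tendsto (fun n => φ (x n) w) atTop (𝓝 (φ x₀ w))

/-- The Haagerup property: there are normal, unital, trace preserving, completely positive maps
`φ k : N → N`, which induce compact operators on `L²(N)`, such that `‖φ k (x) - x‖₂ → 0` for
all `x ∈ N`. -/
def Haagerup (N : VonNeumannAlgebra H) (Ω : H) : Prop :=
  ∃ φ : ℕ → El N →ₗ[ℂ] El N,
    (∀ k, φ k 1 = 1 ∧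
      Normal N (fun x => (φ k x : H →L[ℂ] H)) ∧
      (∀ x, ⟪Ω, (φ k x : H →L[ℂ] H) Ω⟫_ℂ = ⟪Ω, (x : H →L[ℂ] H) Ω⟫_ℂ) ∧
      (∀ (n : ℕ) (x : Fin n → El N) (v : Fin n → H),
        0 ≤ ∑ i, ∑ j, ⟪v i, (φ k (star (x i) * x j) : H →L[ℂ] H) (v j)⟫_ℂ) ∧
      ∃ T : H →L[ℂ] H, IsCompactOperator T ∧
        ∀ x : El N, T ((x : H →L[ℂ] H) Ω) = (φ k x : H →L[ℂ] H) Ω) ∧
    ∀ x : El N, Tendsto (fun k => ‖(φ k x : H →L[ℂ] H) Ω - (x : H →L[ℂ] H) Ω‖) atTop (𝓝 0)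

/-- A Hilbert `M`-`M` bimodule: commuting normal unital representations of `M` and of the opposite
algebra on `K`; `x ξ = L x ξ` and `ξ x = R (op x) ξ`. -/
structure Bimod (M : VonNeumannAlgebra H) (K : Type) [NormedAddCommGroup K]
    [InnerProductSpace ℂ K] [CompleteSpace K] where
  L : El M →⋆ₐ[ℂ] (K →L[ℂ] K)
  R : (El M)ᵐᵒᵖ →⋆ₐ[ℂ] (K →L[ℂ] K)
  comm : ∀ (x : El M) (y : (El M)ᵐᵒᵖ), L x * R y = R y * L x
  normalL : Normal M fun x => L x
  normalR : Normal M fun x => R (MulOpposite.op x)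

/-- Property (T) of Connes and Jones: there are a finite set `F ⊆ M` and `δ > 0` such that every
Hilbert `M`-`M` bimodule with a unit vector `ξ` with `‖x ξ - ξ x‖ < δ` for `x ∈ F` has a nonzero
central vector. -/
def HasT (M : VonNeumannAlgebra H) : Prop :=
  ∃ (F : Finset (El M)) (δ : ℝ), 0 < δ ∧
    ∀ (K : Type) [NormedAddCommGroup K] [InnerProductSpace ℂ K] [CompleteSpace K]
      (B : Bimod M K) (ξ : K), ‖ξ‖ = 1 →
      (∀ x ∈ F, ‖B.L x ξ - B.R (MulOpposite.op x) ξ‖ < δ) →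
      ∃ η : K, η ≠ 0 ∧ ∀ x : El M, B.L x η = B.R (MulOpposite.op x) η

/-- `N ⊆ M` is existential along `U`: there is a map which assigns to every `x ∈ M` a bounded
sequence `π x` in `N` and which is, modulo the sequences `y` with `lim_U ‖y n‖₂ = 0`, a unital trace
preserving `*`-homomorphism from `M` to the tracial ultrapower of `N`, and it is the
diagonal embedding on `N`. (A trace preserving `*`-homomorphism between tracial von Neumann
algebras is injective and normal.) -/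
def Existential (N M : VonNeumannAlgebra H) (Ω : H) (U : Ultrafilter ℕ) : Prop :=
  ∃ π : El M → ℕ → El N,
    (∀ x, ∃ C : ℝ, ∀ n, ‖(π x n : H →L[ℂ] H)‖ ≤ C) ∧
    (∀ x y, Tendsto (fun n => ‖((π (x + y) n - (π x n + π y n) : El N) : H →L[ℂ] H) Ω‖) U (𝓝 0)) ∧
    (∀ x y, Tendsto (fun n => ‖((π (x * y) n - π x n * π y n : El N) : H →L[ℂ] H) Ω‖) U (𝓝 0)) ∧
    (∀ (c : ℂ) x, Tendsto (fun n => ‖((π (c • x) n - c • π x n : El N) : H →L[ℂ] H) Ω‖) U (𝓝 0)) ∧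
    (∀ x, Tendsto (fun n => ‖((π (star x) n - star (π x n) : El N) : H →L[ℂ] H) Ω‖) U (𝓝 0)) ∧
    (∀ x, Tendsto (fun n => ⟪Ω, (π x n : H →L[ℂ] H) Ω⟫_ℂ) U (𝓝 ⟪Ω, (x : H →L[ℂ] H) Ω⟫_ℂ)) ∧
    ∀ x : El M, (x : H →L[ℂ] H) ∈ N →
      Tendsto (fun n => ‖(π x n : H →L[ℂ] H) Ω - (x : H →L[ℂ] H) Ω‖) U (𝓝 0)

end

end Pool.Agent.N571.EX
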