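import Pool.Agent.N571.EX.Stm

/-!
# Project EX, EX3: local embeddings of E_3(F[Γ]) (helper547)
-/

set_option autoImplicit false

namespace Pool.Agent.N571.EX

open Filter
open Pool.Agent.N44.NS (el E3)

namespace EX3aux

section ring

variable {A : Type} [Ring A]

/-- the group generated by the elementary matrices with coefficients in `S` -/
def ES (S : Set A) : Subgroup (E3 A) :=
  Subgroup.closure {g | ∃ (i j : Fin 3) (h : i ≠ j) (a : A), a ∈ S ∧ g.1 = el i j h a}

theorem ES_mono {S T : Set A} (h : S ⊆ T) : ES S ≤ ES T := by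
  refine Subgroup.closure_mono ?_
  rintro g ⟨i, j, hij, a, ha, hg⟩
  exact ⟨i, j, hij, a, h ha, hg⟩

theorem ES_un {S : Set A} {Sn : ℕ → Set A} (hmono : Monotone Sn) (hS : ∀ a ∈ S, ∃ n, a ∈ Sn n)
    (x : E3 A) (hx : x ∈ ES S) : ∃ n, x ∈ ES (Sn n) := by
  induction hx using Subgroup.closure_induction with
  | mem x hx =>
    obtain ⟨i, j, hij, a, ha, hg⟩ := hx
    obtain ⟨n, hn⟩ := hS a ha
    exact ⟨n, Subgroup.subset_closure ⟨i, j, hij, a, hn, hg⟩⟩
  | one => exact ⟨0, one_mem _⟩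
  | mul x y _ _ hx hy =>
    obtain ⟨n, hn⟩ := hx
    obtain ⟨m, hm⟩ := hy
    exact ⟨max n m, mul_mem (ES_mono (hmono (le_max_left _ _)) hn)
      (ES_mono (hmono (le_max_right _ _)) hm)⟩
  | inv x _ hx =>
    obtain ⟨n, hn⟩ := hx
    exact ⟨n, inv_mem hn⟩

variable {B : Type} [Ring B]

/-- the induced map of invertible matrices -/
def um (f : B →+* A) : (Matrix (Fin 3) (Fin 3) B)ˣ →* (Matrix (Fin 3) (Fin 3) A)ˣ :=
  Units.map (RingHom.mapMatrix (m := Fin 3) f).toMonoidHom

theorem um_val (f : B →+* A) (g : (Matrix (Fin 3) (Fin 3) B)ˣ) : (um f g).1 = g.1.map f := rfl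

theorem um_el (f : B →+* A) (i j : Fin 3) (h : i ≠ j) (b : B) :
    um f (el i j h b) = el i j h (f b) := by
  apply Units.ext
  rw [um_val]
  show (1 + Matrix.single i j b).map f = 1 + Matrix.single i j (f b)
  rw [Matrix.map_add _ (map_add _), Matrix.map_one _ (map_zero _) (map_one _),
    Matrix.map_single]

theorem um_mem (f : B →+* A) (g : (Matrix (Fin 3) (Fin 3) B)ˣ) (hg : g ∈ E3 B) :
    um f g ∈ E3 A := by
  have h1 : E3 B ≤ (E3 A).comap (um f) := by
    refine (Subgroup.closure_le _).mpr ?_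
    rintro _ ⟨i, j, h, a, rfl⟩
    show um f _ ∈ E3 A
    rw [um_el]
    exact Subgroup.subset_closure ⟨i, j, h, _, rfl⟩
  exact h1 hg

/-- the induced map of elementary groups -/
def em (f : B →+* A) : E3 B →* E3 A :=
  ((um f).comp (E3 B).subtype).codRestrict (E3 A) (fun g => um_mem f g.1 g.2)

theorem em_val (f : B →+* A) (g : E3 B) : (em f g).1 = um f g.1 := rfl

theorem em_inj (f : B →+* A) (hf : Function.Injective f) : Function.Injective (em f) := by
  intro g h hgh
  have h1 : (em f g).1.1 = (em f h).1.1 := by rw [hgh]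
  rw [em_val, em_val, um_val, um_val] at h1
  apply Subtype.ext
  apply Units.ext
  exact Matrix.map_injective hf h1

theorem em_range (f : B →+* A) : (em f).range = ES (Set.range f) := by
  apply le_antisymm
  · rintro _ ⟨g, rfl⟩
    obtain ⟨g, hg⟩ := g
    induction hg using Subgroup.closure_induction with
    | mem x hx =>
      obtain ⟨i, j, hij, a, rfl⟩ := hx
      refine Subgroup.subset_closure ⟨i, j, hij, f a, ⟨a, rfl⟩, ?_⟩
      rw [em_val, um_el]
    | one =>
      rw [show (⟨1, _⟩ : E3 B) = 1 from rfl, map_one]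
      exact one_mem _
    | mul x y hx hy h1 h2 =>
      rw [show (⟨x * y, _⟩ : E3 B) = ⟨x, hx⟩ * ⟨y, hy⟩ from rfl, map_mul]
      exact mul_mem h1 h2
    | inv x hx h1 =>
      rw [show (⟨x⁻¹, _⟩ : E3 B) = ⟨x, hx⟩⁻¹ from rfl, map_inv]
      exact inv_mem h1
  · refine (Subgroup.closure_le _).mpr ?_
    rintro g ⟨i, j, h, _, ⟨b, rfl⟩, hg⟩
    refine ⟨⟨el i j h b, Subgroup.subset_closure ⟨i, j, h, b, rfl⟩⟩, ?_⟩
    apply Subtype.ext
    rw [em_val, um_el, hg]

theorem ES_entry (f : B →+* A) (g : E3 A) (hg : g ∈ ES (Set.range f)) (i j : Fin 3) :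
    g.1.1 i j ∈ Set.range f := by
  rw [← em_range] at hg
  obtain ⟨h, rfl⟩ := hg
  rw [em_val, um_val]
  exact ⟨_, rfl⟩

theorem ES_finite (f : B →+* A) [Finite B] : Finite (ES (Set.range f)) := by
  rw [← em_range]
  have h1 : Finite (Matrix (Fin 3) (Fin 3) B) := Matrix.instFinite _
  have h2 : Finite (Matrix (Fin 3) (Fin 3) B)ˣ := inferInstance
  have h3 : Finite (E3 B) := inferInstance
  exact Finite.of_surjective (em f).rangeRestrict (em f).rangeRestrict_surjective

variable (Θ : ℕ → A →+ A)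

theorem map_eventually (hmul : ∀ a b, ∀ᶠ n in atTop, Θ n (a * b) = Θ n a * Θ n b)
    (M N : Matrix (Fin 3) (Fin 3) A) :
    ∀ᶠ n in atTop, (M * N).map (Θ n) = M.map (Θ n) * N.map (Θ n) := by
  have h1 : ∀ᶠ n in atTop, ∀ i k j : Fin 3, Θ n (M i k * N k j) = Θ n (M i k) * Θ n (N k j) := by
    rw [Filter.eventually_all]
    intro i
    rw [Filter.eventually_all]
    intro k
    rw [Filter.eventually_all]
    intro j
    exact hmul _ _
  filter_upwards [h1] with n hn
  ext i j
  rw [Matrix.map_apply, Matrix.mul_apply, Matrix.mul_apply, map_sum]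
  exact Finset.sum_congr rfl fun k _ => hn i k j

theorem map_one_eventually (h1 : ∀ᶠ n in atTop, Θ n 1 = 1) :
    ∀ᶠ n in atTop, (1 : Matrix (Fin 3) (Fin 3) A).map (Θ n) = 1 := by
  filter_upwards [h1] with n hn
  exact Matrix.map_one _ (map_zero _) hn

theorem key_eventually (S : Set A) (hval : ∀ n a, Θ n a ∈ S) (h1 : ∀ᶠ n in atTop, Θ n 1 = 1)
    (hmul : ∀ a b, ∀ᶠ n in atTop, Θ n (a * b) = Θ n a * Θ n b) (g : E3 A) :
    ∀ᶠ n in atTop, ∃ k : E3 A, k ∈ ES S ∧ k.1.1 = g.1.1.map (Θ n) := by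
  obtain ⟨g, hg⟩ := g
  show ∀ᶠ n in atTop, ∃ k : E3 A, k ∈ ES S ∧ k.1.1 = g.1.map (Θ n)
  induction hg using Subgroup.closure_induction with
  | mem x hx =>
    obtain ⟨i, j, h, a, rfl⟩ := hx
    filter_upwards [map_one_eventually Θ h1] with n hn
    refine ⟨⟨el i j h (Θ n a), Subgroup.subset_closure ⟨i, j, h, _, rfl⟩⟩,
      Subgroup.subset_closure ⟨i, j, h, Θ n a, hval n a, rfl⟩, ?_⟩
    show 1 + Matrix.single i j (Θ n a) = (1 + Matrix.single i j a).map (Θ n)
    rw [Matrix.map_add _ (map_add _), hn, Matrix.map_single]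
  | one =>
    filter_upwards [map_one_eventually Θ h1] with n hn
    refine ⟨1, one_mem _, ?_⟩
    exact hn.symm
  | mul x y _ _ hx hy =>
    filter_upwards [hx, hy, map_eventually Θ hmul x.1 y.1] with n h2 h3 h4
    obtain ⟨k, hk1, hk2⟩ := h2
    obtain ⟨l, hl1, hl2⟩ := h3
    refine ⟨k * l, mul_mem hk1 hl1, ?_⟩
    show k.1.1 * l.1.1 = (x.1 * y.1).map (Θ n)
    rw [h4, hk2, hl2]
  | inv x _ hx =>
    filter_upwards [hx, map_eventually Θ hmul x.1 (x⁻¹).1, map_one_eventually Θ h1] with n h2 h3 h4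
    obtain ⟨k, hk1, hk2⟩ := h2
    refine ⟨k⁻¹, inv_mem hk1, ?_⟩
    show (k.1⁻¹).1 = (x⁻¹).1.map (Θ n)
    rw [Units.mul_inv, h4, ← hk2] at h3
    exact (Units.inv_eq_of_mul_eq_one_right h3.symm)

theorem main (S : Set A) (Sn : ℕ → Set A) (hmono : Monotone Sn) (hS : ∀ a ∈ S, ∃ n, a ∈ Sn n)
    (hS' : ∀ n, Sn n ⊆ S) (ι : B →+* A) (hι : Function.Injective ι) (hr : Set.range ι = S)
    (hfin : ∀ n, Finite (ES (Sn n))) (hval : ∀ n a, Θ n a ∈ S)
    (h1 : ∀ᶠ n in atTop, Θ n 1 = 1)
    (hmul : ∀ a b, ∀ᶠ n in atTop, Θ n (a * b) = Θ n a * Θ n b)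
    (hne : ∀ a, a ≠ 0 → ∀ᶠ n in atTop, Θ n a ≠ 0) (hid : ∀ a ∈ S, ∀ᶠ n in atTop, Θ n a = a) :
    ∃ (K' : Subgroup (E3 A)) (Kn' : ℕ → Subgroup (E3 A)) (θ' : ℕ → E3 A → E3 A),
      ExD (E3 A) K' Kn' θ' ∧ Nonempty (E3 B ≃* K') := by
  classical
  let θ' : ℕ → E3 A → E3 A := fun n g =>
    if h : ∃ k : E3 A, k ∈ ES S ∧ k.1.1 = g.1.1.map (Θ n) then h.choose else 1
  have hθ : ∀ g, ∀ᶠ n in atTop, (θ' n g).1.1 = g.1.1.map (Θ n) := by
    intro g
    filter_upwards [key_eventually Θ S hval h1 hmul g] with n hn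
    show (if h : ∃ k : E3 A, k ∈ ES S ∧ k.1.1 = g.1.1.map (Θ n) then h.choose else 1).1.1 = _
    rw [dif_pos hn]
    exact hn.choose_spec.2
  have hext : ∀ g h : E3 A, g.1.1 = h.1.1 → g = h := fun g h hgh => Subtype.ext (Units.ext hgh)
  refine ⟨ES S, fun n => ES (Sn n), θ', ⟨fun m n hmn => ES_mono (hmono hmn), hfin, fun x => ?_,
    fun n x => ?_, fun x y => ?_, fun x hx => ?_, fun x hx => ?_⟩, ?_⟩
  · exact ⟨ES_un hmono hS x, fun ⟨n, hn⟩ => ES_mono (hS' n) hn⟩
  · show (if h : ∃ k : E3 A, k ∈ ES S ∧ k.1.1 = x.1.1.map (Θ n) then h.choose else 1) ∈ ES S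
    split_ifs with h
    · exact h.choose_spec.1
    · exact one_mem _
  · filter_upwards [hθ x, hθ y, hθ (x * y), map_eventually Θ hmul x.1.1 y.1.1] with n e1 e2 e3 e4
    apply hext
    rw [e3]
    show (x.1.1 * y.1.1).map (Θ n) = (θ' n x).1.1 * (θ' n y).1.1
    rw [e1, e2, e4]
  · have h2 : ∃ i j : Fin 3, x.1.1 i j ≠ (1 : Matrix (Fin 3) (Fin 3) A) i j := by
      by_contra hcon
      push Not at hcon
      exact hx (hext _ _ (by ext1 i j; exact hcon i j))
    obtain ⟨i, j, hij⟩ := h2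
    filter_upwards [hθ x, map_one_eventually Θ h1, hne _ (sub_ne_zero.mpr hij)] with n e1 e2 e3
    intro h
    rw [h] at e1
    apply e3
    rw [map_sub, sub_eq_zero]
    have e4 := congrFun (congrFun e1 i) j
    have e5 := congrFun (congrFun e2 i) j
    rw [Matrix.map_apply] at e4 e5
    rw [← e4, e5]
    rfl
  · subst hr
    have h2 : ∀ᶠ n in atTop, ∀ i j : Fin 3, Θ n (x.1.1 i j) = x.1.1 i j := by
      rw [Filter.eventually_all]
      intro i
      rw [Filter.eventually_all]
      intro j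
      exact hid _ (ES_entry ι x hx i j)
    filter_upwards [hθ x, h2] with n e1 e2
    apply hext
    rw [e1]
    ext1 i j
    rw [Matrix.map_apply, e2]
  · subst hr
    exact ⟨(MonoidHom.ofInjective (em_inj ι hι)).trans (MulEquiv.subgroupCongr (em_range ι))⟩

end ring

section gp

variable {F : Type} [Field F] {Γ : Type} [Group Γ]

/-- the elements of the group algebra supported in `K` -/
def Sp (F : Type) [Field F] {Γ : Type} [Group Γ] (K : Subgroup Γ) : Set (MonoidAlgebra F Γ) :=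
  {a | ∀ g ∈ a.coeff.support, g ∈ K}

theorem Sp_mono {K L : Subgroup Γ} (h : K ≤ L) : Sp F K ⊆ Sp F L := fun _ ha g hg => h (ha g hg)

/-- the inclusion of group algebras -/
noncomputable def inc (F : Type) [Field F] {Γ : Type} [Group Γ] (K : Subgroup Γ) :
    MonoidAlgebra F K →+* MonoidAlgebra F Γ :=
  MonoidAlgebra.mapDomainRingHom F K.subtype

theorem inc_apply (K : Subgroup Γ) (a : MonoidAlgebra F K) :
    inc F K a = MonoidAlgebra.mapDomain K.subtype a := rfl

theorem inc_inj (K : Subgroup Γ) : Function.Injective (inc F K) :=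
  MonoidAlgebra.mapDomain_injective K.subtype_injective

theorem inc_range (K : Subgroup Γ) : Set.range (inc F K) = Sp F K := by
  classical
  ext a
  constructor
  · rintro ⟨b, rfl⟩ g hg
    rw [inc_apply] at hg
    have h1 := Finsupp.mapDomain_support hg
    rw [Finset.mem_image] at h1
    obtain ⟨x, _, rfl⟩ := h1
    exact x.2
  · intro ha
    refine ⟨MonoidAlgebra.comapDomain K.subtype K.subtype_injective a, ?_⟩
    rw [inc_apply]
    refine MonoidAlgebra.mapDomain_comapDomain ?_ K.subtype_injective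
    intro g hg
    exact ⟨⟨g, ha g (Finset.mem_coe.mp hg)⟩, rfl⟩

theorem finite_alg [Finite F] (K : Type) [Finite K] : Finite (MonoidAlgebra F K) := by
  classical
  have := Fintype.ofFinite K
  have h1 : Finite (K → F) := Pi.finite
  have h2 : Finite (K →₀ F) := Finite.of_injective (fun f : K →₀ F => (f : K → F))
    DFunLike.coe_injective
  exact Finite.of_injective MonoidAlgebra.coeff MonoidAlgebra.coeff_injective

/-- the map of group algebras induced by a map -/
noncomputable def Th (F : Type) [Field F] {Γ : Type} [Group Γ] (f : Γ → Γ) :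
    MonoidAlgebra F Γ →+ MonoidAlgebra F Γ where
  toFun := MonoidAlgebra.mapDomain f
  map_zero' := MonoidAlgebra.mapDomain_zero f
  map_add' := MonoidAlgebra.mapDomain_add f

theorem Th_apply (f : Γ → Γ) (a : MonoidAlgebra F Γ) : Th F f a = MonoidAlgebra.mapDomain f a := rfl

theorem Th_single (f : Γ → Γ) (x : Γ) (r : F) :
    Th F f (MonoidAlgebra.single x r) = MonoidAlgebra.single (f x) r :=
  MonoidAlgebra.mapDomain_single

theorem Th_Sp (f : Γ → Γ) (K : Subgroup Γ) (hf : ∀ x, f x ∈ K) (a : MonoidAlgebra F Γ) :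
    Th F f a ∈ Sp F K := by
  classical
  intro g hg
  rw [Th_apply] at hg
  have h1 := Finsupp.mapDomain_support hg
  rw [Finset.mem_image] at h1
  obtain ⟨x, _, rfl⟩ := h1
  exact hf x

theorem Th_mul {θ : ℕ → Γ → Γ} (hm : ∀ x y, ∀ᶠ n in atTop, θ n (x * y) = θ n x * θ n y)
    (a b : MonoidAlgebra F Γ) :
    ∀ᶠ n in atTop, Th F (θ n) (a * b) = Th F (θ n) a * Th F (θ n) b := by
  induction a using MonoidAlgebra.induction_linear with
  | zero => exact Eventually.of_forall fun n => by rw [zero_mul, map_zero, zero_mul]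
  | add f g hf hg =>
    filter_upwards [hf, hg] with n h1 h2
    rw [add_mul, map_add, map_add, h1, h2, add_mul]
  | single x r =>
    induction b using MonoidAlgebra.induction_linear with
    | zero => exact Eventually.of_forall fun n => by rw [mul_zero, map_zero, mul_zero]
    | add f g hf hg =>
      filter_upwards [hf, hg] with n h1 h2
      rw [mul_add, map_add, map_add, h1, h2, mul_add]
    | single y s =>
      filter_upwards [hm x y] with n hn
      rw [MonoidAlgebra.single_mul_single, Th_single, Th_single, Th_single,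
        MonoidAlgebra.single_mul_single, hn]

theorem Th_id (f : Γ → Γ) (a : MonoidAlgebra F Γ) (h : ∀ g ∈ a.coeff.support, f g = g) :
    Th F f a = a := by
  apply MonoidAlgebra.coeff_injective
  show Finsupp.mapDomain f a.coeff = a.coeff
  rw [Finsupp.mapDomain_congr (g := id) h, Finsupp.mapDomain_id]

theorem Th_ne {f : Γ → Γ} (a : MonoidAlgebra F Γ) (ha : a ≠ 0)
    (h : Set.InjOn f (a.coeff.support : Set Γ)) : Th F f a ≠ 0 := by
  intro h0
  have h1 : a.coeff ≠ 0 := fun h => ha (MonoidAlgebra.coeff_eq_zero.mp h)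
  obtain ⟨g0, hg0⟩ := Finsupp.support_nonempty_iff.mpr h1
  have h2 : Finsupp.mapDomain f a.coeff = 0 := by
    have := congrArg MonoidAlgebra.coeff h0
    exact this
  have h3 := Finsupp.mapDomain_apply' (a.coeff.support : Set Γ) a.coeff (le_refl _) h hg0
  rw [h2, Finsupp.coe_zero, Pi.zero_apply] at h3
  exact (Finsupp.mem_support_iff.mp hg0) h3.symm

end gp

end EX3aux

open EX3aux in
/-- **EX3.** -/
theorem t_ex3 : S_EX3 := by
  classical
  intro F _ _ Γ _ K Kn θ h
  have hone : ∀ᶠ n in atTop, θ n 1 = 1 := by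
    filter_upwards [h.mul 1 1] with n hn
    rw [mul_one] at hn
    exact left_eq_mul.mp hn
  have hKn : ∀ n, Kn n ≤ K := fun n x hx => (h.mem x).mpr ⟨n, hx⟩
  refine main (A := MonoidAlgebra F Γ) (B := MonoidAlgebra F K) (fun n => Th F (θ n)) (Sp F K)
    (fun n => Sp F (Kn n)) (fun m n hmn => Sp_mono (h.mono hmn)) ?_ (fun n => Sp_mono (hKn n))
    (inc F K) (inc_inj K) (inc_range K) ?_ (fun n a => Th_Sp (θ n) K (h.val n) a) ?_
    (Th_mul h.mul) ?_ ?_
  · intro a ha
    have h1 : ∀ g : Γ, ∃ n, g ∈ a.coeff.support → g ∈ Kn n := by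
      intro g
      by_cases hg : g ∈ a.coeff.support
      · obtain ⟨n, hn⟩ := (h.mem g).mp (ha g hg)
        exact ⟨n, fun _ => hn⟩
      · exact ⟨0, fun h => absurd h hg⟩
    choose N hN using h1
    refine ⟨a.coeff.support.sup N, fun g hg => ?_⟩
    exact h.mono (Finset.le_sup hg) (hN g hg)
  · intro n
    have := h.fin n
    have h1 := finite_alg (F := F) (Kn n)
    rw [← inc_range]
    exact ES_finite (inc F (Kn n))
  · filter_upwards [hone] with n hn
    show Th F (θ n) 1 = 1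
    rw [MonoidAlgebra.one_def, Th_single, hn]
  · intro a ha
    have h1 : ∀ᶠ n in atTop, ∀ x ∈ a.coeff.support, ∀ y ∈ a.coeff.support, x ≠ y →
        θ n x ≠ θ n y := by
      rw [Filter.eventually_all_finset]
      intro x _
      rw [Filter.eventually_all_finset]
      intro y _
      by_cases hxy : x = y
      · exact Eventually.of_forall fun n hn => absurd hxy hn
      · filter_upwards [h.mul (x * y⁻¹) y, h.ne (x * y⁻¹) (fun h => hxy (mul_inv_eq_one.mp h))]
          with n h1 h2 _ h3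
        rw [inv_mul_cancel_right, h3] at h1
        exact h2 (right_eq_mul.mp h1)
    filter_upwards [h1] with n hn
    refine Th_ne a ha ?_
    intro x hx y hy hxy
    by_contra hne
    exact hn x hx y hy hne hxy
  · intro a ha
    have h1 : ∀ᶠ n in atTop, ∀ x ∈ a.coeff.support, θ n x = x := by
      rw [Filter.eventually_all_finset]
      intro x hx
      exact h.id x (ha x hx)
    filter_upwards [h1] with n hn
    exact Th_id (θ n) a hn

end Pool.Agent.N571.EX
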