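import Pool.Agent.N571.EX.Stm

/-!
# Project EX: the inclusion `L(K) ⊆ L(G)` is existential (assembly)

Written by helper432 for project EX of helper571.
-/

set_option autoImplicit false

namespace Pool.Agent.N571.EX

open Filter Topology
open scoped InnerProductSpace ComplexOrder
open Pool.Agent.H494R3.GT (L2 dl)
open Pool.Agent.N557.QW (lam rgt LG LK cf rc)

noncomputable section

namespace Exi

theorem smul_mem_LG {G : Type} [Group G] {x : L2 G →L[ℂ] L2 G} (hx : x ∈ LG G) (c : ℂ) :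
    c • x ∈ LG G := by
  have hx' : x ∈ (LG G).toStarSubalgebra := hx
  have : c • x ∈ (LG G).toStarSubalgebra := (LG G).toStarSubalgebra.smul_mem hx' c
  exact this

/-- lifts of self-adjoint contractions -/
theorem lift_sa (h : S_TR) (h1 : S_RES) (h2 : S_CAY) (h3 : S_PF) (h4 : S_RL1) (h5 : S_RL2)
    (G : Type) [Group G] (K : Subgroup G) (Kn : ℕ → Subgroup G) (θ : ℕ → G → G)
    (hE : ExD G K Kn θ) (x : L2 G →L[ℂ] L2 G) (hx : x ∈ LG G) (hs : star x = x) (hn : ‖x‖ ≤ 1) :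
    ∃ y, Rel K θ x y := by
  obtain ⟨a, haM, has, hax⟩ := h2 _ (LG G) x hx hs hn
  obtain ⟨r, hr1, hr2, hrn, hrM⟩ := h1 _ a has
  have hrL : r ∈ LG G := hrM _ haM
  have hxr := hax r hr1 hr2
  obtain ⟨hpfG, -, -, -, -, -, -, -, -, -, hden⟩ := h3 G K Kn θ hE
  have hp : ∀ k : ℕ, ∃ p : G →₀ ℂ, ‖a (dl 1) - pf id p (dl (1 : G))‖ < 1 / ((k : ℝ) + 1) ∧
      star (pf id p) = pf id p ∧ ∀ᶠ n in atTop, star (pf (θ n) p) = pf (θ n) p := by
    intro k
    obtain ⟨p, hp1, hp2, -⟩ := hden a haM (1 / ((k : ℝ) + 1)) (by positivity)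
    exact ⟨p, hp1, (hp2 has).1, (hp2 has).2⟩
  choose p hp1 hp2 hp3 using hp
  have hr : ∀ k : ℕ, ∃ rk : L2 G →L[ℂ] L2 G, (1 - Complex.I • pf id (p k)) * rk = 1 ∧
      rk * (1 - Complex.I • pf id (p k)) = 1 ∧ ‖rk‖ ≤ 1 ∧ rk ∈ LG G := by
    intro k
    obtain ⟨rk, ha, hb, hc, hd⟩ := h1 _ (pf id (p k)) (hp2 k)
    exact ⟨rk, ha, hb, hc, hd _ (hpfG id (p k))⟩
  choose rk hrk1 hrk2 hrk3 hrk4 using hr
  have hy : ∀ k : ℕ, ∃ y : ℕ → L2 G →L[ℂ] L2 G, (∀ n, ‖y n‖ ≤ 1) ∧ Rel K θ (rk k) y := fun k =>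
    (h5 G K Kn θ hE).1 (p k) (hp2 k) (hp3 k) (rk k) (hrk1 k) (hrk2 k)
  choose y hy1 hy2 using hy
  have hsub : ∀ k, r - rk k = (r * (Complex.I • (a - pf id (p k)))) * rk k := by
    intro k
    have e1 : r = r * ((1 - Complex.I • pf id (p k)) * rk k) := by rw [hrk1 k, mul_one]
    have e2 : rk k = (r * (1 - Complex.I • a)) * rk k := by rw [hr2, one_mul]
    calc r - rk k = r * ((1 - Complex.I • pf id (p k)) * rk k) -
        (r * (1 - Complex.I • a)) * rk k := by rw [← e1, ← e2]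
      _ = _ := by
        rw [smul_sub]
        noncomm_ring
  obtain ⟨-, -, -, -, hmul, -⟩ := h G K
  have hsubM : ∀ k, a - pf id (p k) ∈ LG G := fun k => sub_mem haM (hpfG id (p k))
  have hdist : ∀ k, ‖(rk k) (dl 1) - r (dl (1 : G))‖ ≤ 1 / ((k : ℝ) + 1) := by
    intro k
    have e3 : r (dl (1 : G)) - (rk k) (dl 1) =
        Complex.I • r (((a - pf id (p k)) * rk k) (dl 1)) := by
      have := congrArg (fun z : L2 G →L[ℂ] L2 G => z (dl (1 : G))) (hsub k)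
      simp only [sub_apply] at this
      rw [this]
      simp only [ContinuousLinearMap.mul_def, ContinuousLinearMap.comp_apply,
        smul_apply, map_smul]
    rw [norm_sub_rev, e3, norm_smul, Complex.norm_I, one_mul]
    calc ‖r (((a - pf id (p k)) * rk k) (dl 1))‖ ≤ ‖r‖ * ‖((a - pf id (p k)) * rk k) (dl 1)‖ :=
          r.le_opNorm _
      _ ≤ 1 * ‖((a - pf id (p k)) * rk k) (dl 1)‖ :=
          mul_le_mul_of_nonneg_right hrn (norm_nonneg _)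
      _ = ‖((a - pf id (p k)) * rk k) (dl 1)‖ := one_mul _
      _ ≤ ‖rk k‖ * ‖(a - pf id (p k)) (dl 1)‖ := hmul _ (hsubM k) _ (hrk4 k)
      _ ≤ 1 * ‖(a - pf id (p k)) (dl 1)‖ := mul_le_mul_of_nonneg_right (hrk3 k) (norm_nonneg _)
      _ = ‖a (dl 1) - pf id (p k) (dl 1)‖ := by rw [one_mul, sub_apply]
      _ ≤ 1 / ((k : ℝ) + 1) := (hp1 k).le
  have hlim : Tendsto (fun k => ‖(rk k) (dl 1) - r (dl (1 : G))‖) atTop (𝓝 0) :=
    squeeze_zero (fun k => norm_nonneg _) hdist tendsto_one_div_add_atTop_nhds_zero_nat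
  obtain ⟨z, -, hz⟩ := (h5 G K Kn θ hE).2 r rk y hlim hy1 hy2
  obtain ⟨hadd, hsmul, hstar, -⟩ := h4 G K Kn θ hE
  have h6 := hsmul (-1) _ _ (hstar r z hrL hz)
  have h7 := hsmul (-Complex.I) _ _ (hadd _ _ _ _ hz h6)
  have e4 : x = -Complex.I • (r + (-1 : ℂ) • star r) := by
    rw [hxr, neg_one_smul, ← sub_eq_add_neg]
  rw [e4]
  exact ⟨_, h7⟩

/-- lifts of self-adjoint operators -/
theorem lift_sa' (h : S_TR) (h1 : S_RES) (h2 : S_CAY) (h3 : S_PF) (h4 : S_RL1) (h5 : S_RL2)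
    (G : Type) [Group G] (K : Subgroup G) (Kn : ℕ → Subgroup G) (θ : ℕ → G → G)
    (hE : ExD G K Kn θ) (x : L2 G →L[ℂ] L2 G) (hx : x ∈ LG G) (hs : star x = x) :
    ∃ y, Rel K θ x y := by
  have hpos : (0 : ℝ) < ‖x‖ + 1 := by positivity
  have hc : ((‖x‖ + 1 : ℝ) : ℂ) ≠ 0 := by
    exact_mod_cast hpos.ne'
  set c : ℂ := ((‖x‖ + 1 : ℝ) : ℂ) with hcdef
  have hx' : c⁻¹ • x ∈ LG G := smul_mem_LG hx _
  have hs' : star (c⁻¹ • x) = c⁻¹ • x := by
    rw [star_smul, hs, hcdef]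
    congr 1
    rw [← Complex.ofReal_inv]
    exact Complex.conj_ofReal _
  have hn' : ‖c⁻¹ • x‖ ≤ 1 := by
    rw [norm_smul, norm_inv, hcdef, Complex.norm_real, Real.norm_of_nonneg hpos.le,
      inv_mul_le_iff₀ hpos]
    linarith
  obtain ⟨y, hy⟩ := lift_sa h h1 h2 h3 h4 h5 G K Kn θ hE _ hx' hs' hn'
  obtain ⟨-, hsmul, -⟩ := h4 G K Kn θ hE
  have := hsmul c _ _ hy
  rw [smul_smul, mul_inv_cancel₀ hc, one_smul] at this
  exact ⟨_, this⟩

/-- Step A -/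
theorem lift_all (h : S_TR) (h1 : S_RES) (h2 : S_CAY) (h3 : S_PF) (h4 : S_RL1) (h5 : S_RL2)
    (G : Type) [Group G] (K : Subgroup G) (Kn : ℕ → Subgroup G) (θ : ℕ → G → G)
    (hE : ExD G K Kn θ) (x : L2 G →L[ℂ] L2 G) (hx : x ∈ LG G) :
    ∃ y, Rel K θ x y := by
  have hsx : star x ∈ LG G := star_mem hx
  obtain ⟨y1, hy1⟩ := lift_sa' h h1 h2 h3 h4 h5 G K Kn θ hE (x + star x) (add_mem hx hsx) (by
    rw [star_add, star_star, add_comm])
  obtain ⟨y2, hy2⟩ := lift_sa' h h1 h2 h3 h4 h5 G K Kn θ hE ((-Complex.I) • (x - star x))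
    (smul_mem_LG (sub_mem hx hsx) _) (by
    rw [star_smul, star_sub, star_star]
    have : star (-Complex.I) = Complex.I := by
      simp
    rw [this, neg_smul, ← smul_neg, neg_sub])
  obtain ⟨hadd, hsmul, -⟩ := h4 G K Kn θ hE
  have h6 := hadd _ _ _ _ (hsmul (1 / 2) _ _ hy1) (hsmul (Complex.I / 2) _ _ hy2)
  have e : (1 / 2 : ℂ) • (x + star x) + (Complex.I / 2) • ((-Complex.I) • (x - star x)) = x := by
    rw [smul_smul]
    have : Complex.I / 2 * -Complex.I = 1 / 2 := by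
      rw [div_mul_eq_mul_div, mul_neg, Complex.I_mul_I, neg_neg]
    rw [this, ← smul_add]
    have : x + star x + (x - star x) = (2 : ℂ) • x := by
      rw [two_smul]
      abel
    rw [this, smul_smul]
    norm_num
  rw [e] at h6
  exact ⟨_, h6⟩

end Exi

open Exi in
theorem t_exi (h : S_TR) (h1 : S_RES) (h2 : S_CAY) (h3 : S_PF) (h4 : S_RL1) (h5 : S_RL2) :
    S_EXI := by
  intro G _ K Kn θ hE U hU
  have hU' : (U : Filter ℕ) ≤ atTop := by
    rw [← Nat.cofinite_eq_atTop]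
    exact hU
  have hlift : ∀ x : El (LG G), ∃ y, Rel K θ (x : L2 G →L[ℂ] L2 G) y := fun x =>
    lift_all h h1 h2 h3 h4 h5 G K Kn θ hE x x.2
  choose y hy using hlift
  obtain ⟨hadd, hsmul, hstar, hmul, huniq, htr, hconst⟩ := h4 G K Kn θ hE
  refine ⟨fun x n => ⟨y x n, (hy x).2.1 n⟩, fun x => (hy x).1, ?_, ?_, ?_, ?_, ?_, ?_⟩
  · intro x x'
    exact (huniq _ _ _ (hy (x + x')) (hadd _ _ _ _ (hy x) (hy x'))).mono_left hU'
  · intro x x'
    exact (huniq _ _ _ (hy (x * x')) (hmul _ _ _ _ x.2 x'.2 (hy x) (hy x'))).mono_left hU'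
  · intro c x
    exact (huniq _ _ _ (hy (c • x)) (hsmul c _ _ (hy x))).mono_left hU'
  · intro x
    exact (huniq _ _ _ (hy (star x)) (hstar _ _ x.2 (hy x))).mono_left hU'
  · intro x
    exact (htr _ _ (hy x)).mono_left hU'
  · intro x hx
    exact (huniq _ _ _ (hy x) (hconst _ hx)).mono_left hU'

end

end Pool.Agent.N571.EX
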