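import Pool.Agent.N571.EX.Stm

/-!
# Project EX: `L(G)` and `L(K)` are II₁ factors for groups with infinite conjugacy classes

Written by helper457.
-/

set_option autoImplicit false

namespace Pool.Agent.N571.EX

open Filter Topology
open scoped InnerProductSpace
open Pool.Agent.H494R3.GT (L2 dl inner_dl vec_ext mul_ap dl_apply_self dl_apply_ne dl_orthonormal)
open Pool.Agent.N557.QW (lam rgt LG LK cf rc mem_LG_iff lam_mem lam_dl star_lam lam_mul lam_one)

noncomputable section

section

variable {G : Type} [Group G]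

theorem cf_eq (x : L2 G →L[ℂ] L2 G) (g : G) : cf x g = (x (dl 1)) g := by
  unfold cf
  rw [inner_dl]

/-- the coefficients of a central element are constant on conjugacy classes -/
theorem cf_conj {z : L2 G →L[ℂ] L2 G} (hz : z ∈ LG G) (h t : G)
    (hc : z * lam h = lam h * z) : cf z (h * t * h⁻¹) = cf z t := by
  rw [← mem_LG_iff.1 hz h (h * t)]
  have h1 : z (dl h) = lam h (z (dl 1)) := by
    have := congrArg (fun y : L2 G →L[ℂ] L2 G => y (dl 1)) hc
    simp only [mul_ap, lam_dl, mul_one] at this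
    exact this
  rw [h1, ← star_star (lam h), ContinuousLinearMap.star_eq_adjoint,
    ContinuousLinearMap.adjoint_inner_right, star_lam, lam_dl, inv_mul_cancel_left]
  rfl

/-- a vector of `ℓ²` is not constant and nonzero on an infinite set -/
theorem finite_level (v : L2 G) (c : ℂ) (hc : c ≠ 0) (A : Set G) (hA : A.Infinite)
    (h : ∀ x ∈ A, v x = c) : False := by
  have h1 := (lp.memℓp v).summable (by norm_num)
  have h2 := h1.tendsto_cofinite_zero
  have hpos : 0 < ‖c‖ ^ (2 : ENNReal).toReal := by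
    have := norm_pos_iff.2 hc
    positivity
  have h3 := h2.eventually (gt_mem_nhds hpos)
  rw [eventually_cofinite] at h3
  refine hA (h3.subset fun x hx => ?_)
  show ¬ ‖v x‖ ^ (2 : ENNReal).toReal < ‖c‖ ^ (2 : ENNReal).toReal
  rw [h x hx]
  exact lt_irrefl _

theorem fac_aux (M : VonNeumannAlgebra (L2 G)) (S : Subgroup G) (hM : ∀ x ∈ M, x ∈ LG G)
    (hS : ∀ x ∈ M, ∀ g, g ∉ S → cf x g = 0) (hlam : ∀ g ∈ S, lam g ∈ M)
    (htr : IsTrace M (dl (1 : G)))
    (hicc : ∀ g ∈ S, g ≠ 1 → Set.Infinite {x : G | ∃ h ∈ S, x = h * g * h⁻¹})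
    (hinf : Infinite S) : IsIIOne M (dl (1 : G)) := by
  refine { toIsTrace := htr, factor := ?_, infinite := ?_ }
  · intro z hz hcom
    have hzero : ∀ g, g ≠ 1 → cf z g = 0 := by
      intro g hg
      by_cases hgS : g ∈ S
      · by_contra hne
        refine finite_level (z (dl 1)) (cf z g) hne _ (hicc g hgS hg) ?_
        rintro x ⟨h, hh, rfl⟩
        rw [← cf_eq, cf_conj (hM z hz) h g (hcom _ (hlam h hh))]
      · exact hS z hz g hgS
    refine ⟨cf z 1, ?_⟩
    have h1 : (z - cf z 1 • (1 : L2 G →L[ℂ] L2 G)) (dl 1) = 0 := by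
      apply vec_ext
      intro x
      have e1 : (z - cf z 1 • (1 : L2 G →L[ℂ] L2 G)) (dl 1) = z (dl 1) - cf z 1 • dl 1 := rfl
      rw [e1]
      have e2 : (z (dl 1) - cf z 1 • dl 1 : L2 G) x = (z (dl 1)) x - cf z 1 * (dl 1 : L2 G) x := rfl
      rw [e2, ← cf_eq]
      by_cases hx : x = 1
      · rw [hx, dl_apply_self, mul_one, sub_self]
        rfl
      · rw [hzero x hx, dl_apply_ne hx, mul_zero, sub_zero]
        rfl
    have h2 : z - cf z 1 • (1 : L2 G →L[ℂ] L2 G) ∈ M := by
      have e1 : (1 : L2 G →L[ℂ] L2 G) ∈ M.toStarSubalgebra := M.toStarSubalgebra.one_mem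
      have e2 : cf z 1 • (1 : L2 G →L[ℂ] L2 G) ∈ M.toStarSubalgebra :=
        M.toStarSubalgebra.smul_mem e1 _
      exact M.toStarSubalgebra.sub_mem hz e2
    exact sub_eq_zero.1 (htr.faithful _ h2 h1)
  · intro hfd
    have hli0 : LinearIndependent ℂ (fun g : S => (dl (g : G) : L2 G)) :=
      (dl_orthonormal Subtype.val_injective).linearIndependent
    let ev : (L2 G →L[ℂ] L2 G) →ₗ[ℂ] L2 G :=
      { toFun := fun x => x (dl 1)
        map_add' := fun _ _ => rfl
        map_smul' := fun _ _ => rfl }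
    have hli1 : LinearIndependent ℂ (fun g : S => (lam (g : G) : L2 G →L[ℂ] L2 G)) := by
      refine LinearIndependent.of_comp ev ?_
      have e1 : (ev ∘ fun g : S => (lam (g : G) : L2 G →L[ℂ] L2 G)) =
          fun g : S => (dl (g : G) : L2 G) := by
        funext g
        show lam (g : G) (dl 1) = dl (g : G)
        rw [lam_dl, mul_one]
      rw [e1]
      exact hli0
    let f : S → Submodule.span ℂ (M : Set (L2 G →L[ℂ] L2 G)) :=
      fun g => ⟨lam (g : G), Submodule.subset_span (hlam g g.2)⟩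
    have hli2 : LinearIndependent ℂ f :=
      LinearIndependent.of_comp (Submodule.span ℂ (M : Set (L2 G →L[ℂ] L2 G))).subtype hli1
    have hfin : Finite S := hli2.finite
    exact not_finite S

end

theorem t_fac (h : S_TR) : S_FAC := by
  intro G _ K
  obtain ⟨hLK, htG, htK, -, -, -⟩ := h G K
  refine ⟨fun hicc hinf => ?_, fun hicc hinf => ?_⟩
  · refine fac_aux (LG G) ⊤ (fun x hx => hx) (fun x _ g hg => absurd (Subgroup.mem_top g) hg)
      (fun g _ => lam_mem g) htG (fun g _ hg => ?_) ?_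
    · refine (hicc g hg).mono ?_
      rintro x ⟨k, hk⟩
      exact ⟨k, Subgroup.mem_top k, hk⟩
    · exact Subgroup.topEquiv.symm.toEquiv.infinite_iff.1 hinf
  · refine fac_aux (LK K) K (fun x hx => ((hLK x).1 hx).1) (fun x hx => ((hLK x).1 hx).2)
      (fun g hg => (hLK _).2 ⟨lam_mem g, fun t ht => ?_⟩) htK (fun g hg hg1 => ?_) hinf
    · rw [cf_eq, lam_dl, mul_one]
      exact dl_apply_ne fun h => ht (h ▸ hg)
    · have h1 : (⟨g, hg⟩ : K) ≠ 1 := fun h => hg1 (congrArg Subtype.val h)
      have h2 := (hicc ⟨g, hg⟩ h1).image (f := fun x : K => (x : G)) Subtype.val_injective.injOn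
      refine h2.mono ?_
      rintro x ⟨y, ⟨k, hk⟩, rfl⟩
      exact ⟨k, k.2, by rw [hk]; rfl⟩

end

end Pool.Agent.N571.EX
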