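import Pool.Agent.N571.EX.Stm

set_option autoImplicit false

/-!
# Project EX: finitary permutations of `ℤ` and the shift
-/

namespace Pool.Agent.N571.EX

namespace GAM

open Filter

/-- permutations of `ℤ` -/
abbrev PZ := Equiv.Perm ℤ

/-- `g x = x + k` for almost all `x` -/
def Fi (g : PZ) (k : ℤ) : Prop := {x : ℤ | g x ≠ x + k}.Finite

theorem fi_one : Fi 1 0 := by
  unfold Fi
  simp

theorem fi_mul {g h : PZ} {k l : ℤ} (hg : Fi g k) (hh : Fi h l) : Fi (g * h) (k + l) := by
  have h1 : {x : ℤ | (g * h) x ≠ x + (k + l)} ⊆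
      {x | h x ≠ x + l} ∪ (fun x => x + l) ⁻¹' {x | g x ≠ x + k} := by
    intro x hx
    by_cases h2 : h x = x + l
    · right
      show g (x + l) ≠ (x + l) + k
      intro h3
      apply hx
      rw [Equiv.Perm.mul_apply, h2, h3]
      ring
    · left
      exact h2
  exact (Set.Finite.union hh (Set.Finite.preimage (add_left_injective l).injOn hg)).subset h1

theorem fi_inv {g : PZ} {k : ℤ} (hg : Fi g k) : Fi g⁻¹ (-k) := by
  have h1 : {x : ℤ | g⁻¹ x ≠ x + -k} ⊆ g '' {x | g x ≠ x + k} := by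
    intro x hx
    have hgx : g (g⁻¹ x) = x := Equiv.apply_symm_apply g x
    refine ⟨g⁻¹ x, ?_, hgx⟩
    show g (g⁻¹ x) ≠ g⁻¹ x + k
    rw [hgx]
    intro h
    apply hx
    linarith
  exact (Set.Finite.image g hg).subset h1

theorem fi_unique {g : PZ} {k l : ℤ} (h1 : Fi g k) (h2 : Fi g l) : k = l := by
  by_contra h
  have h3 : (Set.univ : Set ℤ) ⊆ {x | g x ≠ x + k} ∪ {x | g x ≠ x + l} := by
    intro x _
    by_cases h4 : g x = x + k
    · right
      show g x ≠ x + l
      rw [h4]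
      intro h5
      exact h (by linarith)
    · left
      exact h4
  exact Set.infinite_univ ((Set.Finite.union h1 h2).subset h3)

/-- the translation -/
def sh (k : ℤ) : PZ := Equiv.addRight k

@[simp] theorem sh_apply (k x : ℤ) : sh k x = x + k := rfl

theorem sh_zero : sh 0 = 1 := by
  ext x
  simp

theorem sh_add (k l : ℤ) : sh (k + l) = sh k * sh l := by
  ext x
  simp only [sh_apply, Equiv.Perm.mul_apply]
  ring

theorem sh_neg (k : ℤ) : sh (-k) = (sh k)⁻¹ := by
  rw [eq_inv_iff_mul_eq_one, ← sh_add, neg_add_cancel, sh_zero]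

theorem sh_zpow (k : ℤ) : sh 1 ^ k = sh k := by
  induction k using Int.induction_on with
  | zero => rw [zpow_zero, sh_zero]
  | succ i ih => rw [zpow_add_one, ih, ← sh_add]
  | pred i ih => rw [zpow_sub_one, ih, ← sh_neg, ← sh_add, sub_eq_add_neg]

theorem fi_sh (k : ℤ) : Fi (sh k) k := by
  unfold Fi
  simp

/-- the group -/
def G0 : Subgroup PZ where
  carrier := {g | ∃ k, Fi g k}
  one_mem' := ⟨0, fi_one⟩
  mul_mem' := by
    rintro a b ⟨k, hk⟩ ⟨l, hl⟩
    exact ⟨k + l, fi_mul hk hl⟩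
  inv_mem' := by
    rintro a ⟨k, hk⟩
    exact ⟨-k, fi_inv hk⟩

/-- finitary permutations -/
def K0 : Subgroup PZ where
  carrier := {g | Fi g 0}
  one_mem' := fi_one
  mul_mem' := by
    intro a b ha hb
    have := fi_mul ha hb
    rwa [add_zero] at this
  inv_mem' := by
    intro a ha
    have := fi_inv ha
    rwa [neg_zero] at this

theorem K0_le : K0 ≤ G0 := fun _ hg => ⟨0, hg⟩

theorem swap_mem (i j : ℤ) : Equiv.swap i j ∈ K0 := by
  show {x : ℤ | Equiv.swap i j x ≠ x + 0}.Finite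
  refine (Set.toFinite ({i, j} : Set ℤ)).subset ?_
  intro x hx
  by_contra h
  simp only [Set.mem_insert_iff, Set.mem_singleton_iff, not_or] at h
  apply hx
  rw [Equiv.swap_apply_of_ne_of_ne h.1 h.2, add_zero]

/-! ### Generation -/

/-- the generated group -/
def C0 : Subgroup PZ := Subgroup.closure {sh 1, Equiv.swap 0 1}

theorem sh_mem (k : ℤ) : sh k ∈ C0 := by
  rw [← sh_zpow]
  exact C0.zpow_mem (Subgroup.subset_closure (by simp)) k

theorem swap_succ_mem (i : ℤ) : Equiv.swap i (i + 1) ∈ C0 := by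
  have h := Equiv.swap_apply_apply (sh i) 0 1
  rw [sh_apply, sh_apply, zero_add, add_comm] at h
  rw [h]
  exact C0.mul_mem (C0.mul_mem (sh_mem i) (Subgroup.subset_closure (by simp)))
    (C0.inv_mem (sh_mem i))

theorem swap_add_mem (i : ℤ) (n : ℕ) : Equiv.swap i (i + n + 1) ∈ C0 := by
  induction n with
  | zero => simpa using swap_succ_mem i
  | succ n ih =>
    have h1 : i ≠ i + n + 1 := by omega
    have h2 : i ≠ i + n + 1 + 1 := by omega
    have h := Equiv.swap_mul_swap_mul_swap h1 h2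
    have e : i + ((n + 1 : ℕ) : ℤ) + 1 = i + n + 1 + 1 := by push_cast; ring
    rw [e, Equiv.swap_comm, ← h]
    exact C0.mul_mem (C0.mul_mem (swap_succ_mem _) ih) (swap_succ_mem _)

theorem swap_mem' (i j : ℤ) : Equiv.swap i j ∈ C0 := by
  rcases lt_trichotomy i j with h | h | h
  · obtain ⟨n, hn⟩ := Int.eq_ofNat_of_zero_le (show 0 ≤ j - i - 1 by omega)
    have e : j = i + n + 1 := by omega
    rw [e]
    exact swap_add_mem i n
  · rw [h, Equiv.swap_self]
    exact C0.one_mem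
  · obtain ⟨n, hn⟩ := Int.eq_ofNat_of_zero_le (show 0 ≤ i - j - 1 by omega)
    have e : i = j + n + 1 := by omega
    rw [e, Equiv.swap_comm]
    exact swap_add_mem j n

theorem K0_le_C0 : K0 ≤ C0 := by
  intro g hg
  have h1 : g ∈ Subgroup.closure {σ : PZ | σ.IsSwap} := by
    rw [mem_closure_isSwap']
    have hg' : {x : ℤ | g x ≠ x + 0}.Finite := hg
    refine hg'.subset ?_
    intro x hx h
    apply hx
    rw [add_zero] at h
    exact h
  refine (Subgroup.closure_le C0).mpr ?_ h1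
  rintro σ ⟨x, y, -, rfl⟩
  exact swap_mem' x y

theorem C0_eq : C0 = G0 := by
  apply le_antisymm
  · refine (Subgroup.closure_le G0).mpr ?_
    intro g hg
    rcases hg with rfl | rfl
    · exact ⟨1, fi_sh 1⟩
    · exact K0_le (swap_mem 0 1)
  · rintro g ⟨k, hk⟩
    have h1 : g * sh (-k) ∈ C0 := by
      apply K0_le_C0
      have := fi_mul hk (fi_sh (-k))
      rwa [add_neg_cancel] at this
    have h2 : g = g * sh (-k) * sh k := by
      rw [mul_assoc, ← sh_add, neg_add_cancel, sh_zero, mul_one]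
    rw [h2]
    exact C0.mul_mem h1 (sh_mem k)

/-! ### Conjugacy classes -/

theorem icc_of (G : Type) [Group G] (ι : G →* PZ) (hι : Function.Injective ι)
    (hsw : ∀ b c : ℤ, ∃ h : G, ι h = Equiv.swap b c) : ICC G := by
  intro g hg
  have h1 : ι g ≠ 1 := by
    intro h
    exact hg (hι (by rw [h, map_one]))
  obtain ⟨a, ha⟩ : ∃ a, ι g a ≠ a := by
    by_contra h
    push Not at h
    exact h1 (Equiv.ext h)
  choose h hh using fun c : ℤ => hsw (ι g a) c
  have hval : ∀ c ∈ ({a, ι g a}ᶜ : Set ℤ), ι (h c * g * (h c)⁻¹) a = c := by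
    intro c hc
    simp only [Set.mem_compl_iff, Set.mem_insert_iff, Set.mem_singleton_iff, not_or] at hc
    rw [map_mul, map_mul, map_inv, hh, Equiv.Perm.mul_apply, Equiv.Perm.mul_apply,
      Equiv.swap_inv, Equiv.swap_apply_of_ne_of_ne ha.symm (Ne.symm hc.1), Equiv.swap_apply_left]
  refine Set.infinite_of_injOn_mapsTo (f := fun c : ℤ => h c * g * (h c)⁻¹)
    (s := ({a, ι g a}ᶜ : Set ℤ)) ?_ ?_ ?_
  · intro c hc c' hc' hcc
    have h2 := hval c hc
    have h3 := hval c' hc'
    have h4 : h c * g * (h c)⁻¹ = h c' * g * (h c')⁻¹ := hcc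
    rw [← h2, ← h3, h4]
  · intro c _
    exact ⟨h c, rfl⟩
  · exact (Set.toFinite _).infinite_compl

theorem infinite_of (G : Type) [Group G] (ι : G →* PZ)
    (hsw : ∀ b c : ℤ, ∃ h : G, ι h = Equiv.swap b c) : Infinite G := by
  choose h hh using fun c : ℤ => hsw 0 c
  apply Infinite.of_injective h
  intro c c' hcc
  have h1 : ι (h c) 0 = ι (h c') 0 := by rw [hcc]
  rw [hh, hh, Equiv.swap_apply_left, Equiv.swap_apply_left] at h1
  exact h1

/-! ### The cycles -/

/-- the cycle on `[-n, n]` -/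
def cyc (n : ℕ) : PZ where
  toFun x := if -(n : ℤ) ≤ x ∧ x < n then x + 1 else if x = n then -n else x
  invFun y := if -(n : ℤ) < y ∧ y ≤ n then y - 1 else if y = -n then n else y
  left_inv x := by
    dsimp only
    split_ifs <;> omega
  right_inv y := by
    dsimp only
    split_ifs <;> omega

theorem cyc_apply {n : ℕ} {x : ℤ} (h1 : -(n : ℤ) ≤ x) (h2 : x < n) : cyc n x = x + 1 := by
  show (if -(n : ℤ) ≤ x ∧ x < n then x + 1 else if x = n then -n else x) = x + 1
  rw [if_pos ⟨h1, h2⟩]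

theorem cyc_mem (n : ℕ) : cyc n ∈ K0 := by
  show {x : ℤ | cyc n x ≠ x + 0}.Finite
  refine (Set.finite_Icc (-(n : ℤ)) n).subset ?_
  intro x hx
  by_contra h
  apply hx
  rw [Set.mem_Icc, not_and_or, not_le, not_le] at h
  show (if -(n : ℤ) ≤ x ∧ x < n then x + 1 else if x = n then -n else x) = x + 0
  split_ifs <;> omega

theorem cyc_pow {n : ℕ} {x : ℤ} (j : ℕ) (h1 : -(n : ℤ) ≤ x) (h2 : x + j ≤ n) :
    (cyc n ^ j) x = x + j := by
  induction j with
  | zero => simp
  | succ j ih =>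
    push_cast at h2
    rw [pow_succ', Equiv.Perm.mul_apply, ih (by omega), cyc_apply (by omega) (by omega)]
    push_cast
    ring

theorem cyc_zpow {n : ℕ} {x : ℤ} (k : ℤ) (h1 : -(n : ℤ) ≤ x) (h2 : x ≤ n)
    (h3 : -(n : ℤ) ≤ x + k) (h4 : x + k ≤ n) : (cyc n ^ k) x = x + k := by
  rcases Int.le_total 0 k with h | h
  · obtain ⟨j, rfl⟩ := Int.eq_ofNat_of_zero_le h
    rw [zpow_natCast]
    exact cyc_pow j h1 h4
  · obtain ⟨j, hj⟩ := Int.eq_ofNat_of_zero_le (show 0 ≤ -k by omega)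
    have hk : k = -(j : ℤ) := by omega
    rw [hk, zpow_neg, zpow_natCast, Equiv.Perm.inv_eq_iff_eq]
    rw [cyc_pow j (by omega) (by omega)]
    ring

/-! ### The maps -/

/-- the translation number -/
noncomputable def kk (g : G0) : ℤ := Classical.choose g.2

theorem fi_kk (g : G0) : Fi g (kk g) := Classical.choose_spec g.2

theorem kk_eq {g : G0} {k : ℤ} (h : Fi g k) : kk g = k := fi_unique (fi_kk g) h

theorem kk_mul (g h : G0) : kk (g * h) = kk g + kk h := kk_eq (fi_mul (fi_kk g) (fi_kk h))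

theorem th_mem (n : ℕ) (g : G0) : (g : PZ) * sh (-kk g) * cyc n ^ kk g ∈ K0 := by
  apply K0.mul_mem
  · have := fi_mul (fi_kk g) (fi_sh (-kk g))
    rwa [add_neg_cancel] at this
  · exact K0.zpow_mem (cyc_mem n) _

/-- the maps -/
noncomputable def th (n : ℕ) (g : G0) : G0 :=
  ⟨(g : PZ) * sh (-kk g) * cyc n ^ kk g, K0_le (th_mem n g)⟩

theorem th_coe (n : ℕ) (g : G0) : (th n g : PZ) = (g : PZ) * sh (-kk g) * cyc n ^ kk g := rfl

/-- permutations which fix all points outside `[-n, n]` -/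
def Kn0 (n : ℕ) : Subgroup PZ where
  carrier := {g | ∀ x : ℤ, (x < -n ∨ n < x) → g x = x}
  one_mem' := fun x _ => rfl
  mul_mem' := by
    intro a b ha hb x hx
    rw [Equiv.Perm.mul_apply, hb x hx, ha x hx]
  inv_mem' := by
    intro a ha x hx
    rw [Equiv.Perm.inv_eq_iff_eq]
    exact (ha x hx).symm

theorem Kn0_mono : Monotone Kn0 := by
  intro n m hnm g hg x hx
  have : (n : ℤ) ≤ m := by exact_mod_cast hnm
  exact hg x (by omega)

theorem Kn0_maps {n : ℕ} {g : PZ} (hg : g ∈ Kn0 n) (x : Set.Icc (-(n : ℤ)) n) :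
    g x ∈ Set.Icc (-(n : ℤ)) n := by
  by_contra h
  rw [Set.mem_Icc, not_and_or, not_le, not_le] at h
  have h1 : g (g x) = g x := hg _ h
  have h2 := g.injective h1
  rw [h2] at h
  have := x.2
  rw [Set.mem_Icc] at this
  omega

theorem Kn0_finite (n : ℕ) : Finite (Kn0 n) := by
  haveI : Finite (Set.Icc (-(n : ℤ)) n) := (Set.finite_Icc _ _).to_subtype
  refine Finite.of_injective (β := Set.Icc (-(n : ℤ)) n → Set.Icc (-(n : ℤ)) n)
    (fun g x => ⟨(g : PZ) x, Kn0_maps g.2 x⟩) ?_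
  intro g h hgh
  apply Subtype.ext
  apply Equiv.ext
  intro x
  by_cases hx : x ∈ Set.Icc (-(n : ℤ)) n
  · have h1 := congrFun hgh ⟨x, hx⟩
    exact congrArg Subtype.val h1
  · rw [Set.mem_Icc, not_and_or, not_le, not_le] at hx
    rw [g.2 x hx, h.2 x hx]

theorem mem_K0_iff (g : PZ) : g ∈ K0 ↔ ∃ n, g ∈ Kn0 n := by
  constructor
  · intro hg
    have hg' : {x : ℤ | g x ≠ x + 0}.Finite := hg
    obtain ⟨A, hA⟩ := hg'.bddAbove
    obtain ⟨B, hB⟩ := hg'.bddBelow
    refine ⟨(max A (-B)).toNat, ?_⟩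
    intro x hx
    by_contra h
    have hm : x ∈ {x : ℤ | g x ≠ x + 0} := by
      show g x ≠ x + 0
      rwa [add_zero]
    have h1 := hA hm
    have h2 := hB hm
    have h3 := Int.self_le_toNat (max A (-B))
    have h4 := le_max_left A (-B)
    have h5 := le_max_right A (-B)
    omega
  · rintro ⟨n, hn⟩
    show {x : ℤ | g x ≠ x + 0}.Finite
    refine (Set.finite_Icc (-(n : ℤ)) n).subset ?_
    intro x hx
    by_contra h
    apply hx
    rw [Set.mem_Icc, not_and_or, not_le, not_le] at h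
    rw [add_zero]
    exact hn x h

/-- eventually `sh (-k) * cyc n ^ k` commutes with a given finitary permutation -/
theorem eventually_comm {τ : PZ} (hτ : τ ∈ K0) (k : ℤ) :
    ∀ᶠ n : ℕ in atTop, τ * (sh (-k) * cyc n ^ k) = (sh (-k) * cyc n ^ k) * τ := by
  obtain ⟨B, hB⟩ := (mem_K0_iff τ).mp hτ
  filter_upwards [eventually_ge_atTop (B + k.natAbs)] with n hn
  apply Equiv.Perm.Disjoint.commute
  intro z
  by_cases hz : z < -B ∨ (B : ℤ) < z
  · left
    exact hB z hz
  · right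
    have hn' : (B : ℤ) + k.natAbs ≤ n := by exact_mod_cast hn
    rw [Equiv.Perm.mul_apply, cyc_zpow k (by omega) (by omega) (by omega) (by omega), sh_apply]
    ring

theorem th_mul (x y : G0) : ∀ᶠ n : ℕ in atTop, th n (x * y) = th n x * th n y := by
  have hτ : (y : PZ) * sh (-kk y) ∈ K0 := by
    have := fi_mul (fi_kk y) (fi_sh (-kk y))
    rwa [add_neg_cancel] at this
  filter_upwards [eventually_comm hτ (kk x)] with n hn
  apply Subtype.ext
  rw [th_coe, Subgroup.coe_mul, Subgroup.coe_mul, th_coe, th_coe, kk_mul]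
  calc (x : PZ) * y * sh (-(kk x + kk y)) * cyc n ^ (kk x + kk y)
      = (x : PZ) * ((y : PZ) * sh (-kk y) * (sh (-kk x) * cyc n ^ kk x)) * cyc n ^ kk y := by
        have e : -(kk x + kk y) = -kk y + -kk x := by ring
        rw [e, sh_add, zpow_add]
        group
    _ = (x : PZ) * (sh (-kk x) * cyc n ^ kk x * ((y : PZ) * sh (-kk y))) * cyc n ^ kk y := by
        rw [hn]
    _ = _ := by group

theorem th_eq {x : G0} (hx : kk x = 0) (n : ℕ) : th n x = x := by
  apply Subtype.ext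
  rw [th_coe, hx, neg_zero, sh_zero, zpow_zero, mul_one, mul_one]

theorem th_ne (x : G0) (hx : x ≠ 1) : ∀ᶠ n : ℕ in atTop, th n x ≠ 1 := by
  by_cases hk : kk x = 0
  · refine Eventually.of_forall fun n => ?_
    rw [th_eq hk]
    exact hx
  · obtain ⟨m, hm⟩ : ∃ m : ℤ, (x : PZ) m = m + kk x := by
      obtain ⟨m, hm⟩ := (Set.Finite.infinite_compl (fi_kk x)).nonempty
      exact ⟨m, not_not.mp hm⟩
    filter_upwards [eventually_ge_atTop (m.natAbs + (kk x).natAbs)] with n hn
    have hn' : (m.natAbs : ℤ) + (kk x).natAbs ≤ n := by exact_mod_cast hn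
    intro h
    have h1 : (th n x : PZ) m = m := by
      rw [h]
      rfl
    rw [th_coe, Equiv.Perm.mul_apply, Equiv.Perm.mul_apply,
      cyc_zpow (kk x) (by omega) (by omega) (by omega) (by omega), sh_apply,
      add_neg_cancel_right, hm] at h1
    exact hk (by linarith)

theorem main : S_GAM := by
  refine ⟨G0, inferInstance, ⟨sh 1, 1, fi_sh 1⟩, ⟨Equiv.swap 0 1, K0_le (swap_mem 0 1)⟩,
    K0.subgroupOf G0, fun n => (Kn0 n).subgroupOf G0, th, ?_, ?_, ?_, ?_, ?_⟩
  · apply Subgroup.map_injective G0.subtype_injective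
    rw [MonoidHom.map_closure]
    have h1 : (G0.subtype '' {⟨sh 1, 1, fi_sh 1⟩, ⟨Equiv.swap 0 1, K0_le (swap_mem 0 1)⟩} :
        Set PZ) = {sh 1, Equiv.swap 0 1} := by
      rw [Set.image_pair]
      rfl
    rw [h1]
    show C0 = _
    rw [C0_eq, ← MonoidHom.range_eq_map, Subgroup.range_subtype]
  · exact icc_of G0 G0.subtype G0.subtype_injective
      (fun b c => ⟨⟨Equiv.swap b c, K0_le (swap_mem b c)⟩, rfl⟩)
  · exact icc_of (K0.subgroupOf G0) (G0.subtype.comp (K0.subgroupOf G0).subtype)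
      (G0.subtype_injective.comp (K0.subgroupOf G0).subtype_injective)
      (fun b c => ⟨⟨⟨Equiv.swap b c, K0_le (swap_mem b c)⟩, swap_mem b c⟩, rfl⟩)
  · exact infinite_of (K0.subgroupOf G0) (G0.subtype.comp (K0.subgroupOf G0).subtype)
      (fun b c => ⟨⟨⟨Equiv.swap b c, K0_le (swap_mem b c)⟩, swap_mem b c⟩, rfl⟩)
  · refine ⟨?_, ?_, ?_, ?_, th_mul, th_ne, ?_⟩
    · intro n m hnm g hg
      exact Kn0_mono hnm hg
    · intro n
      haveI := Kn0_finite n
      refine Finite.of_injective (β := Kn0 n) (fun g => ⟨g.1.1, g.2⟩) ?_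
      intro g h hgh
      apply Subtype.ext
      apply Subtype.ext
      have h1 : (⟨g.1.1, g.2⟩ : Kn0 n) = ⟨h.1.1, h.2⟩ := hgh
      exact congrArg (fun u : Kn0 n => (u : PZ)) h1
    · intro x
      exact mem_K0_iff x.1
    · intro n x
      exact th_mem n x
    · intro x hx
      refine Eventually.of_forall fun n => ?_
      exact th_eq (kk_eq hx) n

end GAM

/-- GAM -/
theorem t_gam : S_GAM := GAM.main

end Pool.Agent.N571.EX
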