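import Pool.Agent.N571.EX.Stm

/-!
# Project EX, ICC: the group E_3(F[Γ]) has infinite conjugacy classes (helper547)
-/

set_option autoImplicit false

namespace Pool.Agent.N571.EX

open Pool.Agent.N44.NS (el E3)

namespace ICCaux

section ring

variable {A : Type} [Ring A]

theorem finrange_of_index (D : AddSubgroup A) (hD : D.index ≠ 0) (φ : A →+ A)
    (h : ∀ a ∈ D, φ a = 0) : (Set.range φ).Finite := by
  have h1 : D ≤ φ.ker := fun a ha => h a ha
  have h2 : φ.ker.index ≠ 0 := ne_zero_of_dvd_ne_zero hD (AddSubgroup.index_dvd_of_le h1)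
  rw [AddSubgroup.index_ker] at h2
  have h3 : Finite φ.range := Nat.finite_of_card_ne_zero h2
  have h4 : ((φ.range : AddSubgroup A) : Set A).Finite := h3
  rwa [AddMonoidHom.coe_range] at h4

theorem comap_index (D : AddSubgroup A) (hD : D.index ≠ 0) (φ : A →+ A) :
    (D.comap φ).index ≠ 0 := by
  rw [AddSubgroup.index_comap]
  have : D.FiniteIndex := ⟨hD⟩
  have h2 : (D.addSubgroupOf φ.range).FiniteIndex := inferInstance
  exact h2.index_ne_zero

theorem el_mul {i j : Fin 3} (h : i ≠ j) (a b : A) : el i j h a * el i j h b = el i j h (a + b) := by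
  apply Units.ext
  show (1 + Matrix.single i j a) * (1 + Matrix.single i j b) = 1 + Matrix.single i j (a + b)
  rw [add_mul, mul_add, mul_add, Pool.Agent.N44.NS.single_sq h a b, Matrix.single_add]
  simp only [one_mul, mul_one, add_zero]
  abel

theorem el_zero {i j : Fin 3} (h : i ≠ j) : el i j h (0 : A) = 1 := by
  apply Units.ext
  show 1 + Matrix.single i j (0 : A) = 1
  simp

theorem el_inv {i j : Fin 3} (h : i ≠ j) (a : A) : (el i j h a)⁻¹ = el i j h (-a) := by
  rw [inv_eq_iff_mul_eq_one, el_mul, add_neg_cancel, el_zero]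

/-- the `a` such that `1 + a E_ij` commutes with `g` -/
def DD (i j : Fin 3) (h : i ≠ j) (g : (Matrix (Fin 3) (Fin 3) A)ˣ) : AddSubgroup A where
  carrier := {a | el i j h a * g = g * el i j h a}
  zero_mem' := by
    show el i j h 0 * g = g * el i j h 0
    rw [el_zero, one_mul, mul_one]
  add_mem' := by
    intro a b ha hb
    show el i j h (a + b) * g = g * el i j h (a + b)
    have ha' : el i j h a * g = g * el i j h a := ha
    have hb' : el i j h b * g = g * el i j h b := hb
    rw [← el_mul, mul_assoc, hb', ← mul_assoc, ha', mul_assoc]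
  neg_mem' := by
    intro a ha
    show el i j h (-a) * g = g * el i j h (-a)
    have ha' : el i j h a * g = g * el i j h a := ha
    rw [← el_inv, inv_mul_eq_iff_eq_mul, ← mul_assoc, ha', mul_assoc, mul_inv_cancel, mul_one]

theorem conj_iff {G : Type} [Group G] (x y g : G) :
    (x⁻¹ * y) * g = g * (x⁻¹ * y) ↔ x * g * x⁻¹ = y * g * y⁻¹ := by
  constructor
  · intro h
    have h1 : y * g = x * (g * (x⁻¹ * y)) := by
      rw [← h]
      group
    rw [h1]
    group
  · intro h
    calc (x⁻¹ * y) * g = x⁻¹ * (y * g * y⁻¹) * y := by group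
      _ = x⁻¹ * (x * g * x⁻¹) * y := by rw [h]
      _ = g * (x⁻¹ * y) := by group

theorem DD_index (i j : Fin 3) (h : i ≠ j) (g : (Matrix (Fin 3) (Fin 3) A)ˣ)
    (hf : (Set.range fun a : A => el i j h a * g * (el i j h a)⁻¹).Finite) :
    (DD i j h g).index ≠ 0 := by
  rw [AddSubgroup.index_ne_zero_iff_finite]
  have hfin : Finite (Set.range fun a : A => el i j h a * g * (el i j h a)⁻¹) := hf
  have key : ∀ a b : A, -a + b ∈ DD i j h g ↔
      el i j h a * g * (el i j h a)⁻¹ = el i j h b * g * (el i j h b)⁻¹ := by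
    intro a b
    show el i j h (-a + b) * g = g * el i j h (-a + b) ↔ _
    rw [← el_mul, ← el_inv]
    exact conj_iff _ _ _
  let q : A ⧸ (DD i j h g) → Set.range fun a : A => el i j h a * g * (el i j h a)⁻¹ :=
    Quotient.lift (s := QuotientAddGroup.leftRel (DD i j h g))
      (fun a => ⟨_, a, rfl⟩) (by
        intro a b hab
        have h1 : -a + b ∈ DD i j h g := QuotientAddGroup.leftRel_apply.mp hab
        exact Subtype.ext ((key a b).mp h1))
  refine Finite.of_injective q ?_
  intro x y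
  induction x using QuotientAddGroup.induction_on with | _ a
  induction y using QuotientAddGroup.induction_on with | _ b
  intro hab
  exact QuotientAddGroup.eq.mpr ((key a b).mpr (Subtype.ext_iff.mp hab))

/-- entries of a matrix commuting with many elementary matrices -/
theorem DD_entry {i j : Fin 3} {h : i ≠ j} {g : (Matrix (Fin 3) (Fin 3) A)ˣ} {a : A}
    (ha : a ∈ DD i j h g) :
    Matrix.single i j a * (g : Matrix (Fin 3) (Fin 3) A) = g.1 * Matrix.single i j a := by
  have h1 : el i j h a * g = g * el i j h a := ha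
  have h2 : (1 + Matrix.single i j a) * g.1 = g.1 * (1 + Matrix.single i j a) :=
    congrArg Units.val h1
  rw [add_mul, mul_add, one_mul, mul_one] at h2
  exact add_left_cancel h2

theorem entry_zero {i j k : Fin 3} {h : i ≠ j} {g : (Matrix (Fin 3) (Fin 3) A)ˣ} {a : A}
    (ha : a ∈ DD i j h g) (hk : k ≠ i) : g.1 k i * a = 0 := by
  have h1 := congrFun (congrFun (DD_entry ha) k) j
  rw [Matrix.single_mul_apply_of_ne _ _ _ _ _ hk, Matrix.mul_single_apply_same] at h1
  exact h1.symm

theorem entry_eq {i j : Fin 3} {h : i ≠ j} {g : (Matrix (Fin 3) (Fin 3) A)ˣ} {a : A}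
    (ha : a ∈ DD i j h g) : a * g.1 j j = g.1 i i * a := by
  have h1 := congrFun (congrFun (DD_entry ha) i) j
  rw [Matrix.single_mul_apply_same, Matrix.mul_single_apply_same] at h1
  exact h1

/-- An element of the general linear group with finitely many conjugates under the elementary
matrices is scalar, with a central scalar. -/
theorem scalar_of_fin (hL : ∀ c : A, c ≠ 0 → (Set.range fun a => c * a).Infinite)
    (hR : ∀ c : A, c ≠ 0 → (Set.range fun a => a * c).Infinite)
    (g : (Matrix (Fin 3) (Fin 3) A)ˣ)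
    (hf : ∀ (i j : Fin 3) (h : i ≠ j),
      (Set.range fun a : A => el i j h a * g * (el i j h a)⁻¹).Finite) :
    ∃ u : A, (∀ x, u * x = x * u) ∧ ∀ i j, g.1 i j = if i = j then u else 0 := by
  have l1 : ∀ (D : AddSubgroup A), D.index ≠ 0 → ∀ c : A, (∀ a ∈ D, c * a = 0) → c = 0 := by
    intro D hD c hc
    by_contra hne
    exact hL c hne (finrange_of_index D hD (AddMonoidHom.mulLeft c) hc)
  have l2 : ∀ (D : AddSubgroup A), D.index ≠ 0 → ∀ c : A, (∀ a ∈ D, a * c = 0) → c = 0 := by
    intro D hD c hc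
    by_contra hne
    exact hR c hne (finrange_of_index D hD (AddMonoidHom.mulRight c) hc)
  have ho : ∀ k i : Fin 3, k ≠ i → g.1 k i = 0 := by
    intro k i hk
    exact l1 _ (DD_index i k hk.symm g (hf i k hk.symm)) _ (fun a ha => entry_zero ha hk)
  have hc : ∀ (i j : Fin 3), i ≠ j → ∀ x, g.1 j j * x = x * g.1 j j := by
    intro i j h x
    rw [← sub_eq_zero]
    have hD := DD_index i j h g (hf i j h)
    refine l2 (DD i j h g ⊓ (DD i j h g).comap (AddMonoidHom.mulRight x))
      (AddSubgroup.index_inf_ne_zero hD (comap_index _ hD _)) _ ?_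
    intro a ha
    have ha1 := ha.1
    have ha2 : a * x ∈ DD i j h g := ha.2
    have e1 := entry_eq ha1
    have e2 := entry_eq ha2
    rw [mul_sub, ← mul_assoc, ← mul_assoc, e1, mul_assoc, ← e2, sub_self]
  have he : ∀ (i j : Fin 3), i ≠ j → g.1 i i = g.1 j j := by
    intro i j h
    rw [← sub_eq_zero]
    refine l1 _ (DD_index i j h g (hf i j h)) _ ?_
    intro a ha
    rw [sub_mul, ← entry_eq ha, hc i j h a, sub_self]
  refine ⟨g.1 0 0, hc 1 0 (by decide), fun i j => ?_⟩
  split_ifs with h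
  · subst h
    by_cases h0 : i = 0
    · rw [h0]
    · exact he i 0 h0
  · exact ho i j h

end ring

theorem fin_E3 {A : Type} [Ring A] (g : E3 A) (hfin : {x : E3 A | ∃ h : E3 A, x = h * g * h⁻¹}.Finite)
    (i j : Fin 3) (h : i ≠ j) :
    (Set.range fun a : A => el i j h a * g.1 * (el i j h a)⁻¹).Finite := by
  refine (hfin.image Subtype.val).subset ?_
  rintro _ ⟨a, rfl⟩
  let e : E3 A := ⟨el i j h a, Subgroup.subset_closure ⟨i, j, h, a, rfl⟩⟩
  refine ⟨e * g * e⁻¹, ⟨e, rfl⟩, ?_⟩
  rw [Subgroup.coe_mul, Subgroup.coe_mul, Subgroup.coe_inv]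

theorem eq_one_E3 {A : Type} [Ring A] (g : E3 A)
    (h : ∀ i j, g.1.1 i j = if i = j then (1 : A) else 0) : g = 1 := by
  apply Subtype.ext
  apply Units.ext
  ext1 i j
  rw [h]
  show _ = (1 : Matrix (Fin 3) (Fin 3) A) i j
  rw [Matrix.one_apply]

section det

variable {A F : Type} [Ring A] [Field F] (φ : A →+* F)

/-- the determinant of the image in a field -/
def da : (Matrix (Fin 3) (Fin 3) A)ˣ →* F :=
  (Matrix.detMonoidHom (n := Fin 3) (R := F)).comp
    (((RingHom.mapMatrix (m := Fin 3) φ).toMonoidHom).comp (Units.coeHom _))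

theorem da_apply (g : (Matrix (Fin 3) (Fin 3) A)ˣ) :
    da φ g = Matrix.det (g.1.map φ) := rfl

theorem da_el (i j : Fin 3) (h : i ≠ j) (a : A) : da φ (el i j h a) = 1 := by
  rw [da_apply]
  have h1 : (el i j h a).1.map φ = Matrix.transvection i j (φ a) := by
    show (1 + Matrix.single i j a).map φ = 1 + Matrix.single i j (φ a)
    rw [Matrix.map_add _ (map_add _), Matrix.map_one _ (map_zero _) (map_one _),
      Matrix.map_single]
  rw [h1, Matrix.det_transvection_of_ne _ _ h]

theorem da_mem (g : (Matrix (Fin 3) (Fin 3) A)ˣ)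
    (hg : g ∈ E3 A) : da φ g = 1 := by
  have h1 : E3 A ≤ (da φ).ker := by
    refine (Subgroup.closure_le _).mpr ?_
    rintro _ ⟨i, j, h, a, rfl⟩
    exact da_el φ i j h a
  exact h1 hg

theorem scalar_one (hF : ∀ c : F, c ^ 3 = 1 → c = 1) (g : (Matrix (Fin 3) (Fin 3) A)ˣ)
    (hg : g ∈ E3 A) (u : A) (hu2 : ∀ i j, g.1 i j = if i = j then u else 0) : φ u = 1 := by
  have h1 := da_mem φ g hg
  rw [da_apply] at h1
  have h2 : g.1.map φ = φ u • (1 : Matrix (Fin 3) (Fin 3) F) := by
    ext i j
    rw [Matrix.map_apply, hu2, Matrix.smul_apply, Matrix.one_apply]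
    split_ifs
    · rw [smul_eq_mul, mul_one]
    · rw [map_zero, smul_zero]
  rw [h2, Matrix.det_smul, Matrix.det_one, mul_one, Fintype.card_fin] at h1
  exact hF _ h1

end det

section gp

variable {F : Type} [Field F] {Γ : Type} [Group Γ]

theorem inf_left [Infinite Γ] (c : MonoidAlgebra F Γ) (hc : c ≠ 0) :
    (Set.range fun a => c * a).Infinite := by
  classical
  intro hfin
  have h0 : c.coeff ≠ 0 := fun h => hc (MonoidAlgebra.coeff_eq_zero.mp h)
  obtain ⟨g0, hg0⟩ := Finsupp.support_nonempty_iff.mpr h0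
  rw [Finsupp.mem_support_iff] at hg0
  have h1 : (⋃ v ∈ Set.range fun a => c * a,
      ((v : MonoidAlgebra F Γ).coeff.support : Set Γ)).Finite :=
    hfin.biUnion fun v _ => v.coeff.support.finite_toSet
  have h2 : Function.Injective fun x : Γ => g0 * x := mul_right_injective g0
  refine (Set.infinite_range_of_injective h2) (h1.subset ?_)
  rintro _ ⟨x, rfl⟩
  rw [Set.mem_iUnion₂]
  refine ⟨c * MonoidAlgebra.single x 1, ⟨_, rfl⟩, ?_⟩
  rw [Finset.mem_coe, Finsupp.mem_support_iff, MonoidAlgebra.coeff_mul_single_apply]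
  simpa using hg0

theorem inf_right [Infinite Γ] (c : MonoidAlgebra F Γ) (hc : c ≠ 0) :
    (Set.range fun a => a * c).Infinite := by
  classical
  intro hfin
  have h0 : c.coeff ≠ 0 := fun h => hc (MonoidAlgebra.coeff_eq_zero.mp h)
  obtain ⟨g0, hg0⟩ := Finsupp.support_nonempty_iff.mpr h0
  rw [Finsupp.mem_support_iff] at hg0
  have h1 : (⋃ v ∈ Set.range fun a => a * c,
      ((v : MonoidAlgebra F Γ).coeff.support : Set Γ)).Finite :=
    hfin.biUnion fun v _ => v.coeff.support.finite_toSet
  have h2 : Function.Injective fun x : Γ => x * g0 := mul_left_injective g0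
  refine (Set.infinite_range_of_injective h2) (h1.subset ?_)
  rintro _ ⟨x, rfl⟩
  rw [Set.mem_iUnion₂]
  refine ⟨MonoidAlgebra.single x 1 * c, ⟨_, rfl⟩, ?_⟩
  rw [Finset.mem_coe, Finsupp.mem_support_iff, MonoidAlgebra.coeff_single_mul_apply]
  simpa using hg0

/-- the centre of the group algebra of a group with infinite conjugacy classes -/
theorem center (hi : ICC Γ) (u : MonoidAlgebra F Γ) (hu : ∀ x, u * x = x * u) :
    ∃ c : F, u = MonoidAlgebra.single 1 c := by
  classical
  refine ⟨u.coeff 1, ?_⟩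
  apply MonoidAlgebra.coeff_injective
  ext g
  rw [MonoidAlgebra.coeff_single]
  by_cases hg : g = 1
  · subst hg
    simp
  rw [Finsupp.single_apply, if_neg (Ne.symm hg)]
  by_contra hne
  refine hi g hg (u.coeff.support.finite_toSet.subset ?_)
  rintro _ ⟨h, rfl⟩
  have h1 := hu (MonoidAlgebra.single h 1)
  have h2 := congrArg (fun v : MonoidAlgebra F Γ => v.coeff (h * g)) h1
  simp only [MonoidAlgebra.coeff_mul_single_apply, MonoidAlgebra.coeff_single_mul_apply] at h2
  rw [Finset.mem_coe, Finsupp.mem_support_iff]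
  rw [mul_one, one_mul, inv_mul_cancel_left] at h2
  rw [h2]
  exact hne

/-- the augmentation -/
theorem exists_aug : ∃ φ : MonoidAlgebra F Γ →+* F,
    ∀ c, φ (MonoidAlgebra.single (1 : Γ) c) = c := by
  refine ⟨(MonoidAlgebra.lift F F Γ (1 : Γ →* F)).toRingHom, fun c => ?_⟩
  show (MonoidAlgebra.lift F F Γ (1 : Γ →* F)) (MonoidAlgebra.single (1 : Γ) c) = c
  rw [MonoidAlgebra.lift_single]
  simp

end gp

end ICCaux

open ICCaux in
/-- **ICC.** -/
theorem t_icc : S_ICC := by
  intro F _ Γ _ _ hF hΓ g hg hfin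
  apply hg
  have hf : ∀ (i j : Fin 3) (h : i ≠ j),
      (Set.range fun a : MonoidAlgebra F Γ => el i j h a * g.1 * (el i j h a)⁻¹).Finite := by
    exact fun i j h => fin_E3 g hfin i j h
  obtain ⟨u, hu1, hu2⟩ := scalar_of_fin inf_left inf_right g.1 hf
  obtain ⟨c, rfl⟩ := center hΓ u hu1
  obtain ⟨φ, hφ⟩ := exists_aug (F := F) (Γ := Γ)
  have h3 := scalar_one φ hF g.1 g.2 _ hu2
  rw [hφ] at h3
  subst h3
  exact eq_one_E3 g hu2

end Pool.Agent.N571.EX
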