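import Pool.Agent.N571.EX.Stm

/-!
# Project EX, part KPF (helper901): Kazhdan pairs, the field, property (T) of `E_3(F[Γ])`
-/

set_option autoImplicit false

namespace Pool.Agent.N571.EX

open Filter Topology
open scoped InnerProductSpace ComplexOrder
open Pool.Agent.N44.NS (el E3)
open Pool.Agent.N708.MX (PT)

noncomputable section

namespace KPF

theorem norm_uni {H : Type} [NormedAddCommGroup H] [InnerProductSpace ℂ H] [CompleteSpace H]
    (u : unitary (H →L[ℂ] H)) (v : H) : ‖(u : H →L[ℂ] H) v‖ = ‖v‖ :=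
  ContinuousLinearMap.norm_map_of_mem_unitary u.2 v

section Sum

variable {I : Type} {E : I → Type} [∀ i, NormedAddCommGroup (E i)]
  [∀ i, InnerProductSpace ℂ (E i)] [∀ i, CompleteSpace (E i)]

theorem two_pos' : 0 < (2 : ENNReal).toReal := by norm_num

theorem mem_uni (u : ∀ i, unitary (E i →L[ℂ] E i)) (f : lp E 2) :
    Memℓp (fun i => (u i : E i →L[ℂ] E i) (f i)) 2 := by
  refine memℓp_gen ?_
  have := (lp.memℓp f).summable two_pos'
  refine this.congr fun i => ?_
  rw [norm_uni]

/-- the direct sum of unitary operators -/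
def Ti (u : ∀ i, unitary (E i →L[ℂ] E i)) : lp E 2 →ₗᵢ[ℂ] lp E 2 where
  toFun f := ⟨fun i => (u i : E i →L[ℂ] E i) (f i), mem_uni u f⟩
  map_add' f g := by
    ext i
    change (u i : E i →L[ℂ] E i) ((f + g) i) =
      (u i : E i →L[ℂ] E i) (f i) + (u i : E i →L[ℂ] E i) (g i)
    rw [lp.coeFn_add, Pi.add_apply, map_add]
  map_smul' c f := by
    ext i
    simp [lp.coeFn_smul]
  norm_map' f := by
    rw [lp.norm_eq_tsum_rpow two_pos', lp.norm_eq_tsum_rpow two_pos']
    congr 1
    refine tsum_congr fun i => ?_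
    show ‖(u i : E i →L[ℂ] E i) (f i)‖ ^ _ = _
    rw [norm_uni]

/-- the direct sum of unitary operators -/
def T (u : ∀ i, unitary (E i →L[ℂ] E i)) : lp E 2 →L[ℂ] lp E 2 := (Ti u).toContinuousLinearMap

theorem T_apply (u : ∀ i, unitary (E i →L[ℂ] E i)) (f : lp E 2) (i : I) :
    (T u f) i = (u i : E i →L[ℂ] E i) (f i) := rfl

theorem T_one : T (fun i => (1 : unitary (E i →L[ℂ] E i))) = 1 := by
  ext f i
  rfl

theorem T_mul (u v : ∀ i, unitary (E i →L[ℂ] E i)) :
    T (fun i => u i * v i) = T u * T v := by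
  ext f i
  rfl

theorem T_star (u : ∀ i, unitary (E i →L[ℂ] E i)) :
    star (T u) = T (fun i => star (u i)) := by
  rw [ContinuousLinearMap.star_eq_adjoint]
  symm
  rw [ContinuousLinearMap.eq_adjoint_iff]
  intro x y
  rw [lp.inner_eq_tsum, lp.inner_eq_tsum]
  refine tsum_congr fun i => ?_
  rw [T_apply, T_apply]
  show inner ℂ ((star (u i : E i →L[ℂ] E i)) (x i)) (y i) = _
  rw [ContinuousLinearMap.star_eq_adjoint, ContinuousLinearMap.adjoint_inner_left]

/-- the direct sum of unitary operators, as a unitary operator -/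
def TU (u : ∀ i, unitary (E i →L[ℂ] E i)) : unitary (lp E 2 →L[ℂ] lp E 2) :=
  ⟨T u, by
    rw [Unitary.mem_iff, T_star, ← T_mul, ← T_mul]
    constructor
    · simp only [Unitary.star_mul_self]
      exact T_one
    · simp only [Unitary.mul_star_self]
      exact T_one⟩

end Sum

/-- a representation without invariant vectors and an almost invariant vector -/
structure Bad (G : Type) [Group G] (S : Finset G) (c : ℝ) where
  H : Type
  i1 : NormedAddCommGroup H
  i2 : InnerProductSpace ℂ H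
  i3 : CompleteSpace H
  π : G →* unitary (H →L[ℂ] H)
  noinv : ∀ v : H, (∀ g : G, (π g : H →L[ℂ] H) v = v) → v = 0
  ξ : H
  nrm : ‖ξ‖ = 1
  small : ∀ g ∈ S, ‖(π g : H →L[ℂ] H) ξ - ξ‖ < c

attribute [instance] Bad.i1 Bad.i2 Bad.i3

end KPF

open KPF in
theorem t_kp : S_KP := by
  classical
  intro G _ hT
  by_contra hcon
  have hne : ∀ i : Finset G × ℕ, Nonempty (Bad G i.1 (1 / ((i.2 : ℝ) + 1))) := by
    intro i
    by_contra hno
    apply hcon
    refine ⟨i.1, 1 / ((i.2 : ℝ) + 1), by positivity, ?_⟩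
    intro H i1 i2 i3 π v hv hS
    by_contra hw
    apply hno
    refine ⟨⟨H, i1, i2, i3, π, fun w h => ?_, v, hv, hS⟩⟩
    by_contra h0
    exact hw ⟨w, h0, h⟩
  obtain ⟨B, -⟩ : ∃ _ : ∀ i : Finset G × ℕ, Bad G i.1 (1 / ((i.2 : ℝ) + 1)), True :=
    ⟨fun n => Classical.choice (hne n), trivial⟩
  let E : Finset G × ℕ → Type := fun n => (B n).H
  let ρ : G →* unitary (lp E 2 →L[ℂ] lp E 2) :=
    { toFun := fun g => TU (fun n => (B n).π g)
      map_one' := by
        apply Subtype.ext
        show T (fun n => (B n).π 1) = 1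
        simp only [map_one]
        exact T_one
      map_mul' := by
        intro a b
        apply Subtype.ext
        show T (fun n => (B n).π (a * b)) = T (fun n => (B n).π a) * T (fun n => (B n).π b)
        simp only [map_mul]
        exact T_mul _ _ }
  have hρ : ∀ (g : G) (f : lp E 2) (n : Finset G × ℕ),
      ((ρ g : lp E 2 →L[ℂ] lp E 2) f) n = ((B n).π g : (B n).H →L[ℂ] (B n).H) (f n) := by
    intro g f n
    rfl
  obtain ⟨v, hv0, hv⟩ := hT (lp E 2) ρ (by
    intro K ε hε
    obtain ⟨N, hN⟩ := exists_nat_one_div_lt hε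
    obtain ⟨n, hn⟩ : ∃ n : Finset G × ℕ, n = (K, N) := ⟨_, rfl⟩
    refine ⟨lp.single 2 n (B n).ξ, ?_, ?_⟩
    · rw [lp.norm_single (by norm_num)]
      exact (B n).nrm
    · intro g hg
      have h1 : (ρ g : lp E 2 →L[ℂ] lp E 2) (lp.single 2 n (B n).ξ) - lp.single 2 n (B n).ξ =
          lp.single 2 n (((B n).π g : (B n).H →L[ℂ] (B n).H) (B n).ξ - (B n).ξ) := by
        ext m
        rw [lp.coeFn_sub, Pi.sub_apply, hρ]
        by_cases hm : m = n
        · subst hm
          rw [lp.single_apply_self, lp.single_apply_self]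
        · rw [lp.single_apply_ne _ _ _ hm, lp.single_apply_ne _ _ _ hm, map_zero, sub_zero]
      rw [h1, lp.norm_single (by norm_num)]
      have h2 := (B n).small g (by rw [hn]; exact hg)
      have h3 : 1 / ((n.2 : ℝ) + 1) < ε := by rw [hn]; exact hN
      exact lt_trans h2 h3)
  apply hv0
  ext n
  have h1 : v n = 0 := by
    apply (B n).noinv
    intro g
    have h2 := congrArg (fun f : lp E 2 => f n) (hv g)
    simp only [hρ] at h2
    exact h2
  rw [h1]
  rfl

theorem t_fld : S_FLD := by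
  classical
  have hp : Fact (Nat.Prime 2) := ⟨Nat.prime_two⟩
  have : Fintype (GaloisField 2 9) := Fintype.ofFinite _
  have hcard : Fintype.card (GaloisField 2 9) = 512 := by
    rw [← Nat.card_eq_fintype_card, GaloisField.card 2 9 (by norm_num)]
    norm_num
  refine ⟨GaloisField 2 9, inferInstance, this, by rw [hcard]; norm_num, fun c hc => ?_⟩
  have hc0 : c ≠ 0 := by
    rintro rfl
    rw [zero_pow (by norm_num)] at hc
    exact zero_ne_one hc
  have h1 := FiniteField.pow_card_sub_one_eq_one c hc0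
  rw [hcard] at h1
  have h2 : c ^ (512 - 1) = (c ^ 3) ^ 170 * c := by ring
  rw [h2, hc, one_pow, one_mul] at h1
  exact h1

theorem t_tg (hT : Pool.Agent.N708.MX.S_TT) : S_TG := by
  classical
  intro F _ _ hF Γ _ s t hst
  obtain ⟨g, hg⟩ : ∃ g : Fin 4 → MonoidAlgebra F Γ, g = ![MonoidAlgebra.of F Γ s,
    MonoidAlgebra.of F Γ s⁻¹, MonoidAlgebra.of F Γ t, MonoidAlgebra.of F Γ t⁻¹] := ⟨_, rfl⟩
  refine hT F hF (MonoidAlgebra F Γ) g ?_
  have hmem : ∀ i, g i ∈ Algebra.adjoin F (Set.range g) := fun i =>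
    Algebra.subset_adjoin ⟨i, rfl⟩
  have hs1 : MonoidAlgebra.of F Γ s ∈ Algebra.adjoin F (Set.range g) := by
    have h : g 0 = MonoidAlgebra.of F Γ s := by rw [hg]; rfl
    rw [← h]
    exact hmem 0
  have hs2 : MonoidAlgebra.of F Γ s⁻¹ ∈ Algebra.adjoin F (Set.range g) := by
    have h : g 1 = MonoidAlgebra.of F Γ s⁻¹ := by rw [hg]; rfl
    rw [← h]
    exact hmem 1
  have ht1 : MonoidAlgebra.of F Γ t ∈ Algebra.adjoin F (Set.range g) := by
    have h : g 2 = MonoidAlgebra.of F Γ t := by rw [hg]; rfl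
    rw [← h]
    exact hmem 2
  have ht2 : MonoidAlgebra.of F Γ t⁻¹ ∈ Algebra.adjoin F (Set.range g) := by
    have h : g 3 = MonoidAlgebra.of F Γ t⁻¹ := by rw [hg]; rfl
    rw [← h]
    exact hmem 3
  let P : Subgroup Γ :=
    { carrier := {x | MonoidAlgebra.of F Γ x ∈ Algebra.adjoin F (Set.range g) ∧
        MonoidAlgebra.of F Γ x⁻¹ ∈ Algebra.adjoin F (Set.range g)}
      mul_mem' := by
        rintro a b ⟨ha, ha'⟩ ⟨hb, hb'⟩
        refine ⟨?_, ?_⟩
        · rw [map_mul]
          exact mul_mem ha hb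
        · rw [mul_inv_rev, map_mul]
          exact mul_mem hb' ha'
      one_mem' := by
        refine ⟨?_, ?_⟩
        · rw [map_one]
          exact one_mem _
        · rw [inv_one, map_one]
          exact one_mem _
      inv_mem' := by
        rintro a ⟨ha, ha'⟩
        refine ⟨ha', ?_⟩
        rw [inv_inv]
        exact ha }
  have hP : P = ⊤ := by
    rw [eq_top_iff, ← hst, Subgroup.closure_le]
    rintro x (rfl | rfl)
    · exact ⟨hs1, hs2⟩
    · exact ⟨ht1, ht2⟩
  have hall : ∀ x : Γ, MonoidAlgebra.of F Γ x ∈ Algebra.adjoin F (Set.range g) := by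
    intro x
    have hx : x ∈ P := by rw [hP]; exact Subgroup.mem_top x
    exact hx.1
  rw [eq_top_iff]
  intro a _
  induction a using MonoidAlgebra.induction_on with
  | of x => exact hall x
  | add a b ha hb => exact add_mem (ha trivial) (hb trivial)
  | smul c a ha => exact Subalgebra.smul_mem _ (ha trivial) c

end

end Pool.Agent.N571.EX
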