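import Pool.Agent.N571.EX.Stm

/-!
# Project EX (helper571): density of the group algebra and finite sums (helper767)
-/

set_option autoImplicit false

namespace Pool.Agent.N571.EX

open Filter Topology
open scoped InnerProductSpace ComplexOrder
open Pool.Agent.H494R3.GT (L2 dl inner_dl dl_apply_self dl_apply_ne dl_inner vec_ext op_ext
  op_ext_inner mul_ap UU)
open Pool.Agent.N557.QW (lam rgt LG LK cf rc lam_dl star_lam lam_one lam_mul lam_mem mem_LG_iff)

noncomputable section

namespace PF_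

variable {G : Type} [Group G]

lemma cf_eq (x : L2 G →L[ℂ] L2 G) (g : G) : cf x g = (x (dl 1)) g := inner_dl _ _

lemma pf_eq (f : G → G) (p : G →₀ ℂ) :
    pf f p = Finsupp.linearCombination ℂ (fun g => lam (f g)) p := by
  rw [Finsupp.linearCombination_apply]
  rfl

lemma pf_sum (f : G → G) (p : G →₀ ℂ) : pf f p = ∑ g ∈ p.support, p g • lam (f g) := rfl

lemma pf_add (f : G → G) (p q : G →₀ ℂ) : pf f (p + q) = pf f p + pf f q := by
  rw [pf_eq, pf_eq, pf_eq, map_add]

lemma pf_smul (f : G → G) (c : ℂ) (p : G →₀ ℂ) : pf f (c • p) = c • pf f p := by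
  rw [pf_eq, pf_eq, map_smul]

lemma pf_single (f : G → G) (g : G) (a : ℂ) : pf f (Finsupp.single g a) = a • lam (f g) := by
  rw [pf_eq, Finsupp.linearCombination_single]

lemma pf_dl (f : G → G) (p : G →₀ ℂ) :
    pf f p (dl 1) = ∑ g ∈ p.support, p g • (dl (f g) : L2 G) := by
  rw [pf_sum, sum_apply]
  refine Finset.sum_congr rfl fun g _ => ?_
  rw [smul_apply, lam_dl, mul_one]

omit [Group G] in
lemma sum_coe {ι : Type} (s : Finset ι) (F : ι → L2 G) (g : G) :
    (∑ i ∈ s, F i : L2 G) g = ∑ i ∈ s, (F i) g := by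
  classical
  induction s using Finset.induction_on with
  | empty => simp
  | insert a s ha ih => rw [Finset.sum_insert ha, Finset.sum_insert ha, lp.coeFn_add, Pi.add_apply, ih]

lemma pf_id_apply (p : G →₀ ℂ) (g : G) : (pf id p (dl 1)) g = p g := by
  classical
  rw [pf_dl, sum_coe]
  have h : ∀ i ∈ p.support, (p i • (dl (id i) : L2 G)) g = if i = g then p i else 0 := by
    intro i _
    rw [lp.coeFn_smul, Pi.smul_apply, id]
    by_cases hi : i = g
    · subst hi
      rw [dl_apply_self, if_pos rfl, smul_eq_mul, mul_one]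
    · rw [dl_apply_ne (fun h => hi h.symm), if_neg hi, smul_zero]
  rw [Finset.sum_congr rfl h, Finset.sum_ite_eq' p.support g]
  by_cases hg : g ∈ p.support
  · rw [if_pos hg]
  · rw [if_neg hg]
    exact (Finsupp.notMem_support_iff.1 hg).symm

lemma cf_pf (p : G →₀ ℂ) (g : G) : cf (pf id p) g = p g := by
  rw [cf_eq, pf_id_apply]

lemma pf_id_inj {p q : G →₀ ℂ} (h : pf id p = pf id q) : p = q := by
  ext g
  rw [← cf_pf p, h, cf_pf]

lemma sum_mem' {S : StarSubalgebra ℂ (L2 G →L[ℂ] L2 G)} (f : G → G) (p : G →₀ ℂ)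
    (h : ∀ g ∈ p.support, lam (f g) ∈ S) : pf f p ∈ S := by
  rw [pf_sum]
  exact sum_mem fun g hg => S.smul_mem (h g hg) _

lemma pf_mem (f : G → G) (p : G →₀ ℂ) : pf f p ∈ LG G :=
  sum_mem' (S := (LG G).toStarSubalgebra) f p fun g _ => lam_mem (f g)

lemma norm_lam (g : G) : ‖lam g‖ ≤ 1 := LinearIsometry.norm_toContinuousLinearMap_le _

lemma norm_pf (f : G → G) (p : G →₀ ℂ) : ‖pf f p‖ ≤ ∑ g ∈ p.support, ‖p g‖ := by
  rw [pf_sum]
  refine norm_sum_le_of_le _ fun g _ => ?_
  rw [norm_smul]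
  exact mul_le_of_le_one_right (norm_nonneg _) (norm_lam _)

lemma star_mem' {x : L2 G →L[ℂ] L2 G} (hx : x ∈ LG G) : star x ∈ LG G :=
  star_mem (S := StarSubalgebra ℂ (L2 G →L[ℂ] L2 G)) (s := (LG G).toStarSubalgebra) hx

lemma cf_star {x : L2 G →L[ℂ] L2 G} (hx : x ∈ LG G) (g : G) :
    cf (star x) g = starRingEnd ℂ (cf x g⁻¹) := by
  unfold cf
  rw [ContinuousLinearMap.star_eq_adjoint, ContinuousLinearMap.adjoint_inner_right,
    ← inner_conj_symm, mem_LG_iff.1 hx g 1, one_mul]
  rfl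

lemma ext_cf {x y : L2 G →L[ℂ] L2 G} (hx : x ∈ LG G) (hy : y ∈ LG G)
    (h : ∀ g, cf x g = cf y g) : x = y := by
  apply op_ext_inner
  intro t s
  rw [mem_LG_iff.1 hx, mem_LG_iff.1 hy, h]

/-- the norm of a finite sum -/
lemma norm_eq {f : G → G} (p : G →₀ ℂ)
    (hf : ∀ x ∈ p.support, ∀ y ∈ p.support, f x = f y → x = y) :
    ‖pf f p (dl (1 : G))‖ = ‖pf id p (dl (1 : G))‖ := by
  classical
  have key : ∀ f : G → G, (∀ x ∈ p.support, ∀ y ∈ p.support, f x = f y → x = y) →
      (inner ℂ (pf f p (dl (1 : G))) (pf f p (dl (1 : G))) : ℂ) =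
        ∑ g ∈ p.support, starRingEnd ℂ (p g) * p g := by
    intro f hf
    rw [pf_dl, sum_inner]
    refine Finset.sum_congr rfl fun g hg => ?_
    rw [inner_sum, Finset.sum_eq_single g]
    · rw [inner_smul_left, inner_smul_right, dl_inner, if_pos rfl, mul_one]
    · intro b hb hbg
      rw [inner_smul_left, inner_smul_right, dl_inner, if_neg (fun h => hbg (hf g hg b hb h).symm),
        mul_zero, mul_zero]
    · intro h
      exact absurd hg h
  have h1 := key f hf
  have h2 := key id (fun x _ y _ h => h)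
  rw [← h2] at h1
  have h3 : ‖pf f p (dl (1 : G))‖ ^ 2 = ‖pf id p (dl (1 : G))‖ ^ 2 := by
    rw [inner_self_eq_norm_sq_to_K, inner_self_eq_norm_sq_to_K] at h1
    exact_mod_cast h1
  exact (pow_left_inj₀ (norm_nonneg _) (norm_nonneg _) two_ne_zero).1 h3

/-- the product of two finite sums -/
def pr (p q : G →₀ ℂ) : G →₀ ℂ :=
  ∑ g ∈ p.support, ∑ h ∈ q.support, Finsupp.single (g * h) (p g * q h)

lemma pf_pr {f : G → G} (p q : G →₀ ℂ)
    (hf : ∀ g ∈ p.support, ∀ h ∈ q.support, f (g * h) = f g * f h) :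
    pf f (pr p q) = pf f p * pf f q := by
  unfold pr
  rw [pf_eq, map_sum, pf_sum, pf_sum, Finset.sum_mul]
  refine Finset.sum_congr rfl fun g hg => ?_
  rw [map_sum, Finset.mul_sum]
  refine Finset.sum_congr rfl fun h hh => ?_
  rw [Finsupp.linearCombination_single, hf g hg h hh, lam_mul, smul_mul_smul_comm]

/-- the adjoint of a finite sum -/
def st (p : G →₀ ℂ) : G →₀ ℂ :=
  ∑ g ∈ p.support, Finsupp.single g⁻¹ (starRingEnd ℂ (p g))

lemma pf_st {f : G → G} (p : G →₀ ℂ) (hf : ∀ g ∈ p.support, f g⁻¹ = (f g)⁻¹) :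
    pf f (st p) = star (pf f p) := by
  unfold st
  rw [pf_eq, map_sum, pf_sum, star_sum]
  refine Finset.sum_congr rfl fun g hg => ?_
  rw [Finsupp.linearCombination_single, hf g hg, star_smul, star_lam]
  rfl

end PF_

open PF_

theorem t_den (_h : S_TR) : S_DEN := by
  classical
  intro G _
  refine ⟨fun p => pf_mem id p, fun x hx ε hε => ?_⟩
  set v : L2 G := x (dl 1) with hv
  have h1 : HasSum (fun i => (lp.single 2 i (v i) : L2 G)) v :=
    lp.hasSum_single (by norm_num) v
  have h2 := Metric.tendsto_atTop.1 h1 ε hε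
  obtain ⟨S0, hS0⟩ := h2
  set S : Finset G := S0 ∪ S0.image (fun g => g⁻¹) with hS
  have hSinv : ∀ g, g⁻¹ ∈ S ↔ g ∈ S := by
    have : ∀ g, g ∈ S → g⁻¹ ∈ S := by
      intro g hg
      rw [hS, Finset.mem_union, Finset.mem_image] at hg ⊢
      rcases hg with hg | ⟨a, ha, rfl⟩
      · exact Or.inr ⟨g, hg, rfl⟩
      · left
        rwa [inv_inv]
    intro g
    constructor
    · intro h
      have := this _ h
      rwa [inv_inv] at this
    · exact this g
  have h3 := hS0 S Finset.subset_union_left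
  set p : G →₀ ℂ := Finsupp.onFinset S (fun g => if g ∈ S then cf x g else 0) (by
    intro g hg
    by_contra h
    rw [if_neg h] at hg
    exact hg rfl) with hp
  have hpg : ∀ g, p g = if g ∈ S then cf x g else 0 := fun g => rfl
  have h4 : ∑ i ∈ S, (lp.single 2 i (v i) : L2 G) = pf id p (dl (1 : G)) := by
    apply vec_ext
    intro g
    rw [pf_id_apply, sum_coe, hpg]
    have h5 : ∀ i ∈ S, (lp.single 2 i (v i) : L2 G) g = if i = g then v i else 0 := by
      intro i _
      by_cases hi : i = g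
      · subst hi
        rw [if_pos rfl]
        simp [lp.single_apply]
      · rw [if_neg hi]
        simp [lp.single_apply, Ne.symm hi]
    rw [Finset.sum_congr rfl h5, Finset.sum_ite_eq' S g]
    by_cases hg : g ∈ S
    · rw [if_pos hg, if_pos hg, cf_eq]
    · rw [if_neg hg, if_neg hg]
  refine ⟨p, ?_, fun hsx => ?_, fun g hg => ?_⟩
  · rw [← h4, ← dist_eq_norm, dist_comm]
    exact h3
  · apply ext_cf (star_mem' (pf_mem id p)) (pf_mem id p)
    intro g
    rw [cf_star (pf_mem id p), cf_pf, cf_pf, hpg, hpg]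
    by_cases hg : g ∈ S
    · rw [if_pos hg, if_pos ((hSinv g).2 hg)]
      have h6 := cf_star hx g
      rw [hsx] at h6
      exact h6.symm
    · rw [if_neg hg, if_neg (fun h => hg ((hSinv g).1 h)), map_zero]
  · rw [Finsupp.mem_support_iff, hpg] at hg
    intro h
    apply hg
    split_ifs
    · exact h
    · rfl

theorem t_pf (h : S_TR) (h2 : S_DEN) : S_PF := by
  classical
  intro G _ K Kn θ hE
  obtain ⟨hTR, -⟩ := h G K
  obtain ⟨-, hDEN⟩ := h2 G
  -- eventual properties
  have e1 : ∀ᶠ n in atTop, θ n 1 = 1 := by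
    filter_upwards [hE.mul 1 1] with n hn
    rw [mul_one] at hn
    exact mul_eq_left.1 hn.symm
  have einv : ∀ g, ∀ᶠ n in atTop, θ n g⁻¹ = (θ n g)⁻¹ := by
    intro g
    filter_upwards [e1, hE.mul g⁻¹ g] with n h1 hn
    rw [inv_mul_cancel, h1] at hn
    exact eq_inv_of_mul_eq_one_left hn.symm
  have einj : ∀ x y, ∀ᶠ n in atTop, θ n x = θ n y → x = y := by
    intro x y
    by_cases hxy : x = y
    · exact Eventually.of_forall fun _ _ => hxy
    · have hne : x * y⁻¹ ≠ 1 := fun h => hxy (mul_inv_eq_one.1 h)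
      filter_upwards [hE.ne _ hne, hE.mul (x * y⁻¹) y] with n h1 h3 h4
      exfalso
      rw [inv_mul_cancel_right, h4] at h3
      exact h1 (mul_eq_right.1 h3.symm)
  have hlamK : ∀ g ∈ K, lam g ∈ LK K := by
    intro g hg
    rw [hTR]
    refine ⟨lam_mem g, fun g' hg' => ?_⟩
    rw [cf_eq, lam_dl, mul_one]
    exact dl_apply_ne (fun h => hg' (h ▸ hg))
  refine ⟨fun f p => pf_mem f p, fun n p => ?_, fun p => ⟨_, fun f => norm_pf f p⟩, fun p => ?_,
    fun f p q => pf_add f p q, fun f c p => pf_smul f c p, fun p q => ?_, fun p => ?_,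
    fun p hp => ?_, ⟨Finsupp.single 1 1, ?_, ?_⟩, fun x hx ε hε => ?_⟩
  · exact sum_mem' (S := (LK K).toStarSubalgebra) (θ n) p fun g _ => hlamK _ (hE.val n g)
  · have h3 : ∀ᶠ n in atTop, ∀ x ∈ p.support, ∀ y ∈ p.support, θ n x = θ n y → x = y :=
      (Filter.eventually_all_finset _).2 fun x _ =>
        (Filter.eventually_all_finset _).2 fun y _ => einj x y
    filter_upwards [h3] with n hn
    exact norm_eq p hn
  · refine ⟨pr p q, pf_pr p q fun _ _ _ _ => rfl, ?_⟩
    have h3 : ∀ᶠ n in atTop, ∀ x ∈ p.support, ∀ y ∈ q.support, θ n (x * y) = θ n x * θ n y :=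
      (Filter.eventually_all_finset _).2 fun x _ =>
        (Filter.eventually_all_finset _).2 fun y _ => hE.mul x y
    filter_upwards [h3] with n hn
    exact pf_pr p q hn
  · refine ⟨st p, pf_st p fun _ _ => rfl, ?_⟩
    have h3 : ∀ᶠ n in atTop, ∀ x ∈ p.support, θ n x⁻¹ = (θ n x)⁻¹ :=
      (Filter.eventually_all_finset _).2 fun x _ => einv x
    filter_upwards [h3] with n hn
    exact pf_st p hn
  · have h3 : ∀ᶠ n in atTop, ∀ x ∈ p.support, θ n x = x :=
      (Filter.eventually_all_finset _).2 fun x hx => hE.id x (hp x hx)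
    filter_upwards [h3] with n hn
    rw [pf_sum, pf_sum]
    exact Finset.sum_congr rfl fun g hg => by rw [hn g hg, id]
  · rw [pf_single, one_smul, id, lam_one]
  · filter_upwards [e1] with n hn
    rw [pf_single, one_smul, hn, lam_one]
  · obtain ⟨p, q1, q2, q3⟩ := hDEN x hx ε hε
    refine ⟨p, q1, fun hsx => ⟨q2 hsx, ?_⟩, fun hxK g hg => ?_⟩
    · have h4 : st p = p := pf_id_inj ((pf_st (f := id) p fun _ _ => rfl).trans (q2 hsx))
      have h3 : ∀ᶠ n in atTop, ∀ x ∈ p.support, θ n x⁻¹ = (θ n x)⁻¹ :=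
        (Filter.eventually_all_finset _).2 fun x _ => einv x
      filter_upwards [h3] with n hn
      have h5 := pf_st p hn
      rw [h4] at h5
      exact h5.symm
    · by_contra hgK
      exact q3 g hg (((hTR x).1 hxK).2 g hgK)

end

end Pool.Agent.N571.EX
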