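import Pool.Agent.N571.EX.Stm

/-!
# EX/PTM (helper664): `L(G)` has property (T) if `G` has
-/

set_option autoImplicit false

namespace Pool.Agent.N571.EX

open Filter Topology
open scoped InnerProductSpace ComplexOrder
open Pool.Agent.H494R3.GT (L2 dl)
open Pool.Agent.N557.QW (lam LG lam_mem lam_one lam_mul star_lam)
open Pool.Agent.N708.MX (PT)
open MulOpposite (op)

noncomputable section

namespace PTM

variable {G : Type} [Group G]

/-- the group elements in `L(G)` -/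
def lamE (g : G) : El (LG G) := ⟨lam g, lam_mem g⟩

theorem lamE_one : lamE (1 : G) = 1 := Subtype.ext lam_one

theorem lamE_mul (g h : G) : lamE (g * h) = lamE g * lamE h := Subtype.ext (lam_mul g h)

theorem star_lamE (g : G) : star (lamE g) = lamE g⁻¹ := Subtype.ext (star_lam g)

variable {K : Type} [NormedAddCommGroup K] [InnerProductSpace ℂ K] [CompleteSpace K]
  (B : Bimod (LG G) K)

/-- the conjugation by a group element -/
def UU (g : G) : K →L[ℂ] K := B.L (lamE g) * B.R (op (lamE g⁻¹))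

theorem UU_one : UU B 1 = 1 := by
  unfold UU
  rw [inv_one, lamE_one, MulOpposite.op_one, map_one, map_one, one_mul]

theorem UU_mul (g h : G) : UU B (g * h) = UU B g * UU B h := by
  unfold UU
  rw [mul_inv_rev, lamE_mul, lamE_mul, MulOpposite.op_mul, map_mul, map_mul]
  have := B.comm (lamE h) (op (lamE g⁻¹))
  calc B.L (lamE g) * B.L (lamE h) * (B.R (op (lamE g⁻¹)) * B.R (op (lamE h⁻¹)))
      = B.L (lamE g) * (B.L (lamE h) * B.R (op (lamE g⁻¹))) * B.R (op (lamE h⁻¹)) := by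
        simp only [mul_assoc]
    _ = _ := by rw [this]; simp only [mul_assoc]

theorem UU_star (g : G) : star (UU B g) = UU B g⁻¹ := by
  unfold UU
  rw [star_mul, ← map_star, ← map_star, ← MulOpposite.op_star, star_lamE, star_lamE, B.comm]

theorem UU_mem (g : G) : UU B g ∈ unitary (K →L[ℂ] K) := by
  rw [Unitary.mem_iff, UU_star, ← UU_mul, ← UU_mul, inv_mul_cancel, mul_inv_cancel, UU_one]
  exact ⟨rfl, rfl⟩

/-- the unitary representation by conjugation -/
def PI : G →* unitary (K →L[ℂ] K) where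
  toFun g := ⟨UU B g, UU_mem B g⟩
  map_one' := Subtype.ext (UU_one B)
  map_mul' g h := Subtype.ext (UU_mul B g h)

theorem R_inv (g : G) : B.R (op (lamE g⁻¹)) * B.R (op (lamE g)) = 1 := by
  rw [← map_mul, ← MulOpposite.op_mul, ← lamE_mul, mul_inv_cancel, lamE_one, MulOpposite.op_one,
    map_one]

theorem R_inv' (g : G) : B.R (op (lamE g)) * B.R (op (lamE g⁻¹)) = 1 := by
  rw [← map_mul, ← MulOpposite.op_mul, ← lamE_mul, inv_mul_cancel, lamE_one, MulOpposite.op_one,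
    map_one]

theorem R_unit (g : G) : B.R (op (lamE g)) ∈ unitary (K →L[ℂ] K) := by
  rw [Unitary.mem_iff, ← map_star, ← MulOpposite.op_star, star_lamE]
  exact ⟨R_inv B g, R_inv' B g⟩

theorem R_norm (g : G) (v : K) : ‖B.R (op (lamE g)) v‖ = ‖v‖ :=
  ContinuousLinearMap.norm_map_of_mem_unitary (R_unit B g) v

/-- elements which commute with `η` -/
def Es (η : K) : Submodule ℂ (El (LG G)) where
  carrier := {x | B.L x η = B.R (op x) η}
  add_mem' := by
    intro a b (ha : B.L a η = B.R (op a) η) (hb : B.L b η = B.R (op b) η)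
    show B.L (a + b) η = B.R (op (a + b)) η
    rw [map_add, MulOpposite.op_add, map_add, add_apply,
      add_apply, ha, hb]
  zero_mem' := by
    show B.L 0 η = B.R (op 0) η
    rw [map_zero, MulOpposite.op_zero, map_zero]
  smul_mem' := by
    intro c x (hx : B.L x η = B.R (op x) η)
    show B.L (c • x) η = B.R (op (c • x)) η
    rw [map_smul, MulOpposite.op_smul, map_smul, smul_apply,
      smul_apply, hx]

theorem mem_Es {η : K} {x : El (LG G)} : x ∈ Es B η ↔ B.L x η = B.R (op x) η := Iff.rfl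

theorem inv_mem {η : K} {b r : El (LG G)} (hb : b ∈ Es B η) (h1 : b * r = 1) (h2 : r * b = 1) :
    r ∈ Es B η := by
  rw [mem_Es] at hb ⊢
  have e1 : B.L r * B.L b = 1 := by rw [← map_mul, h2, map_one]
  have e2 : B.R (op r) * B.R (op b) = 1 := by
    rw [← map_mul, ← MulOpposite.op_mul, h1, MulOpposite.op_one, map_one]
  calc B.L r η = B.L r ((B.R (op r) * B.R (op b)) η) := by rw [e2]; rfl
    _ = B.L r (B.R (op r) (B.R (op b) η)) := rfl
    _ = B.L r (B.R (op r) (B.L b η)) := by rw [hb]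
    _ = (B.L r * B.R (op r)) (B.L b η) := rfl
    _ = (B.R (op r) * B.L r) (B.L b η) := by rw [B.comm]
    _ = B.R (op r) ((B.L r * B.L b) η) := rfl
    _ = B.R (op r) η := by rw [e1]; rfl

theorem pf_mem {η : K} (hlam : ∀ g, lamE g ∈ Es B η) (p : G →₀ ℂ) (hp : pf id p ∈ LG G) :
    (⟨pf id p, hp⟩ : El (LG G)) ∈ Es B η := by
  have : (⟨pf id p, hp⟩ : El (LG G)) = ∑ g ∈ p.support, p g • lamE g := by
    apply Subtype.ext
    rw [AddSubmonoidClass.coe_finsetSum]
    rfl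
  rw [this]
  exact Submodule.sum_mem _ fun g _ => Submodule.smul_mem _ _ (hlam g)

theorem one_mem {η : K} : (1 : El (LG G)) ∈ Es B η := by
  rw [mem_Es, map_one, MulOpposite.op_one, map_one]

/-- resolvents of self-adjoint elements -/
theorem res_mem (h1 : S_RES) (h3 : S_TR) (h4 : S_DEN) {η : K} (hlam : ∀ g, lamE g ∈ Es B η)
    (a r : L2 G →L[ℂ] L2 G) (ha : a ∈ LG G) (hr : r ∈ LG G) (hsa : star a = a)
    (_e1 : (1 - Complex.I • a) * r = 1) (e2 : r * (1 - Complex.I • a) = 1) :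
    (⟨r, hr⟩ : El (LG G)) ∈ Es B η := by
  obtain ⟨r', e1', e2', hn, -⟩ := h1 (L2 G) a hsa
  have hrr : r = r' := left_inv_eq_right_inv e2 e1'
  have hrn : ‖r‖ ≤ 1 := by rw [hrr]; exact hn
  obtain ⟨-, -, -, -, h5, h6⟩ := h3 G ⊥
  have hch : ∀ k : ℕ, ∃ p : G →₀ ℂ, ‖a (dl 1) - pf id p (dl (1 : G))‖ < 1 / ((k : ℝ) + 1) ∧
      star (pf id p) = pf id p := by
    intro k
    obtain ⟨p, hp1, hp2, -⟩ := (h4 G).2 a ha (1 / ((k : ℝ) + 1)) (by positivity)
    exact ⟨p, hp1, hp2 hsa⟩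
  choose p hp1 hp2 using hch
  have hpm : ∀ k, pf id (p k) ∈ LG G := fun k => (h4 G).1 (p k)
  have hres := fun k => h1 (L2 G) (pf id (p k)) (hp2 k)
  choose rk k1 k2 k3 k4 using hres
  have hrk : ∀ k, rk k ∈ LG G := fun k => k4 k (LG G) (hpm k)
  have hrE : ∀ k, (⟨rk k, hrk k⟩ : El (LG G)) ∈ Es B η := by
    intro k
    refine inv_mem B (b := 1 - Complex.I • ⟨pf id (p k), hpm k⟩) ?_ ?_ ?_
    · exact Submodule.sub_mem _ (one_mem B) (Submodule.smul_mem _ _ (pf_mem B hlam (p k) (hpm k)))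
    · exact Subtype.ext (k1 k)
    · exact Subtype.ext (k2 k)
  have hdist : ∀ k, ‖(rk k) (dl 1) - r (dl 1)‖ ≤ 1 / ((k : ℝ) + 1) := by
    intro k
    have hsub : r - rk k = r * (Complex.I • (a - pf id (p k))) * rk k := by
      have a1 : r = r * ((1 - Complex.I • pf id (p k)) * rk k) := by rw [k1, mul_one]
      have a2 : rk k = r * (1 - Complex.I • a) * rk k := by rw [e2, one_mul]
      calc r - rk k = r * ((1 - Complex.I • pf id (p k)) * rk k) -
            r * (1 - Complex.I • a) * rk k := by rw [← a1, ← a2]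
        _ = _ := by
          rw [smul_sub]
          simp only [mul_sub, sub_mul, mul_assoc]
          abel
    have hIm : Complex.I • (a - pf id (p k)) ∈ LG G :=
      (LG G).toStarSubalgebra.smul_mem ((LG G).toStarSubalgebra.sub_mem ha (hpm k)) _
    have hm : r * (Complex.I • (a - pf id (p k))) ∈ LG G :=
      (LG G).toStarSubalgebra.mul_mem hr hIm
    calc ‖(rk k) (dl 1) - r (dl 1)‖ = ‖(r - rk k) (dl 1)‖ := by
          rw [norm_sub_rev]; rfl
      _ = ‖(r * (Complex.I • (a - pf id (p k))) * rk k) (dl 1)‖ := by rw [hsub]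
      _ ≤ ‖rk k‖ * ‖(r * (Complex.I • (a - pf id (p k)))) (dl 1)‖ := h5 _ hm _ (hrk k)
      _ ≤ 1 * ‖(r * (Complex.I • (a - pf id (p k)))) (dl 1)‖ := by
          gcongr; exact k3 k
      _ = ‖r (Complex.I • ((a - pf id (p k)) (dl 1)))‖ := by rw [one_mul]; rfl
      _ ≤ ‖r‖ * ‖Complex.I • ((a - pf id (p k)) (dl 1))‖ := r.le_opNorm _
      _ ≤ 1 * ‖Complex.I • ((a - pf id (p k)) (dl 1))‖ := by gcongr
      _ = ‖a (dl 1) - pf id (p k) (dl 1)‖ := by
          rw [one_mul, norm_smul, Complex.norm_I, one_mul]; rfl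
      _ ≤ _ := (hp1 k).le
  have hconv := h6 rk r 1 hrk hr k3
    (squeeze_zero (fun _ => norm_nonneg _) hdist tendsto_one_div_add_atTop_nhds_zero_nat)
  have hL := B.normalL (fun k => ⟨rk k, hrk k⟩) ⟨r, hr⟩ 1 k3 hconv η
  have hR := B.normalR (fun k => ⟨rk k, hrk k⟩) ⟨r, hr⟩ 1 k3 hconv η
  rw [mem_Es]
  refine tendsto_nhds_unique hL (hR.congr fun k => ?_)
  exact ((mem_Es B).1 (hrE k)).symm

/-- self-adjoint contractions -/
theorem sa_mem (h1 : S_RES) (h2 : S_CAY) (h3 : S_TR) (h4 : S_DEN) {η : K}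
    (hlam : ∀ g, lamE g ∈ Es B η) (x : El (LG G)) (hx : star x = x) (hn : ‖(x : L2 G →L[ℂ] L2 G)‖ ≤ 1) :
    x ∈ Es B η := by
  obtain ⟨a, ha, hsa, hall⟩ := h2 (L2 G) (LG G) x x.2 (congrArg Subtype.val hx) hn
  obtain ⟨r, e1, e2, -, hmem⟩ := h1 (L2 G) a hsa
  have hr : r ∈ LG G := hmem (LG G) ha
  have hrs : star r ∈ LG G := (LG G).toStarSubalgebra.star_mem' hr
  have hna : -a ∈ LG G := (LG G).toStarSubalgebra.neg_mem ha
  have m1 := res_mem B h1 h3 h4 hlam a r ha hr hsa e1 e2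
  have s1 : star (1 - Complex.I • a) = 1 - Complex.I • (-a) := by
    rw [star_sub, star_one, star_smul, hsa, smul_neg]
    congr 1
    rw [← neg_smul]
    congr 1
    exact Complex.conj_I
  have m2 := res_mem B h1 h3 h4 hlam (-a) (star r) hna hrs (by rw [star_neg, hsa])
    (by rw [← s1, ← star_mul, e2, star_one]) (by rw [← s1, ← star_mul, e1, star_one])
  have hxe : x = (-Complex.I) • ((⟨r, hr⟩ : El (LG G)) - ⟨star r, hrs⟩) :=
    Subtype.ext (hall r e1 e2)
  rw [hxe]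
  exact Submodule.smul_mem _ _ (Submodule.sub_mem _ m1 m2)

theorem sa_mem' (h1 : S_RES) (h2 : S_CAY) (h3 : S_TR) (h4 : S_DEN) {η : K}
    (hlam : ∀ g, lamE g ∈ Es B η) (x : El (LG G)) (hx : star x = x) : x ∈ Es B η := by
  set c : ℝ := ‖(x : L2 G →L[ℂ] L2 G)‖ + 1 with hc
  have hc0 : 0 < c := by positivity
  have hm := sa_mem B h1 h2 h3 h4 hlam ((((c⁻¹ : ℝ) : ℂ)) • x)
    (by rw [star_smul, hx, Complex.star_def, Complex.conj_ofReal]) (by
      show ‖((c⁻¹ : ℝ) : ℂ) • (x : L2 G →L[ℂ] L2 G)‖ ≤ 1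
      rw [norm_smul, Complex.norm_real, Real.norm_eq_abs, abs_of_pos (by positivity),
        inv_mul_le_one₀ hc0]
      linarith)
  have e : x = ((c : ℝ) : ℂ) • ((((c⁻¹ : ℝ) : ℂ)) • x) := by
    rw [smul_smul, ← Complex.ofReal_mul, mul_inv_cancel₀ hc0.ne', Complex.ofReal_one, one_smul]
  rw [e]
  exact Submodule.smul_mem _ _ hm

theorem all_mem (h1 : S_RES) (h2 : S_CAY) (h3 : S_TR) (h4 : S_DEN) {η : K}
    (hlam : ∀ g, lamE g ∈ Es B η) (x : El (LG G)) : x ∈ Es B η := by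
  have m1 := sa_mem' B h1 h2 h3 h4 hlam (x + star x) (by rw [star_add, star_star, add_comm])
  have m2 := sa_mem' B h1 h2 h3 h4 hlam (Complex.I • (x - star x)) (by
    rw [star_smul, star_sub, star_star, Complex.star_def, Complex.conj_I, neg_smul, ← smul_neg,
      neg_sub])
  have e : x = (1 / 2 : ℂ) • ((x + star x) + (-Complex.I) • (Complex.I • (x - star x))) := by
    rw [smul_smul, neg_mul, Complex.I_mul_I, neg_neg, one_smul, add_add_sub_cancel, ← two_smul ℂ x,
      smul_smul]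
    norm_num
  rw [e]
  exact Submodule.smul_mem _ _ (Submodule.add_mem _ m1 (Submodule.smul_mem _ _ m2))

end PTM

open PTM in
/-- PTM -/
theorem t_ptm (h : S_KP) (h1 : S_RES) (h2 : S_CAY) (h3 : S_TR) (h4 : S_DEN) : S_PTM := by
  classical
  intro G _ hPT
  obtain ⟨S, ε, hε, hK⟩ := h G hPT
  refine ⟨S.image lamE, ε, hε, ?_⟩
  intro K _ _ _ B ξ hξ hF
  obtain ⟨η, hη0, hη⟩ := hK K (PI B) ξ hξ (by
    intro g hg
    have h5 := hF (lamE g) (Finset.mem_image_of_mem _ hg)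
    have h6 : (PI B g : K →L[ℂ] K) ξ - ξ =
        B.R (op (lamE g⁻¹)) (B.L (lamE g) ξ - B.R (op (lamE g)) ξ) := by
      have a1 : (PI B g : K →L[ℂ] K) ξ = B.R (op (lamE g⁻¹)) (B.L (lamE g) ξ) := by
        show (B.L (lamE g) * B.R (op (lamE g⁻¹))) ξ = _
        rw [B.comm]; rfl
      have a2 : B.R (op (lamE g⁻¹)) (B.R (op (lamE g)) ξ) = ξ := by
        show (B.R (op (lamE g⁻¹)) * B.R (op (lamE g))) ξ = ξ
        rw [R_inv]; rfl
      rw [map_sub, a1, a2]
    rw [h6, R_norm]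
    exact h5)
  refine ⟨η, hη0, fun x => all_mem B h1 h2 h3 h4 (η := η) (fun g => ?_) x⟩
  rw [mem_Es]
  have a1 : B.R (op (lamE g⁻¹)) (B.L (lamE g) η) = η := by
    have := hη g
    have a3 : (PI B g : K →L[ℂ] K) η = B.R (op (lamE g⁻¹)) (B.L (lamE g) η) := by
      show (B.L (lamE g) * B.R (op (lamE g⁻¹))) η = _
      rw [B.comm]; rfl
    rw [← a3]; exact this
  have a2 : B.R (op (lamE g)) (B.R (op (lamE g⁻¹)) (B.L (lamE g) η)) = B.L (lamE g) η := by
    show (B.R (op (lamE g)) * B.R (op (lamE g⁻¹))) (B.L (lamE g) η) = _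
    rw [R_inv']; rfl
  rw [← a2, a1]

end

end Pool.Agent.N571.EX
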