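import Pool.Agent.N571.EX.Stm

/-!
# Project EX: resolvents and Cayley transforms in von Neumann algebras
-/

set_option autoImplicit false

namespace Pool.Agent.N571.EX

open Filter Topology
open scoped InnerProductSpace ComplexOrder

noncomputable section

namespace RCx

section alg

variable {A : Type*} [Ring A] {a u v r s : A}

theorem inv_comm {c : A} (h1 : u * r = 1) (h2 : r * u = 1) (hc : c * u = u * c) :
    c * r = r * c := by
  calc c * r = (r * u) * c * r := by rw [h2, one_mul]
    _ = r * (u * c) * r := by noncomm_ring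
    _ = r * (c * u) * r := by rw [hc]
    _ = r * c * (u * r) := by noncomm_ring
    _ = r * c := by rw [h1, mul_one]

end alg

variable {H : Type} [NormedAddCommGroup H] [InnerProductSpace ℂ H] [CompleteSpace H]

/-- elements which commute with everything in the commutant -/
theorem mem_of_comm (M : VonNeumannAlgebra H) {r : H →L[ℂ] H}
    (h : ∀ c : H →L[ℂ] H, (∀ y ∈ M, y * c = c * y) → c * r = r * c) : r ∈ M := by
  have h1 : r ∈ Set.centralizer (Set.centralizer (M : Set (H →L[ℂ] H))) := by
    intro c hc
    exact h c fun y hy => hc y hy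
  rw [VonNeumannAlgebra.centralizer_centralizer] at h1
  exact h1

theorem star_u {a : H →L[ℂ] H} (ha : star a = a) :
    star (1 - Complex.I • a) = 1 + Complex.I • a := by
  rw [star_sub, star_one, star_smul, ha]
  simp

end RCx

open RCx

theorem t_res : S_RES := by
  intro H _ _ _ a ha
  have hsa : IsSelfAdjoint a := ha
  obtain ⟨r, hr1, hr2⟩ : ∃ r : H →L[ℂ] H, (1 - Complex.I • a) * r = 1 ∧
      r * (1 - Complex.I • a) = 1 := by
    have h1 : -Complex.I ∉ spectrum ℂ a := by
      intro hmem
      have := hsa.mem_spectrum_eq_re hmem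
      have h2 := congrArg Complex.im this
      simp at h2
    rw [spectrum.notMem_iff] at h1
    obtain ⟨w, hw⟩ := h1
    have h2 : (1 - Complex.I • a) = Complex.I • (w : H →L[ℂ] H) := by
      rw [hw, smul_sub, Algebra.algebraMap_eq_smul_one, smul_smul]
      simp
    refine ⟨(-Complex.I) • ((w⁻¹ : (H →L[ℂ] H)ˣ) : H →L[ℂ] H), ?_, ?_⟩
    · rw [h2, smul_mul_smul_comm, Units.mul_inv]
      simp
    · rw [h2, smul_mul_smul_comm, Units.inv_mul]
      simp
  refine ⟨r, hr1, hr2, ?_, fun M haM => ?_⟩
  · refine ContinuousLinearMap.opNorm_le_bound _ zero_le_one fun w => ?_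
    rw [one_mul]
    set v := r w with hv
    have h1 : w = v - Complex.I • a v := by
      have := congrArg (fun f : H →L[ℂ] H => f w) hr1
      simpa using this.symm
    have h2 : (inner ℂ v (a v)).im = 0 := by
      have h3 : inner ℂ (a v) v = inner ℂ v (a v) := hsa.isSymmetric v v
      rw [← Complex.conj_eq_iff_im, inner_conj_symm]
      exact h3
    have h3 : ‖v‖ ^ 2 ≤ ‖v‖ * ‖w‖ := by
      have h4 : (inner ℂ v w).re = ‖v‖ ^ 2 := by
        rw [h1, inner_sub_right, inner_smul_right, inner_self_eq_norm_sq_to_K, Complex.sub_re,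
          Complex.mul_re, h2, Complex.I_re]
        have h5 : ((‖v‖ : ℂ) ^ 2).re = ‖v‖ ^ 2 := by
          rw [← Complex.ofReal_pow, Complex.ofReal_re]
        simp only [zero_mul, mul_zero, sub_zero]
        exact h5
      rw [← h4]
      exact (Complex.re_le_norm _).trans (norm_inner_le_norm _ _)
    by_contra hcon
    push Not at hcon
    have h5 : 0 < ‖v‖ := lt_of_le_of_lt (norm_nonneg _) hcon
    nlinarith
  · refine mem_of_comm M fun c hc => ?_
    refine inv_comm hr1 hr2 ?_
    have := hc a haM
    rw [mul_sub, sub_mul, mul_one, one_mul, mul_smul_comm, smul_mul_assoc, this]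

theorem t_cay : S_CAY := by
  intro H _ _ _ M x hx hsx hnx
  rcases subsingleton_or_nontrivial H with hH | hH
  · refine ⟨0, M.zero_mem, star_zero _, fun r _ _ => ?_⟩
    ext v
    exact Subsingleton.elim _ _
  have hsa : IsSelfAdjoint x := hsx
  have hnt : Nontrivial (H →L[ℂ] H) := inferInstance
  let g : ℝ → ℝ := fun t => t / (1 + Real.sqrt (1 - t ^ 2))
  have hg0 : ∀ t : ℝ, 1 + Real.sqrt (1 - t ^ 2) ≠ 0 := fun t => by
    have := Real.sqrt_nonneg (1 - t ^ 2)
    linarith
  have hgc : Continuous g := by
    refine Continuous.div continuous_id ?_ hg0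
    fun_prop
  have hspec : ∀ t ∈ spectrum ℝ x, |t| ≤ 1 := fun t ht => by
    have := spectrum.norm_le_norm_of_mem ht
    rw [Real.norm_eq_abs] at this
    exact this.trans hnx
  have hg1 : ∀ t ∈ spectrum ℝ x, t * (1 + g t * g t) = 2 * g t := by
    intro t ht
    have h1 : 0 ≤ 1 - t ^ 2 := by
      have := hspec t ht
      have := abs_le.1 this
      nlinarith
    have h2 := Real.mul_self_sqrt h1
    show t * (1 + t / (1 + Real.sqrt (1 - t ^ 2)) * (t / (1 + Real.sqrt (1 - t ^ 2)))) =
      2 * (t / (1 + Real.sqrt (1 - t ^ 2)))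
    have h3 := hg0 t
    set s := Real.sqrt (1 - t ^ 2)
    have h4 : t ^ 2 = 1 - s * s := by linarith
    have h5 : t / (1 + s) * (t / (1 + s)) = (1 - s * s) / ((1 + s) * (1 + s)) := by
      rw [div_mul_div_comm, ← h4]
      ring
    rw [h5]
    field_simp
    ring
  set a := cfc g x with ha
  have haa : star a = a := (cfc_predicate g x : IsSelfAdjoint (cfc g x))
  have hxa : x * (1 + a * a) = 2 • a := by
    have e1 : a * a = cfc (fun t => g t * g t) x := by
      rw [ha, ← cfc_mul g g x hgc.continuousOn hgc.continuousOn]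
    have e2 : (1 : H →L[ℂ] H) + a * a = cfc (fun t => 1 + g t * g t) x := by
      rw [e1, ← cfc_const_one ℝ x, ← cfc_add x (fun _ => 1) (fun t => g t * g t)
        continuousOn_const (hgc.mul hgc).continuousOn]
    have e3 : x * (1 + a * a) = cfc (fun t => t * (1 + g t * g t)) x := by
      rw [e2, cfc_mul (fun t => t) (fun t => 1 + g t * g t) x continuousOn_id
        (continuous_const.add (hgc.mul hgc)).continuousOn, cfc_id' ℝ x]
    rw [e3, cfc_congr (g := fun t => 2 * g t) hg1, cfc_const_mul (2 : ℝ) g x hgc.continuousOn,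
      ← ha]
    exact ofNat_smul_eq_nsmul ℝ 2 a
  refine ⟨a, mem_of_comm M fun c hc => ?_, haa, fun r hr1 hr2 => ?_⟩
  · have h1 : Commute x c := hc x hx
    have h2 : Commute (cfc g x) c := h1.cfc_real g
    exact h2.symm.eq
  · have hu : a * (1 - Complex.I • a) = (1 - Complex.I • a) * a := by
      rw [mul_sub, sub_mul, mul_one, one_mul, mul_smul_comm, smul_mul_assoc]
    have hra : a * r = r * a := inv_comm hr1 hr2 hu
    have hs1 : star r * (1 + Complex.I • a) = 1 := by
      have := congrArg star hr1
      rwa [star_mul, star_u haa, star_one] at this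
    have hs2 : (1 + Complex.I • a) * star r = 1 := by
      have := congrArg star hr2
      rwa [star_mul, star_u haa, star_one] at this
    have huu : (1 - Complex.I • a) * (1 + Complex.I • a) =
        (1 + Complex.I • a) * (1 - Complex.I • a) := by
      rw [sub_mul, one_mul, mul_add, mul_one, smul_mul_smul_comm, add_mul, one_mul, mul_sub,
        mul_one, smul_mul_smul_comm]
      abel
    have hprod : (1 - Complex.I • a) * (1 + Complex.I • a) = 1 + a * a := by
      rw [sub_mul, one_mul, mul_add, mul_one, smul_mul_smul_comm, Complex.I_mul_I, neg_smul,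
        one_smul]
      abel
    have hsr : star r * (1 - Complex.I • a) = (1 - Complex.I • a) * star r :=
      (inv_comm hs2 hs1 huu).symm
    have hrs : star r * r = r * star r := inv_comm hr1 hr2 hsr
    have h3 : x = 2 • (a * star r * r) := by
      calc x = x * ((1 - Complex.I • a) * ((1 + Complex.I • a) * star r) * r) := by
            rw [hs2, mul_one, hr1, mul_one]
        _ = x * ((1 - Complex.I • a) * (1 + Complex.I • a)) * (star r * r) := by noncomm_ring
        _ = 2 • (a * star r * r) := by
            rw [hprod, hxa, smul_mul_assoc, mul_assoc]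
    have h4 : r - star r = r * ((2 : ℂ) • (Complex.I • a)) * star r := by
      have e1 : (2 : ℂ) • (Complex.I • a) = (1 + Complex.I • a) - (1 - Complex.I • a) := by
        rw [two_smul]
        abel
      rw [e1, mul_sub, sub_mul, hr2, one_mul, mul_assoc, hs2, mul_one]
    rw [h4, mul_smul_comm, mul_smul_comm, smul_mul_assoc, smul_mul_assoc, smul_smul, smul_smul,
      ← hra]
    have e2 : -Complex.I * 2 * Complex.I = 2 := by
      have := Complex.I_mul_I
      linear_combination (-2 : ℂ) * this
    rw [e2, mul_assoc a r, ← hrs, ← mul_assoc]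
    conv_lhs => rw [h3]
    exact (ofNat_smul_eq_nsmul ℂ 2 _).symm

end

end Pool.Agent.N571.EX
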