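import Pool.Agent.N571.EX.Stm

/-!
# Project EX: formal properties of the lifts to the ultrapower (`S_RL1`)
-/

set_option autoImplicit false

namespace Pool.Agent.N571.EX

open Filter Topology
open scoped InnerProductSpace ComplexOrder
open Pool.Agent.H494R3.GT (L2 dl)
open Pool.Agent.N557.QW (lam rgt LG LK cf rc)

namespace RL1

variable {G : Type} [Group G]

omit [Group G] in
theorem smul_mem' (M : VonNeumannAlgebra (L2 G)) (c : ℂ) {x : L2 G →L[ℂ] L2 G} (hx : x ∈ M) :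
    c • x ∈ M := M.toStarSubalgebra.smul_mem hx c

/-- the estimate for products -/
theorem prod_est (K : Subgroup G) (h : S_TR) {a a' b b' : L2 G →L[ℂ] L2 G} (ha : a ∈ LG G)
    (ha' : a' ∈ LG G) (hb : b ∈ LG G) :
    ‖(a * a') (dl (1 : G)) - (b * b') (dl (1 : G))‖
      ≤ ‖a'‖ * ‖a (dl (1 : G)) - b (dl (1 : G))‖ + ‖b‖ * ‖a' (dl (1 : G)) - b' (dl (1 : G))‖ := by
  have h5 := (h G K).2.2.2.2.1
  have e : (a * a') (dl (1 : G)) - (b * b') (dl (1 : G))
      = ((a - b) * a') (dl (1 : G)) + b (a' (dl (1 : G)) - b' (dl (1 : G))) := by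
    rw [map_sub]
    change a (a' _) - b (b' _) = (a (a' _) - b (a' _)) + (b (a' _) - b (b' _))
    abel
  rw [e]
  refine (norm_add_le _ _).trans (add_le_add ?_ (b.le_opNorm _))
  exact h5 (a - b) (sub_mem ha hb) a' ha'

end RL1

open RL1 in
theorem t_rl1 (h : S_TR) (h2 : S_PF) : S_RL1 := by
  intro G _ K Kn θ hθ
  obtain ⟨hLK, hTr, -, hst, -, -⟩ := h G K
  obtain ⟨f1, f2, f3, f4, f5, f6, f7, f8, f9, f10, f11⟩ := h2 G K Kn θ hθ
  have hsub : ∀ x : L2 G →L[ℂ] L2 G, x ∈ LK K → x ∈ LG G := fun x hx => ((hLK x).1 hx).1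
  have hΩ : ‖dl (1 : G)‖ = 1 := hTr.unit
  refine ⟨?_, ?_, ?_, ?_, ?_, ?_, ?_⟩
  · -- sums
    rintro x x' y y' ⟨⟨C, hC⟩, hm, hr⟩ ⟨⟨C', hC'⟩, hm', hr'⟩
    refine ⟨⟨C + C', fun n => (norm_add_le _ _).trans (add_le_add (hC n) (hC' n))⟩,
      fun n => add_mem (hm n) (hm' n), ?_⟩
    intro ε hε
    obtain ⟨p, hp, hpn⟩ := hr (ε / 2) (half_pos hε)
    obtain ⟨q, hq, hqn⟩ := hr' (ε / 2) (half_pos hε)
    have key : ∀ a a' b b' : L2 G →L[ℂ] L2 G,
        ‖a (dl (1 : G)) - b (dl (1 : G))‖ < ε / 2 → ‖a' (dl (1 : G)) - b' (dl (1 : G))‖ < ε / 2 →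
        ‖(a + a') (dl (1 : G)) - (b + b') (dl (1 : G))‖ < ε := by
      intro a a' b b' h1 h2
      have e : (a + a') (dl (1 : G)) - (b + b') (dl (1 : G))
          = (a (dl (1 : G)) - b (dl (1 : G))) + (a' (dl (1 : G)) - b' (dl (1 : G))) := by
        change (a _ + a' _) - (b _ + b' _) = _
        abel
      rw [e]
      exact (norm_add_le _ _).trans_lt (by linarith)
    refine ⟨p + q, ?_, ?_⟩
    · rw [f5]
      exact key _ _ _ _ hp hq
    · filter_upwards [hpn, hqn] with n h1 h2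
      rw [f5]
      exact key _ _ _ _ h1 h2
  · -- scalars
    rintro c x y ⟨⟨C, hC⟩, hm, hr⟩
    refine ⟨⟨‖c‖ * C, fun n => ?_⟩, fun n => smul_mem' _ c (hm n), ?_⟩
    · rw [norm_smul]
      exact mul_le_mul_of_nonneg_left (hC n) (norm_nonneg c)
    intro ε hε
    have hc1 : 0 < ‖c‖ + 1 := by positivity
    obtain ⟨p, hp, hpn⟩ := hr (ε / (‖c‖ + 1)) (div_pos hε hc1)
    have key : ∀ a b : L2 G →L[ℂ] L2 G,
        ‖a (dl (1 : G)) - b (dl (1 : G))‖ < ε / (‖c‖ + 1) →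
        ‖(c • a) (dl (1 : G)) - (c • b) (dl (1 : G))‖ < ε := by
      intro a b h1
      have e : (c • a) (dl (1 : G)) - (c • b) (dl (1 : G))
          = c • (a (dl (1 : G)) - b (dl (1 : G))) := by
        change c • a _ - c • b _ = _
        rw [smul_sub]
      rw [e, norm_smul]
      calc ‖c‖ * ‖a (dl (1 : G)) - b (dl (1 : G))‖ ≤ ‖c‖ * (ε / (‖c‖ + 1)) :=
            mul_le_mul_of_nonneg_left h1.le (norm_nonneg c)
        _ < (‖c‖ + 1) * (ε / (‖c‖ + 1)) :=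
            mul_lt_mul_of_pos_right (lt_add_one _) (div_pos hε hc1)
        _ = ε := mul_div_cancel₀ ε hc1.ne'
    refine ⟨c • p, ?_, ?_⟩
    · rw [f6]
      exact key _ _ hp
    · filter_upwards [hpn] with n h1
      rw [f6]
      exact key _ _ h1
  · -- adjoints
    rintro x y hx ⟨⟨C, hC⟩, hm, hr⟩
    refine ⟨⟨C, fun n => (norm_star (y n)).trans_le (hC n)⟩, fun n => star_mem (hm n), ?_⟩
    intro ε hε
    obtain ⟨p, hp, hpn⟩ := hr ε hε
    obtain ⟨r, hr1, hr2⟩ := f8 p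
    have key : ∀ a b : L2 G →L[ℂ] L2 G, a ∈ LG G → b ∈ LG G →
        ‖(star a) (dl (1 : G)) - (star b) (dl (1 : G))‖ = ‖a (dl (1 : G)) - b (dl (1 : G))‖ := by
      intro a b ha hb
      have e := hst (a - b) (sub_mem ha hb)
      rw [star_sub] at e
      exact e
    refine ⟨r, ?_, ?_⟩
    · rw [hr1, key x _ hx (f1 _ _)]
      exact hp
    · filter_upwards [hpn, hr2] with n h1 h2
      rw [h2, key (y n) _ (hsub _ (hm n)) (f1 _ _)]
      exact h1
  · -- products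
    rintro x x' y y' hx hx' ⟨⟨C, hC⟩, hm, hr⟩ ⟨⟨C', hC'⟩, hm', hr'⟩
    have hC0 : 0 ≤ C := (norm_nonneg _).trans (hC 0)
    have hC0' : 0 ≤ C' := (norm_nonneg _).trans (hC' 0)
    refine ⟨⟨C * C', fun n => (norm_mul_le _ _).trans
      (mul_le_mul (hC n) (hC' n) (norm_nonneg _) hC0)⟩, fun n => mul_mem (hm n) (hm' n), ?_⟩
    intro ε hε
    have hd1 : 0 < ‖x'‖ + C' + 1 := by positivity
    obtain ⟨p, hp, hpn⟩ := hr (ε / 2 / (‖x'‖ + C' + 1)) (by positivity)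
    obtain ⟨B, hB⟩ := f3 p
    have hB0 : 0 ≤ B := (norm_nonneg _).trans (hB id)
    have hd2 : 0 < B + 1 := by positivity
    obtain ⟨q, hq, hqn⟩ := hr' (ε / 2 / (B + 1)) (by positivity)
    obtain ⟨r, hr1, hr2⟩ := f7 p q
    have key : ∀ a a' b b' : L2 G →L[ℂ] L2 G, a ∈ LG G → a' ∈ LG G → b ∈ LG G →
        ‖a'‖ ≤ ‖x'‖ + C' → ‖b‖ ≤ B →
        ‖a (dl (1 : G)) - b (dl (1 : G))‖ < ε / 2 / (‖x'‖ + C' + 1) →
        ‖a' (dl (1 : G)) - b' (dl (1 : G))‖ < ε / 2 / (B + 1) →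
        ‖(a * a') (dl (1 : G)) - (b * b') (dl (1 : G))‖ < ε := by
      intro a a' b b' ha ha' hb hna hnb h1 h2
      refine (prod_est K h ha ha' hb).trans_lt ?_
      have e1 : ‖a'‖ * ‖a (dl (1 : G)) - b (dl (1 : G))‖ ≤ ε / 2 := by
        calc ‖a'‖ * ‖a (dl (1 : G)) - b (dl (1 : G))‖
            ≤ (‖x'‖ + C' + 1) * (ε / 2 / (‖x'‖ + C' + 1)) :=
              mul_le_mul (by linarith) h1.le (norm_nonneg _) hd1.le
          _ = ε / 2 := mul_div_cancel₀ _ hd1.ne'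
      have e2 : ‖b‖ * ‖a' (dl (1 : G)) - b' (dl (1 : G))‖ < ε / 2 := by
        calc ‖b‖ * ‖a' (dl (1 : G)) - b' (dl (1 : G))‖ ≤ B * (ε / 2 / (B + 1)) :=
              mul_le_mul hnb h2.le (norm_nonneg _) hB0
          _ < (B + 1) * (ε / 2 / (B + 1)) :=
              mul_lt_mul_of_pos_right (lt_add_one _) (by positivity)
          _ = ε / 2 := mul_div_cancel₀ _ hd2.ne'
      linarith
    refine ⟨r, ?_, ?_⟩
    · rw [hr1]
      exact key _ _ _ _ hx hx' (f1 _ _) (by linarith) (hB _) hp hq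
    · filter_upwards [hpn, hqn, hr2] with n h1 h2 h3
      rw [h3]
      exact key _ _ _ _ (hsub _ (hm n)) (hsub _ (hm' n)) (f1 _ _)
        ((hC' n).trans (by linarith [norm_nonneg x'])) (hB _) h1 h2
  · -- uniqueness
    rintro x y y' ⟨-, hm, hr⟩ ⟨-, hm', hr'⟩
    rw [Metric.tendsto_nhds]
    intro ε hε
    obtain ⟨p, hp, hpn⟩ := hr (ε / 4) (by positivity)
    obtain ⟨q, hq, hqn⟩ := hr' (ε / 4) (by positivity)
    have hpq : ∀ f : G → G, pf f (p + (-1 : ℂ) • q) (dl (1 : G))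
        = pf f p (dl (1 : G)) - pf f q (dl (1 : G)) := by
      intro f
      rw [f5, f6]
      change pf f p (dl (1 : G)) + (-1 : ℂ) • pf f q (dl (1 : G)) = _
      rw [neg_one_smul, sub_eq_add_neg]
    have h0 : ‖pf id (p + (-1 : ℂ) • q) (dl (1 : G))‖ < ε / 2 := by
      rw [hpq]
      have e : pf id p (dl (1 : G)) - pf id q (dl (1 : G))
          = (x (dl (1 : G)) - pf id q (dl (1 : G))) - (x (dl (1 : G)) - pf id p (dl (1 : G))) := by
        abel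
      rw [e]
      exact (norm_sub_le _ _).trans_lt (by linarith)
    filter_upwards [hpn, hqn, f4 (p + (-1 : ℂ) • q)] with n h1 h2 h3
    rw [Real.dist_eq, sub_zero, abs_norm]
    have e : (y n - y' n) (dl (1 : G))
        = ((y n) (dl (1 : G)) - pf (θ n) p (dl (1 : G)))
          + pf (θ n) (p + (-1 : ℂ) • q) (dl (1 : G))
          - ((y' n) (dl (1 : G)) - pf (θ n) q (dl (1 : G))) := by
      rw [hpq]
      change (y n) _ - (y' n) _ = _
      abel
    rw [e]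
    refine (norm_sub_le _ _).trans_lt ?_
    have e2 := norm_add_le ((y n) (dl (1 : G)) - pf (θ n) p (dl (1 : G)))
      (pf (θ n) (p + (-1 : ℂ) • q) (dl (1 : G)))
    rw [h3] at e2
    linarith
  · -- trace
    rintro x y ⟨-, hm, hr⟩
    have hcc : ∀ p : G →₀ ℂ, ∀ᶠ n in atTop,
        ⟪dl (1 : G), pf (θ n) p (dl (1 : G))⟫_ℂ = ⟪dl (1 : G), pf id p (dl (1 : G))⟫_ℂ := by
      intro p
      obtain ⟨r, hr1, hr2⟩ := f10
      have hcn : ∀ c : ℂ, ∀ᶠ n in atTop, ‖dl (1 : G) + c • pf (θ n) p (dl (1 : G))‖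
          = ‖dl (1 : G) + c • pf id p (dl (1 : G))‖ := by
        intro c
        filter_upwards [f4 (r + c • p), hr2] with n h1 h2
        rw [f5, f5, f6, f6, hr1, h2] at h1
        exact h1
      filter_upwards [hcn 1, hcn (-1), hcn Complex.I, hcn (-Complex.I)] with n h1 h2 h3 h4
      rw [inner_eq_sum_norm_sq_div_four (dl (1 : G)) (pf (θ n) p (dl (1 : G))),
        inner_eq_sum_norm_sq_div_four (dl (1 : G)) (pf id p (dl (1 : G)))]
      rw [one_smul, one_smul] at h1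
      rw [neg_one_smul, neg_one_smul, ← sub_eq_add_neg, ← sub_eq_add_neg] at h2
      rw [neg_smul, neg_smul, ← sub_eq_add_neg, ← sub_eq_add_neg] at h4
      rw [h1, h2]
      change ((_ : ℂ) - _ + ((‖dl (1 : G) - Complex.I • pf (θ n) p (dl (1 : G))‖ : ℂ) ^ 2
        - (‖dl (1 : G) + Complex.I • pf (θ n) p (dl (1 : G))‖ : ℂ) ^ 2) * Complex.I) / 4
        = ((_ : ℂ) - _ + ((‖dl (1 : G) - Complex.I • pf id p (dl (1 : G))‖ : ℂ) ^ 2
        - (‖dl (1 : G) + Complex.I • pf id p (dl (1 : G))‖ : ℂ) ^ 2) * Complex.I) / 4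
      rw [h3, h4]
    rw [Metric.tendsto_nhds]
    intro ε hε
    obtain ⟨p, hp, hpn⟩ := hr (ε / 2) (half_pos hε)
    filter_upwards [hpn, hcc p] with n h1 h2
    rw [dist_eq_norm]
    have e : ⟪dl (1 : G), (y n) (dl 1)⟫_ℂ - ⟪dl (1 : G), x (dl 1)⟫_ℂ
        = ⟪dl (1 : G), (y n) (dl 1) - pf (θ n) p (dl (1 : G))⟫_ℂ
          - ⟪dl (1 : G), x (dl 1) - pf id p (dl (1 : G))⟫_ℂ := by
      rw [inner_sub_right, inner_sub_right, h2]
      ring
    rw [e]
    refine (norm_sub_le _ _).trans_lt ?_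
    have e1 := norm_inner_le_norm (𝕜 := ℂ) (dl (1 : G)) ((y n) (dl 1) - pf (θ n) p (dl (1 : G)))
    have e2 := norm_inner_le_norm (𝕜 := ℂ) (dl (1 : G)) (x (dl 1) - pf id p (dl (1 : G)))
    rw [hΩ, one_mul] at e1 e2
    linarith
  · -- constants
    intro x hx
    refine ⟨⟨‖x‖, fun _ => le_rfl⟩, fun _ => hx, ?_⟩
    intro ε hε
    obtain ⟨p, hp, -, hs⟩ := f11 x (hsub x hx) ε hε
    refine ⟨p, hp, ?_⟩
    filter_upwards [f9 p (hs hx)] with n h1
    rw [h1]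
    exact hp

end Pool.Agent.N571.EX
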