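import Pool.Agent.N571.EX.Stm

/-!
# Project EX: lifts of resolvents and diagonal sequences
-/

set_option autoImplicit false

namespace Pool.Agent.N571.EX

open Filter Topology
open scoped InnerProductSpace ComplexOrder
open Pool.Agent.H494R3.GT (L2 dl)
open Pool.Agent.N557.QW (lam rgt LG LK cf rc)

noncomputable section

theorem rl2_res (h1 : S_RES) (h2 : S_PF) (G : Type) [Group G] (K : Subgroup G)
    (Kn : ℕ → Subgroup G) (θ : ℕ → G → G) (hE : ExD G K Kn θ) (p : G →₀ ℂ)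
    (hs : star (pf id p) = pf id p) (hsn : ∀ᶠ n in atTop, star (pf (θ n) p) = pf (θ n) p)
    (r : L2 G →L[ℂ] L2 G) (hr1 : (1 - Complex.I • pf id p) * r = 1)
    (hr2 : r * (1 - Complex.I • pf id p) = 1) :
    ∃ y : ℕ → L2 G →L[ℂ] L2 G, (∀ n, ‖y n‖ ≤ 1) ∧ Rel K θ r y := by
  obtain ⟨hLG, hLK, -, hnorm, hadd, hsmul, hmul, -, -, ⟨r1, hr1id, hr1n⟩, hden⟩ :=
    h2 G K Kn θ hE
  obtain ⟨r', h1', h2', h3', h4'⟩ := h1 (L2 G) (pf id p) hs
  have hrr : r = r' := by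
    calc r = r * ((1 - Complex.I • pf id p) * r') := by rw [h1', mul_one]
      _ = r' := by rw [← mul_assoc, hr2, one_mul]
  have hrG : r ∈ LG G := by
    rw [hrr]; exact h4' (LG G) (hLG id p)
  have hy : ∀ n : ℕ, ∃ y : L2 G →L[ℂ] L2 G, ‖y‖ ≤ 1 ∧ y ∈ LK K ∧
      (star (pf (θ n) p) = pf (θ n) p → y * (1 - Complex.I • pf (θ n) p) = 1) := by
    intro n
    by_cases hn : star (pf (θ n) p) = pf (θ n) p
    · obtain ⟨y, -, hy2, hy3, hy4⟩ := h1 (L2 G) (pf (θ n) p) hn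
      exact ⟨y, hy3, hy4 (LK K) (hLK n p), fun _ => hy2⟩
    · refine ⟨0, by simp, zero_mem (LK K).toStarSubalgebra, fun h => absurd h hn⟩
  choose y hy1 hy2 hy3 using hy
  refine ⟨y, hy1, ⟨1, hy1⟩, hy2, ?_⟩
  intro ε hε
  set P : L2 G →L[ℂ] L2 G := pf id p with hP
  have hPn : 0 ≤ ‖P‖ := norm_nonneg _
  set e : ℝ := ε / (2 * (‖P‖ + 2)) with he
  have he0 : 0 < e := by positivity
  have hee : e ≤ ε := by
    rw [he, div_le_iff₀ (by positivity)]
    nlinarith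
  have hee2 : (1 + ‖P‖) * e < ε := by
    rw [he, ← mul_div_assoc, div_lt_iff₀ (by positivity)]
    nlinarith
  obtain ⟨b, hb, -⟩ := hden r hrG e he0
  refine ⟨b, lt_of_lt_of_le hb hee, ?_⟩
  obtain ⟨q, hq, hqn⟩ := hmul p b
  have hd : ∀ f : G → G, pf f (b + ((-Complex.I) • q + (-1 : ℂ) • r1)) =
      pf f b + ((-Complex.I) • pf f q + (-1 : ℂ) • pf f r1) := by
    intro f
    rw [hadd, hadd, hsmul, hsmul]
  have hid : pf id (b + ((-Complex.I) • q + (-1 : ℂ) • r1)) = (1 - Complex.I • P) * (pf id b - r) := by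
    rw [hd, hq, hr1id, mul_sub, hr1, sub_mul, one_mul, smul_mul_assoc]
    module
  have hdn : ‖pf id (b + ((-Complex.I) • q + (-1 : ℂ) • r1)) (dl (1 : G))‖ < ε := by
    rw [hid]
    have h5 : ‖(1 - Complex.I • P : L2 G →L[ℂ] L2 G)‖ ≤ 1 + ‖P‖ := by
      refine (norm_sub_le _ _).trans ?_
      rw [norm_smul, Complex.norm_I, one_mul]
      gcongr
      exact ContinuousLinearMap.norm_id_le
    calc ‖((1 - Complex.I • P) * (pf id b - r)) (dl (1 : G))‖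
        = ‖(1 - Complex.I • P : L2 G →L[ℂ] L2 G) ((pf id b - r) (dl (1 : G)))‖ := rfl
      _ ≤ ‖(1 - Complex.I • P : L2 G →L[ℂ] L2 G)‖ * ‖(pf id b - r) (dl (1 : G))‖ :=
          ContinuousLinearMap.le_opNorm _ _
      _ ≤ (1 + ‖P‖) * e := by
          gcongr
          rw [ContinuousLinearMap.sub_apply, norm_sub_rev]
          exact hb.le
      _ < ε := hee2
  filter_upwards [hsn, hqn, hr1n, hnorm (b + ((-Complex.I) • q + (-1 : ℂ) • r1))]
    with n h5 h6 h7 h8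
  have h9 : y n * pf (θ n) (b + ((-Complex.I) • q + (-1 : ℂ) • r1)) = pf (θ n) b - y n := by
    have h10 : pf (θ n) (b + ((-Complex.I) • q + (-1 : ℂ) • r1)) =
        (1 - Complex.I • pf (θ n) p) * pf (θ n) b - 1 := by
      rw [hd, h6, h7, sub_mul, one_mul, smul_mul_assoc]
      module
    rw [h10, mul_sub, ← mul_assoc, hy3 n h5, one_mul, mul_one]
  calc ‖(y n) (dl (1 : G)) - pf (θ n) b (dl (1 : G))‖
      = ‖(pf (θ n) b - y n) (dl (1 : G))‖ := by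
        rw [ContinuousLinearMap.sub_apply, norm_sub_rev]
    _ = ‖(y n) (pf (θ n) (b + ((-Complex.I) • q + (-1 : ℂ) • r1)) (dl (1 : G)))‖ := by
        rw [← h9]; rfl
    _ ≤ ‖y n‖ * ‖pf (θ n) (b + ((-Complex.I) • q + (-1 : ℂ) • r1)) (dl (1 : G))‖ :=
        ContinuousLinearMap.le_opNorm _ _
    _ ≤ 1 * ‖pf (θ n) (b + ((-Complex.I) • q + (-1 : ℂ) • r1)) (dl (1 : G))‖ := by
        gcongr
        exact hy1 n
    _ < ε := by rw [one_mul, h8]; exact hdn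

theorem rl2_diag (h2 : S_PF) (G : Type) [Group G] (K : Subgroup G)
    (Kn : ℕ → Subgroup G) (θ : ℕ → G → G) (hE : ExD G K Kn θ)
    (x : L2 G →L[ℂ] L2 G) (xk : ℕ → L2 G →L[ℂ] L2 G) (y : ℕ → ℕ → L2 G →L[ℂ] L2 G)
    (hx : Tendsto (fun k => ‖(xk k) (dl 1) - x (dl 1)‖) atTop (𝓝 0))
    (hy : ∀ k n, ‖y k n‖ ≤ 1) (hR : ∀ k, Rel K θ (xk k) (y k)) :
    ∃ z : ℕ → L2 G →L[ℂ] L2 G, (∀ n, ‖z n‖ ≤ 1) ∧ Rel K θ x z := by
  obtain ⟨hLG, hLK, -, hnorm, hadd, hsmul, hmul, -, -, -, -⟩ := h2 G K Kn θ hE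
  have hp : ∀ k : ℕ, ∃ p : G →₀ ℂ, ‖(xk k) (dl 1) - pf id p (dl (1 : G))‖ < (1 / 2 : ℝ) ^ k ∧
      ∀ᶠ n in atTop, ‖(y k n) (dl 1) - pf (θ n) p (dl (1 : G))‖ < (1 / 2 : ℝ) ^ k :=
    fun k => (hR k).2.2 _ (by positivity)
  choose p hp1 hp2 using hp
  have hpp : ∀ k j : ℕ, ∀ᶠ n in atTop,
      ‖pf (θ n) (p k) (dl (1 : G)) - pf (θ n) (p j) (dl (1 : G))‖ =
        ‖pf id (p k) (dl (1 : G)) - pf id (p j) (dl (1 : G))‖ := by
    intro k j
    have h3 : ∀ f : G → G, pf f (p k + (-1 : ℂ) • p j) (dl (1 : G)) =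
        pf f (p k) (dl (1 : G)) - pf f (p j) (dl (1 : G)) := by
      intro f
      rw [hadd, hsmul, ContinuousLinearMap.add_apply, ContinuousLinearMap.smul_apply]
      module
    filter_upwards [hnorm (p k + (-1 : ℂ) • p j)] with n hn
    rwa [h3, h3] at hn
  have hQ : ∀ k : ℕ, ∀ᶠ m in atTop, ∀ n, m ≤ n →
      (∀ i ∈ Finset.range (k + 1),
        ‖(y i n) (dl 1) - pf (θ n) (p i) (dl (1 : G))‖ < (1 / 2 : ℝ) ^ i) ∧
      (∀ i ∈ Finset.range (k + 1), ∀ j ∈ Finset.range (k + 1),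
        ‖pf (θ n) (p i) (dl (1 : G)) - pf (θ n) (p j) (dl (1 : G))‖ =
        ‖pf id (p i) (dl (1 : G)) - pf id (p j) (dl (1 : G))‖) := by
    intro k
    have h3 : ∀ᶠ n in atTop, (∀ i ∈ Finset.range (k + 1),
        ‖(y i n) (dl 1) - pf (θ n) (p i) (dl (1 : G))‖ < (1 / 2 : ℝ) ^ i) ∧
      (∀ i ∈ Finset.range (k + 1), ∀ j ∈ Finset.range (k + 1),
        ‖pf (θ n) (p i) (dl (1 : G)) - pf (θ n) (p j) (dl (1 : G))‖ =
        ‖pf id (p i) (dl (1 : G)) - pf id (p j) (dl (1 : G))‖) := by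
      refine Filter.Eventually.and ?_ ?_
      · rw [Filter.eventually_all_finset]
        exact fun i _ => hp2 i
      · rw [Filter.eventually_all_finset]
        intro i _
        rw [Filter.eventually_all_finset]
        exact fun j _ => hpp i j
    obtain ⟨m, hm⟩ := Filter.eventually_atTop.1 h3
    exact Filter.eventually_atTop.2 ⟨m, fun m' hm' n hn => hm n (hm'.trans hn)⟩
  obtain ⟨φ, hφ, hφQ⟩ := Filter.extraction_forall_of_eventually hQ
  set κ : ℕ → ℕ := fun n => Nat.findGreatest (fun k => φ k ≤ n) n with hκ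
  refine ⟨fun n => y (κ n) n, fun n => hy _ _, ⟨1, fun n => hy _ _⟩, fun n => (hR (κ n)).2.1 n, ?_⟩
  intro ε hε
  have h4 : ∀ᶠ k in atTop, (1 / 2 : ℝ) ^ k < ε / 8 :=
    (tendsto_pow_atTop_nhds_zero_of_lt_one (by norm_num) (by norm_num)).eventually_lt_const
      (by positivity)
  have h5 : ∀ᶠ k in atTop, ‖(xk k) (dl 1) - x (dl (1 : G))‖ < ε / 8 :=
    hx.eventually_lt_const (by positivity)
  obtain ⟨j, hj⟩ := Filter.eventually_atTop.1 (h4.and h5)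
  have hj4 := (hj j le_rfl).1
  have hj5 := (hj j le_rfl).2
  have hA : ‖x (dl (1 : G)) - pf id (p j) (dl (1 : G))‖ < ε / 4 := by
    have := norm_sub_le_norm_sub_add_norm_sub (x (dl (1 : G))) ((xk j) (dl (1 : G)))
      (pf id (p j) (dl (1 : G)))
    rw [norm_sub_rev] at hj5
    have := hp1 j
    linarith
  refine ⟨p j, by linarith, ?_⟩
  filter_upwards [Filter.eventually_ge_atTop (max (φ j) j)] with n hn
  have hn1 : φ j ≤ n := (le_max_left _ _).trans hn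
  have hn2 : j ≤ n := (le_max_right _ _).trans hn
  have hkj : j ≤ κ n := Nat.le_findGreatest hn2 hn1
  have hkn : φ (κ n) ≤ n :=
    Nat.findGreatest_spec (P := fun k => φ k ≤ n) (m := j) hn2 hn1
  obtain ⟨hq1, hq2⟩ := hφQ (κ n) n hkn
  have h6 := hq1 (κ n) (Finset.mem_range.2 (Nat.lt_succ_self _))
  have h7 := hq2 (κ n) (Finset.mem_range.2 (Nat.lt_succ_self _)) j
    (Finset.mem_range.2 (Nat.lt_succ_of_le hkj))
  have h8 := (hj (κ n) hkj).1
  have h9 := (hj (κ n) hkj).2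
  have h10 := hp1 (κ n)
  have h11 : ‖pf id (p (κ n)) (dl (1 : G)) - pf id (p j) (dl (1 : G))‖ < ε / 2 := by
    have e1 := norm_sub_le_norm_sub_add_norm_sub (pf id (p (κ n)) (dl (1 : G)))
      ((xk (κ n)) (dl (1 : G))) (pf id (p j) (dl (1 : G)))
    have e2 := norm_sub_le_norm_sub_add_norm_sub ((xk (κ n)) (dl (1 : G)))
      (x (dl (1 : G))) (pf id (p j) (dl (1 : G)))
    rw [norm_sub_rev] at h10
    linarith
  have h12 := norm_sub_le_norm_sub_add_norm_sub ((y (κ n) n) (dl (1 : G)))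
      (pf (θ n) (p (κ n)) (dl (1 : G))) (pf (θ n) (p j) (dl (1 : G)))
  rw [h7] at h12
  linarith

theorem t_rl2 (_h : S_TR) (h1 : S_RES) (h2 : S_PF) : S_RL2 := by
  intro G _ K Kn θ hE
  exact ⟨fun p hs hsn r hr1 hr2 => rl2_res h1 h2 G K Kn θ hE p hs hsn r hr1 hr2,
    fun x xk y hx hy hR => rl2_diag h2 G K Kn θ hE x xk y hx hy hR⟩

end

end Pool.Agent.N571.EX
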