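import Pool.Agent.N571.EX.Stm

/-!
# TR: the trace of `L(G)` and of `L(K)`
-/

set_option autoImplicit false

namespace Pool.Agent.N571.EX

open Filter Topology
open scoped InnerProductSpace ComplexOrder
open Pool.Agent.H494R3.GT (L2 dl inner_dl vec_ext op_ext op_ext_inner dl_orthonormal mul_ap MM
  MM_dl star_MM)
open Pool.Agent.N557.QW (lam rgt LG LK cf rc mem_LG mem_LG_iff star_rgt rgt_dl)

namespace TRx

variable {G : Type} [Group G]

theorem ap_dl {x : L2 G →L[ℂ] L2 G} (hx : x ∈ LG G) (s : G) :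
    x (dl s) = rgt s (x (dl 1)) := by
  have := congrArg (fun y : L2 G →L[ℂ] L2 G => y (dl 1)) (mem_LG.1 hx s)
  simp only [mul_ap, rgt_dl, one_mul] at this
  exact this.symm

theorem star_ap {x : L2 G →L[ℂ] L2 G} (hx : x ∈ LG G) (g : G) :
    (star x (dl 1) : L2 G) g = (starRingEnd ℂ) ((x (dl 1) : L2 G) g⁻¹) := by
  have h1 := mem_LG_iff.1 hx g 1
  rw [one_mul] at h1
  unfold cf at h1
  rw [inner_dl g⁻¹] at h1
  rw [← inner_dl, ContinuousLinearMap.star_eq_adjoint, ContinuousLinearMap.adjoint_inner_right,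
    ← h1, inner_conj_symm]

theorem norm_star {x : L2 G →L[ℂ] L2 G} (hx : x ∈ LG G) :
    ‖(star x) (dl (1 : G))‖ = ‖x (dl 1)‖ := by
  have h1 := lp.norm_rpow_eq_tsum (p := 2) (by norm_num) ((star x) (dl (1 : G)))
  have h2 := lp.norm_rpow_eq_tsum (p := 2) (by norm_num) (x (dl (1 : G)))
  have h3 : ∑' i, ‖((star x) (dl (1 : G)) : L2 G) i‖ ^ (2 : ENNReal).toReal =
      ∑' i, ‖(x (dl (1 : G)) : L2 G) i‖ ^ (2 : ENNReal).toReal := by
    rw [← Equiv.tsum_eq (Equiv.inv G) fun i => ‖(x (dl (1 : G)) : L2 G) i‖ ^ (2 : ENNReal).toReal]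
    refine tsum_congr fun i => ?_
    rw [star_ap hx, RCLike.norm_conj]
    rfl
  rw [h3, ← h2] at h1
  have h4 : (2 : ENNReal).toReal = 2 := by norm_num
  rw [h4] at h1
  exact (Real.rpow_left_inj (norm_nonneg _) (norm_nonneg _) two_ne_zero).1 h1

theorem inner_eq {x y : L2 G →L[ℂ] L2 G} (hx : x ∈ LG G) :
    ⟪dl (1 : G), (x * y) (dl 1)⟫_ℂ =
      ∑' g : G, (x (dl 1) : L2 G) g⁻¹ * (y (dl 1) : L2 G) g := by
  rw [mul_ap, ← ContinuousLinearMap.adjoint_inner_left, ← ContinuousLinearMap.star_eq_adjoint,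
    lp.inner_eq_tsum]
  refine tsum_congr fun g => ?_
  rw [star_ap hx, RCLike.inner_apply, RCLike.conj_conj, mul_comm]

theorem tracial {x y : L2 G →L[ℂ] L2 G} (hx : x ∈ LG G) (hy : y ∈ LG G) :
    ⟪dl (1 : G), (x * y) (dl 1)⟫_ℂ = ⟪dl (1 : G), (y * x) (dl 1)⟫_ℂ := by
  rw [inner_eq hx, inner_eq hy,
    ← Equiv.tsum_eq (Equiv.inv G) fun g => (y (dl 1) : L2 G) g⁻¹ * (x (dl 1) : L2 G) g]
  refine tsum_congr fun g => ?_
  change _ = (y (dl 1) : L2 G) (g⁻¹)⁻¹ * (x (dl 1) : L2 G) g⁻¹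
  rw [inv_inv, mul_comm]

theorem faithful {x : L2 G →L[ℂ] L2 G} (hx : x ∈ LG G) (h : x (dl (1 : G)) = 0) : x = 0 := by
  refine op_ext fun s => ?_
  rw [ap_dl hx, h, map_zero]
  rfl

theorem norm_dl (g : G) : ‖(dl g : L2 G)‖ = 1 :=
  (dl_orthonormal (f := fun g : G => g) fun _ _ h => h).1 g

theorem isTrace_LG : IsTrace (LG G) (dl (1 : G)) where
  unit := norm_dl 1
  tracial := fun _ hx _ hy => tracial hx hy
  faithful := fun _ hx h => faithful hx h

theorem norm_mul {x y : L2 G →L[ℂ] L2 G} (hx : x ∈ LG G) (hy : y ∈ LG G) :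
    ‖(x * y) (dl (1 : G))‖ ≤ ‖y‖ * ‖x (dl 1)‖ := by
  rw [← norm_star (mul_mem hx hy), star_mul, mul_ap, ← norm_star hx, ← norm_star' y]
  exact (star y).le_opNorm _
where
  norm_star' (y : L2 G →L[ℂ] L2 G) : ‖star y‖ = ‖y‖ := _root_.norm_star y

theorem mem_LK (K : Subgroup G) {x : L2 G →L[ℂ] L2 G} :
    x ∈ LK K ↔ (∀ g : G, rgt g * x = x * rgt g) ∧
      ∀ c : G, MM (rc K c) * x = x * MM (rc K c) := by
  change x ∈ Set.centralizer _ ↔ _
  rw [Set.mem_centralizer_iff]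
  constructor
  · intro h
    exact ⟨fun g => h _ (Or.inl (Or.inl ⟨g, rfl⟩)), fun c => h _ (Or.inl (Or.inr ⟨c, rfl⟩))⟩
  · rintro ⟨h1, h2⟩ m ((⟨g, rfl⟩ | ⟨c, rfl⟩) | (⟨g, hg⟩ | ⟨c, hc⟩))
    · exact h1 g
    · exact h2 c
    · have : m = rgt g⁻¹ := by
        rw [← star_rgt, hg, star_star]
      rw [this]; exact h1 _
    · have : m = MM (rc K c) := by
        have h3 : MM (rc K c) = star m := hc
        rw [← star_star m, ← h3, star_MM]
      rw [this]; exact h2 _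

theorem inner_MM (A : Set G) (t : G) (v : L2 G) [Decidable (t ∈ A)] :
    ⟪dl t, MM A v⟫_ℂ = if t ∈ A then ⟪dl t, v⟫_ℂ else 0 := by
  rw [← star_MM, ContinuousLinearMap.star_eq_adjoint, ContinuousLinearMap.adjoint_inner_right]
  by_cases h : t ∈ A
  · rw [Pool.Agent.H494R3.GT.MM_dl_mem h, if_pos h]
  · rw [Pool.Agent.H494R3.GT.MM_dl_notMem h, if_neg h, inner_zero_left]

theorem mem_LK_iff (K : Subgroup G) (x : L2 G →L[ℂ] L2 G) :
    x ∈ LK K ↔ x ∈ LG G ∧ ∀ g, g ∉ K → cf x g = 0 := by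
  classical
  rw [mem_LK, ← mem_LG]
  refine and_congr_right fun hx => ?_
  constructor
  · intro h g hg
    have h1 := congrArg (fun y : L2 G →L[ℂ] L2 G => y (dl 1)) (h 1)
    simp only [mul_ap] at h1
    have h2 : (1 : G) ∈ rc K 1 := by
      change (1 : G) * 1⁻¹ ∈ K
      simp [K.one_mem]
    rw [Pool.Agent.H494R3.GT.MM_dl_mem h2] at h1
    unfold cf
    rw [← h1, inner_MM, if_neg]
    intro h3
    apply hg
    have h4 : g * (1 : G)⁻¹ ∈ K := h3
    simpa using h4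
  · intro h c
    apply op_ext_inner
    intro t s
    rw [mul_ap, mul_ap, inner_MM]
    by_cases ht : t ∈ rc K c
    · rw [if_pos ht]
      by_cases hs : s ∈ rc K c
      · rw [Pool.Agent.H494R3.GT.MM_dl_mem hs]
      · rw [Pool.Agent.H494R3.GT.MM_dl_notMem hs, map_zero, inner_zero_right,
          mem_LG_iff.1 hx]
        refine h _ fun h5 => hs ?_
        have ht' : t * c⁻¹ ∈ K := ht
        change s * c⁻¹ ∈ K
        have h6 : s * c⁻¹ = (t * s⁻¹)⁻¹ * (t * c⁻¹) := by group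
        rw [h6]
        exact K.mul_mem (K.inv_mem h5) ht'
    · rw [if_neg ht]
      by_cases hs : s ∈ rc K c
      · rw [Pool.Agent.H494R3.GT.MM_dl_mem hs, mem_LG_iff.1 hx]
        refine (h _ fun h5 => ht ?_).symm
        have hs' : s * c⁻¹ ∈ K := hs
        change t * c⁻¹ ∈ K
        have h6 : t * c⁻¹ = (t * s⁻¹) * (s * c⁻¹) := by group
        rw [h6]
        exact K.mul_mem h5 hs'
      · rw [Pool.Agent.H494R3.GT.MM_dl_notMem hs, map_zero, inner_zero_right]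

theorem isTrace_LK (K : Subgroup G) : IsTrace (LK K) (dl (1 : G)) where
  unit := norm_dl 1
  tracial := fun x hx y hy => tracial ((mem_LK_iff K x).1 hx).1 ((mem_LK_iff K y).1 hy).1
  faithful := fun x hx h => faithful ((mem_LK_iff K x).1 hx).1 h

theorem dense_span : (Submodule.span ℂ (Set.range (dl : G → L2 G))).topologicalClosure = ⊤ := by
  rw [Submodule.topologicalClosure_eq_top_iff, Submodule.eq_bot_iff]
  intro v hv
  apply vec_ext
  intro g
  rw [← inner_dl]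
  exact (Submodule.mem_orthogonal _ _).1 hv _ (Submodule.subset_span ⟨g, rfl⟩)

theorem strong (x : ℕ → L2 G →L[ℂ] L2 G) (x₀ : L2 G →L[ℂ] L2 G) (C : ℝ) (hx : ∀ n, x n ∈ LG G)
    (hx₀ : x₀ ∈ LG G) (hC : ∀ n, ‖x n‖ ≤ C)
    (h : Tendsto (fun n => ‖(x n) (dl 1) - x₀ (dl 1)‖) atTop (𝓝 0)) (v : L2 G) :
    Tendsto (fun n => x n v) atTop (𝓝 (x₀ v)) := by
  have h0 : Tendsto (fun n => x n (dl 1)) atTop (𝓝 (x₀ (dl 1))) :=
    tendsto_iff_norm_sub_tendsto_zero.2 h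
  have h1 : ∀ s, Tendsto (fun n => x n (dl s)) atTop (𝓝 (x₀ (dl s))) := by
    intro s
    rw [ap_dl hx₀]
    have h2 : (fun n => x n (dl s)) = fun n => rgt s (x n (dl 1)) := by
      funext n
      exact ap_dl (hx n) s
    rw [h2]
    exact ((rgt s).continuous.tendsto _).comp h0
  have h2 : ∀ w ∈ Submodule.span ℂ (Set.range (dl : G → L2 G)),
      Tendsto (fun n => x n w) atTop (𝓝 (x₀ w)) := by
    intro w hw
    induction hw using Submodule.span_induction with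
    | mem w hw =>
      obtain ⟨s, rfl⟩ := hw
      exact h1 s
    | zero => simp
    | add a b _ _ ha hb =>
      simp only [map_add]
      exact ha.add hb
    | smul c a _ ha =>
      simp only [map_smul]
      exact ha.const_smul c
  have hC0 : 0 ≤ C := (norm_nonneg _).trans (hC 0)
  rw [Metric.tendsto_atTop]
  intro ε hε
  have hM : 0 < C + ‖x₀‖ + 1 := by positivity
  have hv : v ∈ closure (Submodule.span ℂ (Set.range (dl : G → L2 G)) : Set (L2 G)) := by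
    rw [← Submodule.topologicalClosure_coe, dense_span]
    trivial
  obtain ⟨w, hw, hvw⟩ := Metric.mem_closure_iff.1 hv (ε / (2 * (C + ‖x₀‖ + 1))) (by positivity)
  obtain ⟨N, hN⟩ := Metric.tendsto_atTop.1 (h2 w hw) (ε / 2) (by positivity)
  refine ⟨N, fun n hn => ?_⟩
  have h3 := hN n hn
  rw [dist_eq_norm] at h3 hvw ⊢
  have h4 : x n v - x₀ v = x n (v - w) + (x n w - x₀ w) - x₀ (v - w) := by
    rw [map_sub, map_sub]
    abel
  have h5 : ‖x n (v - w)‖ ≤ C * ‖v - w‖ :=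
    ((x n).le_opNorm _).trans (mul_le_mul_of_nonneg_right (hC n) (norm_nonneg _))
  have h6 : ‖x₀ (v - w)‖ ≤ ‖x₀‖ * ‖v - w‖ := x₀.le_opNorm _
  have h7 : ‖x n v - x₀ v‖ ≤ ‖x n (v - w)‖ + ‖x n w - x₀ w‖ + ‖x₀ (v - w)‖ := by
    rw [h4]
    exact (norm_sub_le _ _).trans (add_le_add_left (norm_add_le _ _) _)
  have h8 : (C + ‖x₀‖ + 1) * ‖v - w‖ < ε / 2 := by
    have h9 := mul_lt_mul_of_pos_left hvw hM
    have h10 : (C + ‖x₀‖ + 1) * (ε / (2 * (C + ‖x₀‖ + 1))) = ε / 2 := by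
      field_simp
    rwa [h10] at h9
  have h11 : 0 ≤ ‖v - w‖ := norm_nonneg _
  nlinarith

end TRx

/-- **TR.** -/
theorem t_tr : S_TR := fun _ _ K =>
  ⟨TRx.mem_LK_iff K, TRx.isTrace_LG, TRx.isTrace_LK K, fun _ hx => TRx.norm_star hx,
    fun _ hx _ hy => TRx.norm_mul hx hy, fun x x₀ C h1 h2 h3 h4 v =>
      TRx.strong x x₀ C h1 h2 h3 h4 v⟩

end Pool.Agent.N571.EX
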