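import Pool.Agent.N571.EX.Asm
import Pool.Agent.N571.EX.GAM
import Pool.Agent.N571.EX.ICC
import Pool.Agent.N571.EX.EX3
import Pool.Agent.N571.EX.KPF
import Pool.Agent.N571.EX.TR
import Pool.Agent.N571.EX.FAC
import Pool.Agent.N571.EX.RC
import Pool.Agent.N571.EX.PF
import Pool.Agent.N571.EX.RL1
import Pool.Agent.N571.EX.RL2
import Pool.Agent.N571.EX.EXI
import Pool.Agent.N571.EX.PTM
import Pool.Agent.N669.EXHaa
import Pool.Agent.N403.MX.FGTT

/-!
# Project EX: final assembly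
-/

set_option autoImplicit false

namespace Pool.Agent.N571.EX

theorem final : FinalVN ∧ FinalGr := by
  have hTR : S_TR := t_tr
  have hDEN : S_DEN := t_den hTR
  have hPF : S_PF := t_pf hTR hDEN
  exact final_of t_gam t_icc t_ex3 t_fld (t_tg Pool.Agent.N403.MX.t_tt) hTR (t_fac hTR)
    (t_haa hTR) (t_exi hTR t_res t_cay hPF (t_rl1 hTR hPF) (t_rl2 hTR t_res hPF))
    (t_ptm t_kp t_res t_cay hTR hDEN) Pool.Agent.N403.MX.t_fg

end Pool.Agent.N571.EX
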