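import Pool.Agent.N571.EX.Fin

/-!
# MP_02fda4_an: definitions and final statement

Everything is stated with maps between spaces of bounded operators which are only used on the
elements of the von Neumann algebra.
-/

set_option autoImplicit false

namespace Pool.Agent.N571.EX.Plain

open Filter Topology
open scoped InnerProductSpace ComplexOrder

variable {H : Type} [NormedAddCommGroup H] [InnerProductSpace ℂ H] [CompleteSpace H]
  {K : Type} [NormedAddCommGroup K] [InnerProductSpace ℂ K] [CompleteSpace K]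

/-- `τ(x) = ⟪Ω, x Ω⟫` is a faithful (normal) tracial state on the von Neumann algebra `M`. The
2-norm of `x ∈ M` is then `‖x Ω‖`, and `L²(M)` is the closure of `M Ω`. -/
structure Tracial (M : VonNeumannAlgebra H) (Ω : H) : Prop where
  unit : ‖Ω‖ = 1
  tracial : ∀ x ∈ M, ∀ y ∈ M, ⟪Ω, (x * y) Ω⟫_ℂ = ⟪Ω, (y * x) Ω⟫_ℂ
  faithful : ∀ x ∈ M, x Ω = 0 → x = 0

/-- `M` is a `II₁` factor with trace `τ(x) = ⟪Ω, x Ω⟫`: an infinite-dimensional tracial von Neumann
algebra with trivial centre. -/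
structure IIOneFactor (M : VonNeumannAlgebra H) (Ω : H) : Prop extends Tracial M Ω where
  factor : ∀ z ∈ M, (∀ x ∈ M, z * x = x * z) → ∃ c : ℂ, z = c • (1 : H →L[ℂ] H)
  infinite : ¬ FiniteDimensional ℂ (Submodule.span ℂ (M : Set (H →L[ℂ] H)))

/-- `φ` is linear and normal on the von Neumann algebra `M` (acting on a separable space). Normal:
if `x n → x₀` strongly in `M` and `‖x n‖` is bounded, then `φ (x n) → φ x₀` strongly. -/
structure NormalLinear (M : VonNeumannAlgebra H) (φ : (H →L[ℂ] H) → (K →L[ℂ] K)) : Prop where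
  add : ∀ x ∈ M, ∀ y ∈ M, φ (x + y) = φ x + φ y
  smul : ∀ c : ℂ, ∀ x ∈ M, φ (c • x) = c • φ x
  normal : ∀ (x : ℕ → (H →L[ℂ] H)) (x₀ : H →L[ℂ] H) (C : ℝ), (∀ n, x n ∈ M) → x₀ ∈ M →
    (∀ n, ‖x n‖ ≤ C) → (∀ v : H, Tendsto (fun n => x n v) atTop (𝓝 (x₀ v))) →
    ∀ w : K, Tendsto (fun n => φ (x n) w) atTop (𝓝 (φ x₀ w))

/-- `φ : N → N` is normal, unital, trace preserving and completely positive, and the compact
operator `T` extends the map `x Ω ↦ φ(x) Ω`, that is, `φ` induces a compact operator on `L²(N)`. -/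
structure CompactCP (N : VonNeumannAlgebra H) (Ω : H) (φ : (H →L[ℂ] H) → (H →L[ℂ] H))
    (T : H →L[ℂ] H) : Prop extends NormalLinear N φ where
  mem : ∀ x ∈ N, φ x ∈ N
  unital : φ 1 = 1
  trace : ∀ x ∈ N, ⟪Ω, φ x Ω⟫_ℂ = ⟪Ω, x Ω⟫_ℂ
  cp : ∀ (n : ℕ) (x : Fin n → (H →L[ℂ] H)) (v : Fin n → H), (∀ i, x i ∈ N) →
    0 ≤ ∑ i, ∑ j, ⟪v i, φ (star (x i) * x j) (v j)⟫_ℂ
  compact : IsCompactOperator T
  induces : ∀ x ∈ N, T (x Ω) = φ x Ω

/-- The Haagerup property: there are normal, unital, trace preserving, completely positive maps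
`φ k : N → N`, which induce compact operators on `L²(N)`, such that `‖φ k (x) - x‖₂ → 0` for
all `x ∈ N`. -/
structure Haagerup (N : VonNeumannAlgebra H) (Ω : H) : Prop where
  maps : ∃ (φ : ℕ → (H →L[ℂ] H) → (H →L[ℂ] H)) (T : ℕ → (H →L[ℂ] H)),
    (∀ k, CompactCP N Ω (φ k) (T k)) ∧
      ∀ x ∈ N, Tendsto (fun k => ‖φ k x Ω - x Ω‖) atTop (𝓝 0)

/-- `K` is a Hilbert `M`-`M` bimodule with `x ξ = L x ξ` and `ξ x = R x ξ`: `L` is a normal unital
representation of `M` and `R` is a normal unital representation of the opposite algebra, and they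
commute. -/
structure Bimodule (M : VonNeumannAlgebra H) (L R : (H →L[ℂ] H) → (K →L[ℂ] K)) : Prop where
  normalL : NormalLinear M L
  normalR : NormalLinear M R
  oneL : L 1 = 1
  oneR : R 1 = 1
  mulL : ∀ x ∈ M, ∀ y ∈ M, L (x * y) = L x * L y
  mulR : ∀ x ∈ M, ∀ y ∈ M, R (x * y) = R y * R x
  starL : ∀ x ∈ M, L (star x) = star (L x)
  starR : ∀ x ∈ M, R (star x) = star (R x)
  comm : ∀ x ∈ M, ∀ y ∈ M, L x * R y = R y * L x

variable (K) in
/-- Every Hilbert `M`-`M` bimodule on the space `K` with a unit vector `ξ` with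
`‖x ξ - ξ x‖ < δ` for `x ∈ F` has a nonzero central vector `η`. -/
structure CentralVectors (M : VonNeumannAlgebra H) (F : Finset (H →L[ℂ] H)) (δ : ℝ) : Prop where
  central : ∀ L R : (H →L[ℂ] H) → (K →L[ℂ] K), Bimodule M L R → ∀ ξ : K, ‖ξ‖ = 1 →
    (∀ x ∈ F, ‖L x ξ - R x ξ‖ < δ) → ∃ η : K, η ≠ 0 ∧ ∀ x ∈ M, L x η = R x η

/-- Property (T) of Connes and Jones: there are a finite set `F ⊆ M` and `δ > 0` such that every
Hilbert `M`-`M` bimodule with a unit vector `ξ` with `‖x ξ - ξ x‖ < δ` for `x ∈ F` has a nonzero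
central vector. -/
structure PropertyT (M : VonNeumannAlgebra H) : Prop where
  pair : ∃ (F : Finset (H →L[ℂ] H)) (δ : ℝ), (∀ x ∈ F, x ∈ M) ∧ 0 < δ ∧
    ∀ (K : Type) [NormedAddCommGroup K] [InnerProductSpace ℂ K] [CompleteSpace K],
      CentralVectors K M F δ

/-- `π` assigns to every `x ∈ M` a bounded sequence `π x` in `N` and is, modulo the sequences `y`
with `lim_U ‖y n‖₂ = 0`, a unital trace preserving `*`-homomorphism from `M` to the tracial
ultrapower of `N` (so it is injective and normal), and it is the diagonal embedding on `N`. -/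
structure UltraEmb (N M : VonNeumannAlgebra H) (Ω : H) (U : Ultrafilter ℕ)
    (π : (H →L[ℂ] H) → ℕ → (H →L[ℂ] H)) : Prop where
  mem : ∀ x ∈ M, ∀ n, π x n ∈ N
  bdd : ∀ x ∈ M, ∃ C : ℝ, ∀ n, ‖π x n‖ ≤ C
  add : ∀ x ∈ M, ∀ y ∈ M, Tendsto (fun n => ‖(π (x + y) n - (π x n + π y n)) Ω‖) U (𝓝 0)
  mul : ∀ x ∈ M, ∀ y ∈ M, Tendsto (fun n => ‖(π (x * y) n - π x n * π y n) Ω‖) U (𝓝 0)
  smul : ∀ c : ℂ, ∀ x ∈ M, Tendsto (fun n => ‖(π (c • x) n - c • π x n) Ω‖) U (𝓝 0)
  adj : ∀ x ∈ M, Tendsto (fun n => ‖(π (star x) n - star (π x n)) Ω‖) U (𝓝 0)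
  trace : ∀ x ∈ M, Tendsto (fun n => ⟪Ω, π x n Ω⟫_ℂ) U (𝓝 ⟪Ω, x Ω⟫_ℂ)
  diag : ∀ x ∈ N, Tendsto (fun n => ‖π x n Ω - x Ω‖) U (𝓝 0)

/-- The example: `N ⊆ M` are `II₁` factors with the same trace, `N` has the Haagerup property, `M`
has property (T), and the inclusion `N ⊆ M` is existential for every non-principal ultrafilter. -/
structure IsExample (N M : VonNeumannAlgebra H) (Ω : H) : Prop where
  sub : ∀ x ∈ N, x ∈ M
  factorN : IIOneFactor N Ω
  factorM : IIOneFactor M Ω
  haagerup : Haagerup N Ω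
  propertyT : PropertyT M
  existential : ∀ U : Ultrafilter ℕ, (U : Filter ℕ) ≤ cofinite → ∃ π, UltraEmb N M Ω U π

/-- `π` is a unitary representation of the group `G` on `K`. -/
structure UnitaryRep {G : Type} [Group G] (π : G → (K →L[ℂ] K)) : Prop where
  one : π 1 = 1
  mul : ∀ g h : G, π (g * h) = π g * π h
  norm : ∀ (g : G) (v : K), ‖π g v‖ = ‖v‖

variable (K) in
/-- Every unitary representation of `G` on `K` with almost invariant unit vectors has a nonzero
invariant vector. -/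
structure InvariantVectors (G : Type) [Group G] : Prop where
  invariant : ∀ π : G → (K →L[ℂ] K), UnitaryRep π →
    (∀ (S : Finset G) (ε : ℝ), 0 < ε → ∃ v : K, ‖v‖ = 1 ∧ ∀ g ∈ S, ‖π g v - v‖ < ε) →
    ∃ v : K, v ≠ 0 ∧ ∀ g : G, π g v = v

/-- Kazhdan's property (T) of the discrete group `G`. -/
structure Kazhdan (G : Type) [Group G] : Prop where
  invariant : ∀ (K : Type) [NormedAddCommGroup K] [InnerProductSpace ℂ K] [CompleteSpace K],
    InvariantVectors K G

/-- The group inclusion `Λ ≤ G` is existential along `U`: the embedding `φ` of `G` in the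
ultrapower of `Λ` is the diagonal embedding on `Λ`. -/
structure GroupUltraEmb {G : Type} [Group G] (Λ : Subgroup G) (U : Ultrafilter ℕ)
    (φ : G →* Filter.Germ (U : Filter ℕ) Λ) : Prop where
  injective : Function.Injective φ
  diag : ∀ k : Λ, φ (k : G) = ((k : Λ) : Filter.Germ (U : Filter ℕ) Λ)

/-- The example for groups: `G` is a countable group with property (T) and infinite conjugacy
classes, `Λ` is an infinite locally finite subgroup with infinite conjugacy classes, and
the inclusion `Λ ≤ G` is existential for every non-principal ultrafilter. -/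
structure IsGroupExample (G : Type) [Group G] (Λ : Subgroup G) : Prop where
  countable : Countable G
  kazhdan : Kazhdan G
  iccG : ∀ g : G, g ≠ 1 → Set.Infinite {x : G | ∃ h : G, x = h * g * h⁻¹}
  iccΛ : ∀ g ∈ Λ, g ≠ 1 → Set.Infinite {x : G | ∃ h ∈ Λ, x = h * g * h⁻¹}
  infinite : Infinite Λ
  locallyFinite : ∀ S : Finset G, (∀ x ∈ S, x ∈ Λ) → Finite (Subgroup.closure (S : Set G))
  existential : ∀ U : Ultrafilter ℕ, (U : Filter ℕ) ≤ cofinite → ∃ φ, GroupUltraEmb Λ U φ

/-! ### Translation -/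

theorem iione {M : VonNeumannAlgebra H} {Ω : H} (h : IsIIOne M Ω) : IIOneFactor M Ω where
  unit := h.unit
  tracial := h.tracial
  faithful := h.faithful
  factor := h.factor
  infinite := h.infinite

theorem haag {N : VonNeumannAlgebra H} {Ω : H} (h : EX.Haagerup N Ω) : Haagerup N Ω := by
  classical
  obtain ⟨φ, hφ, hlim⟩ := h
  choose h1 h2 h3 h4 T hT hTx using hφ
  refine ⟨⟨fun k x => if hx : x ∈ N then (φ k ⟨x, hx⟩ : H →L[ℂ] H) else 0, T, ?_, ?_⟩⟩
  · intro k
    refine
      { add := ?_, smul := ?_, normal := ?_, mem := ?_, unital := ?_, trace := ?_, cp := ?_,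
        compact := hT k, induces := ?_ }
    · intro x hx y hy
      have e : (⟨x + y, N.add_mem hx hy⟩ : El N) = ⟨x, hx⟩ + ⟨y, hy⟩ := rfl
      have hxy : x + y ∈ N := N.add_mem hx hy
      simp only [hx, hy, hxy, dif_pos]
      rw [e, map_add]
      rfl
    · intro c x hx
      have hxy : c • x ∈ N := N.smul_mem hx c
      have e : (⟨c • x, hxy⟩ : El N) = c • ⟨x, hx⟩ := rfl
      simp only [hx, hxy, dif_pos]
      rw [e, map_smul]
      rfl
    · intro x x₀ C hx hx0 hC hlim w
      simp only [hx, hx0, dif_pos]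
      exact h2 k (fun n => ⟨x n, hx n⟩) ⟨x₀, hx0⟩ C hC hlim w
    · intro x hx
      simp only [hx, dif_pos]
      exact (φ k ⟨x, hx⟩).2
    · have h1' : (1 : H →L[ℂ] H) ∈ N := N.one_mem
      simp only [h1', dif_pos]
      have := congrArg Subtype.val (h1 k)
      exact this
    · intro x hx
      simp only [hx, dif_pos]
      exact h3 k ⟨x, hx⟩
    · intro n x v hx
      have h5 : ∀ i j, star (x i) * x j ∈ N := fun i j => mul_mem (star_mem (hx i)) (hx j)
      simp only [h5, dif_pos]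
      exact h4 k n (fun i => ⟨x i, hx i⟩) v
    · intro x hx
      simp only [hx, dif_pos]
      exact hTx k ⟨x, hx⟩
  · intro x hx
    simp only [hx, dif_pos]
    exact hlim ⟨x, hx⟩

theorem hast {M : VonNeumannAlgebra H} (h : HasT M) : PropertyT M := by
  classical
  obtain ⟨F, δ, hδ, hc⟩ := h
  refine ⟨⟨F.image Subtype.val, δ, ?_, hδ, ?_⟩⟩
  · intro x hx
    obtain ⟨y, -, rfl⟩ := Finset.mem_image.1 hx
    exact y.2
  · intro K _ _ _
    refine ⟨fun L R hB ξ hξ hF => ?_⟩
    let L' : El M →⋆ₐ[ℂ] (K →L[ℂ] K) :=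
      { toFun := fun x => L x
        map_one' := hB.oneL
        map_mul' := fun x y => hB.mulL x x.2 y y.2
        map_zero' := by
          have := hB.normalL.smul 0 0 M.zero_mem
          simpa using this
        map_add' := fun x y => hB.normalL.add x x.2 y y.2
        commutes' := fun c => by
          have h1 := hB.normalL.smul c 1 M.one_mem
          have h2 : ((algebraMap ℂ (El M) c : El M) : H →L[ℂ] H) = c • (1 : H →L[ℂ] H) :=
            Algebra.algebraMap_eq_smul_one c
          rw [h2, h1, hB.oneL, Algebra.algebraMap_eq_smul_one]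
        map_star' := fun x => hB.starL x x.2 }
    let R' : (El M)ᵐᵒᵖ →⋆ₐ[ℂ] (K →L[ℂ] K) :=
      { toFun := fun x => R (x.unop)
        map_one' := hB.oneR
        map_mul' := fun x y => hB.mulR y.unop y.unop.2 x.unop x.unop.2
        map_zero' := by
          have := hB.normalR.smul 0 0 M.zero_mem
          simpa using this
        map_add' := fun x y => hB.normalR.add x.unop x.unop.2 y.unop y.unop.2
        commutes' := fun c => by
          have h1 := hB.normalR.smul c 1 M.one_mem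
          have h2 : (((algebraMap ℂ (El M)ᵐᵒᵖ c).unop : El M) : H →L[ℂ] H) =
              c • (1 : H →L[ℂ] H) :=
            Algebra.algebraMap_eq_smul_one c
          rw [h2, h1, hB.oneR, Algebra.algebraMap_eq_smul_one]
        map_star' := fun x => hB.starR x.unop x.unop.2 }
    let B : Bimod M K :=
      { L := L'
        R := R'
        comm := fun x y => hB.comm x x.2 y.unop y.unop.2
        normalL := fun x x₀ C hC hx w =>
          hB.normalL.normal (fun n => x n) x₀ C (fun n => (x n).2) x₀.2 hC hx w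
        normalR := fun x x₀ C hC hx w =>
          hB.normalR.normal (fun n => x n) x₀ C (fun n => (x n).2) x₀.2 hC hx w }
    obtain ⟨η, h1, h2⟩ := hc K B ξ hξ
      (fun x hx => hF x (Finset.mem_image.2 ⟨x, hx, rfl⟩))
    exact ⟨η, h1, fun x hx => h2 ⟨x, hx⟩⟩

theorem exi {N M : VonNeumannAlgebra H} {Ω : H} {U : Ultrafilter ℕ} (hNM : ∀ x ∈ N, x ∈ M)
    (h : Existential N M Ω U) : ∃ π, UltraEmb N M Ω U π := by
  classical
  obtain ⟨π, h1, h2, h3, h4, h5, h6, h7⟩ := h
  refine ⟨fun x n => if hx : x ∈ M then (π ⟨x, hx⟩ n : H →L[ℂ] H) else 0, ?_⟩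
  refine
    { mem := ?_, bdd := ?_, add := ?_, mul := ?_, smul := ?_, adj := ?_, trace := ?_, diag := ?_ }
  · intro x hx n
    simp only [hx, dif_pos]
    exact (π ⟨x, hx⟩ n).2
  · intro x hx
    simp only [hx, dif_pos]
    exact h1 ⟨x, hx⟩
  · intro x hx y hy
    have hxy : x + y ∈ M := M.add_mem hx hy
    simp only [hx, hy, hxy, dif_pos]
    exact h2 ⟨x, hx⟩ ⟨y, hy⟩
  · intro x hx y hy
    have hxy : x * y ∈ M := M.mul_mem hx hy
    simp only [hx, hy, hxy, dif_pos]
    exact h3 ⟨x, hx⟩ ⟨y, hy⟩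
  · intro c x hx
    have hxy : c • x ∈ M := M.smul_mem hx c
    simp only [hx, hxy, dif_pos]
    exact h4 c ⟨x, hx⟩
  · intro x hx
    have hxy : star x ∈ M := star_mem hx
    simp only [hx, hxy, dif_pos]
    exact h5 ⟨x, hx⟩
  · intro x hx
    simp only [hx, dif_pos]
    exact h6 ⟨x, hx⟩
  · intro x hx
    have hx' := hNM x hx
    simp only [hx', dif_pos]
    exact h7 ⟨x, hx'⟩ hx

theorem kazh {G : Type} [Group G] (h : Pool.Agent.N708.MX.PT G) : Kazhdan G := by
  refine ⟨fun K _ _ _ => ⟨fun π hπ hinv => ?_⟩⟩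
  have hmul : ∀ g h : G, π g * π h = π (g * h) := fun g h => (hπ.mul g h).symm
  have hinv1 : ∀ g, π g⁻¹ * π g = 1 := fun g => by rw [hmul, inv_mul_cancel, hπ.one]
  have hinv2 : ∀ g, π g * π g⁻¹ = 1 := fun g => by rw [hmul, mul_inv_cancel, hπ.one]
  have hadj : ∀ g, star (π g) * π g = 1 := by
    intro g
    have h1 := (ContinuousLinearMap.norm_map_iff_adjoint_comp_self (π g)).1 (hπ.norm g)
    exact h1
  have hmem : ∀ g, π g ∈ unitary (K →L[ℂ] K) := by
    intro g
    rw [Unitary.mem_iff]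
    refine ⟨hadj g, ?_⟩
    have h1 : star (π g) = π g⁻¹ := by
      calc star (π g) = star (π g) * (π g * π g⁻¹) := by rw [hinv2, mul_one]
        _ = π g⁻¹ := by rw [← mul_assoc, hadj, one_mul]
    rw [h1, hinv2]
  let ρ : G →* unitary (K →L[ℂ] K) :=
    { toFun := fun g => ⟨π g, hmem g⟩
      map_one' := Subtype.ext hπ.one
      map_mul' := fun g h => Subtype.ext (hπ.mul g h) }
  exact h K ρ hinv

theorem final_vn : ∃ (H : Type) (_ : NormedAddCommGroup H) (_ : InnerProductSpace ℂ H)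
    (_ : CompleteSpace H) (_ : TopologicalSpace.SeparableSpace H) (N M : VonNeumannAlgebra H)
    (Ω : H), IsExample N M Ω := by
  obtain ⟨H, i1, i2, i3, i4, N, M, Ω, h1, h2, h3, h4, h5, h6⟩ := final.1
  exact ⟨H, i1, i2, i3, i4, N, M, Ω,
    { sub := h1
      factorN := iione h2
      factorM := iione h3
      haagerup := haag h4
      propertyT := hast h5
      existential := fun U hU => exi h1 (h6 U hU) }⟩

theorem final_gr : ∃ (G : Type) (_ : Group G) (Λ : Subgroup G), IsGroupExample G Λ := by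
  classical
  obtain ⟨G, i1, Λ, h1, h2, h3, h4, h5, h6, h7⟩ := final.2
  refine ⟨G, i1, Λ,
    { countable := h1
      kazhdan := kazh h2
      iccG := h3
      iccΛ := ?_
      infinite := h5
      locallyFinite := ?_
      existential := fun U hU => ?_ }⟩
  · intro g hg hne
    have h8 := h4 ⟨g, hg⟩ (fun h => hne (congrArg Subtype.val h))
    have h9 := h8.image (f := Subtype.val) Subtype.val_injective.injOn
    refine h9.mono ?_
    rintro _ ⟨x, ⟨k, rfl⟩, rfl⟩
    exact ⟨k, k.2, rfl⟩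
  · intro S hS
    let S' : Finset Λ := S.attach.image (fun x => ⟨x.1, hS x.1 x.2⟩)
    have h8 := h6 S'
    have h9 : (Subgroup.closure (S' : Set Λ)).map Λ.subtype = Subgroup.closure (S : Set G) := by
      rw [MonoidHom.map_closure]
      congr 1
      ext x
      simp only [Set.mem_image, Finset.mem_coe, S', Finset.mem_image, Finset.mem_attach, true_and,
        Subtype.exists]
      constructor
      · rintro ⟨_, _, ⟨y, hy, h⟩, rfl⟩
        have := congrArg Subtype.val h
        simp only at this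
        subst this
        exact hy
      · intro hx
        exact ⟨x, hS x hx, ⟨x, hx, rfl⟩, rfl⟩
    rw [← h9]
    exact Finite.of_surjective
      (fun y : Subgroup.closure (S' : Set Λ) => (⟨Λ.subtype y.1, y.1, y.2, rfl⟩ :
        (Subgroup.closure (S' : Set Λ)).map Λ.subtype))
      (by rintro ⟨_, y, hy, rfl⟩; exact ⟨⟨y, hy⟩, rfl⟩)
  · obtain ⟨φ, h8, h9⟩ := h7 U hU
    exact ⟨φ, h8, h9⟩

end Pool.Agent.N571.EX.Plain
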