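import Pool.Agent.N571.EX.Defs
import Pool.Agent.N557.QW.Base
import Pool.Agent.N708.MX.Stm

/-!
# Project EX: statements of the steps
-/

set_option autoImplicit false

namespace Pool.Agent.N571.EX

open Filter Topology
open scoped InnerProductSpace ComplexOrder
open Pool.Agent.H494R3.GT (L2 dl)
open Pool.Agent.N557.QW (lam rgt LG LK cf rc)
open Pool.Agent.N44.NS (el E3)
open Pool.Agent.N708.MX (PT)

noncomputable section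

/-- `G` has infinite conjugacy classes. -/
def ICC (G : Type) [Group G] : Prop :=
  ∀ g : G, g ≠ 1 → Set.Infinite {x : G | ∃ h : G, x = h * g * h⁻¹}

/-- `K` is the increasing union of the finite subgroups `Kn n`; the maps `θ n : G → K` are
eventually multiplicative and injective on every finite subset of `G`, and eventually the identity on
every finite subset of `K`. -/
structure ExD (G : Type) [Group G] (K : Subgroup G) (Kn : ℕ → Subgroup G) (θ : ℕ → G → G) :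
    Prop where
  mono : Monotone Kn
  fin : ∀ n, Finite (Kn n)
  mem : ∀ x, x ∈ K ↔ ∃ n, x ∈ Kn n
  val : ∀ n x, θ n x ∈ K
  mul : ∀ x y, ∀ᶠ n in atTop, θ n (x * y) = θ n x * θ n y
  ne : ∀ x, x ≠ 1 → ∀ᶠ n in atTop, θ n x ≠ 1
  id : ∀ x ∈ K, ∀ᶠ n in atTop, θ n x = x

/-! ### Groups -/

/-- GAM: finitary permutations of `ℤ` and the shift. -/
def S_GAM : Prop :=
  ∃ (Γ : Type) (_ : Group Γ) (s t : Γ) (K : Subgroup Γ) (Kn : ℕ → Subgroup Γ) (θ : ℕ → Γ → Γ),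
    Subgroup.closure {s, t} = ⊤ ∧ ICC Γ ∧ ICC K ∧ Infinite K ∧ ExD Γ K Kn θ

/-- ICC: `E_3(F[Γ])` has infinite conjugacy classes. -/
def S_ICC : Prop :=
  ∀ (F : Type) [Field F] (Γ : Type) [Group Γ] [Infinite Γ], (∀ c : F, c ^ 3 = 1 → c = 1) →
    ICC Γ → ICC (E3 (MonoidAlgebra F Γ))

/-- EX3: the local embeddings of `E_3(F[Γ])`. -/
def S_EX3 : Prop :=
  ∀ (F : Type) [Field F] [Finite F] (Γ : Type) [Group Γ] (K : Subgroup Γ)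
    (Kn : ℕ → Subgroup Γ) (θ : ℕ → Γ → Γ), ExD Γ K Kn θ →
    ∃ (K' : Subgroup (E3 (MonoidAlgebra F Γ))) (Kn' : ℕ → Subgroup (E3 (MonoidAlgebra F Γ)))
      (θ' : ℕ → E3 (MonoidAlgebra F Γ) → E3 (MonoidAlgebra F Γ)),
      ExD (E3 (MonoidAlgebra F Γ)) K' Kn' θ' ∧ Nonempty (E3 (MonoidAlgebra F K) ≃* K')

/-- KP: Kazhdan pairs. -/
def S_KP : Prop :=
  ∀ (G : Type) [Group G], PT G → ∃ (S : Finset G) (ε : ℝ), 0 < ε ∧
    ∀ (H : Type) [NormedAddCommGroup H] [InnerProductSpace ℂ H] [CompleteSpace H]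
      (π : G →* unitary (H →L[ℂ] H)) (v : H), ‖v‖ = 1 →
      (∀ g ∈ S, ‖(π g : H →L[ℂ] H) v - v‖ < ε) →
      ∃ w : H, w ≠ 0 ∧ ∀ g : G, (π g : H →L[ℂ] H) w = w

/-- FLD: the field. -/
def S_FLD : Prop :=
  ∃ (F : Type) (_ : Field F) (_ : Fintype F), 256 ≤ Fintype.card F ∧ ∀ c : F, c ^ 3 = 1 → c = 1

/-- TG: property (T) of `E_3(F[Γ])`. -/
def S_TG : Prop :=
  ∀ (F : Type) [Field F] [Fintype F], 256 ≤ Fintype.card F → ∀ (Γ : Type) [Group Γ] (s t : Γ),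
    Subgroup.closure {s, t} = ⊤ → PT (E3 (MonoidAlgebra F Γ))

/-! ### Group von Neumann algebras -/

/-- TR: the trace of `L(G)` and `L(K)`. -/
def S_TR : Prop :=
  ∀ (G : Type) [Group G] (K : Subgroup G),
    (∀ x, x ∈ LK K ↔ x ∈ LG G ∧ ∀ g, g ∉ K → cf x g = 0) ∧
    IsTrace (LG G) (dl (1 : G)) ∧ IsTrace (LK K) (dl (1 : G)) ∧
    (∀ x ∈ LG G, ‖(star x) (dl (1 : G))‖ = ‖x (dl 1)‖) ∧
    (∀ x ∈ LG G, ∀ y ∈ LG G, ‖(x * y) (dl (1 : G))‖ ≤ ‖y‖ * ‖x (dl 1)‖) ∧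
    (∀ (x : ℕ → L2 G →L[ℂ] L2 G) (x₀ : L2 G →L[ℂ] L2 G) (C : ℝ), (∀ n, x n ∈ LG G) →
      x₀ ∈ LG G → (∀ n, ‖x n‖ ≤ C) →
      Tendsto (fun n => ‖(x n) (dl 1) - x₀ (dl 1)‖) atTop (𝓝 0) →
      ∀ v, Tendsto (fun n => x n v) atTop (𝓝 (x₀ v)))

/-- FAC: factors. -/
def S_FAC : Prop :=
  ∀ (G : Type) [Group G] (K : Subgroup G),
    (ICC G → Infinite G → IsIIOne (LG G) (dl (1 : G))) ∧ (ICC K → Infinite K → IsIIOne (LK K) (dl (1 : G)))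

/-- HAA: the Haagerup property of `L(K)` for a union `K` of finite subgroups. -/
def S_HAA : Prop :=
  ∀ (G : Type) [Group G] (K : Subgroup G) (Kn : ℕ → Subgroup G), Monotone Kn →
    (∀ n, Finite (Kn n)) → (∀ x, x ∈ K ↔ ∃ n, x ∈ Kn n) → Haagerup (LK K) (dl (1 : G))

/-- RES: resolvents of self-adjoint operators. -/
def S_RES : Prop :=
  ∀ (H : Type) [NormedAddCommGroup H] [InnerProductSpace ℂ H] [CompleteSpace H]
    (a : H →L[ℂ] H), star a = a →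
    ∃ r : H →L[ℂ] H, (1 - Complex.I • a) * r = 1 ∧ r * (1 - Complex.I • a) = 1 ∧ ‖r‖ ≤ 1 ∧
      ∀ M : VonNeumannAlgebra H, a ∈ M → r ∈ M

/-- CAY: a self-adjoint contraction is of the form `2 a / (1 + a²)`. -/
def S_CAY : Prop :=
  ∀ (H : Type) [NormedAddCommGroup H] [InnerProductSpace ℂ H] [CompleteSpace H]
    (M : VonNeumannAlgebra H) (x : H →L[ℂ] H), x ∈ M → star x = x → ‖x‖ ≤ 1 →
    ∃ a ∈ M, star a = a ∧ ∀ r : H →L[ℂ] H, (1 - Complex.I • a) * r = 1 →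
      r * (1 - Complex.I • a) = 1 → x = (-Complex.I) • (r - star r)

/-- the operators `∑ p(g) λ(f g)` -/
def pf {G : Type} [Group G] (f : G → G) (p : G →₀ ℂ) : L2 G →L[ℂ] L2 G :=
  p.sum fun g c => c • lam (f g)

/-- DEN: density of the group algebra in the 2-norm. -/
def S_DEN : Prop :=
  ∀ (G : Type) [Group G], (∀ p : G →₀ ℂ, pf id p ∈ LG G) ∧
    ∀ x ∈ LG G, ∀ ε : ℝ, 0 < ε → ∃ p : G →₀ ℂ, ‖x (dl 1) - pf id p (dl (1 : G))‖ < ε ∧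
      (star x = x → star (pf id p) = pf id p) ∧ ∀ g ∈ p.support, cf x g ≠ 0

/-- `y` is a lift of the image of `x ∈ L(G)` in the ultrapower of `L(K)` -/
def Rel {G : Type} [Group G] (K : Subgroup G) (θ : ℕ → G → G) (x : L2 G →L[ℂ] L2 G)
    (y : ℕ → L2 G →L[ℂ] L2 G) : Prop :=
  (∃ C : ℝ, ∀ n, ‖y n‖ ≤ C) ∧ (∀ n, y n ∈ LK K) ∧
    ∀ ε : ℝ, 0 < ε → ∃ p : G →₀ ℂ, ‖x (dl 1) - pf id p (dl (1 : G))‖ < ε ∧
      ∀ᶠ n in atTop, ‖(y n) (dl 1) - pf (θ n) p (dl (1 : G))‖ < ε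

/-- PTM: property (T) of `L(G)`. -/
def S_PTM : Prop :=
  ∀ (G : Type) [Group G], PT G → HasT (LG G)

/-- PF: finite sums. -/
def S_PF : Prop :=
  ∀ (G : Type) [Group G] (K : Subgroup G) (Kn : ℕ → Subgroup G) (θ : ℕ → G → G),
    ExD G K Kn θ →
    (∀ (f : G → G) (p : G →₀ ℂ), pf f p ∈ LG G) ∧ (∀ (n : ℕ) (p : G →₀ ℂ), pf (θ n) p ∈ LK K) ∧
    (∀ p : G →₀ ℂ, ∃ C : ℝ, ∀ f : G → G, ‖pf f p‖ ≤ C) ∧
    (∀ p : G →₀ ℂ, ∀ᶠ n in atTop, ‖pf (θ n) p (dl (1 : G))‖ = ‖pf id p (dl (1 : G))‖) ∧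
    (∀ (f : G → G) (p q : G →₀ ℂ), pf f (p + q) = pf f p + pf f q) ∧ (∀ (f : G → G) (c : ℂ) (p : G →₀ ℂ), pf f (c • p) = c • pf f p) ∧
    (∀ p q : G →₀ ℂ, ∃ r : G →₀ ℂ, pf id r = pf id p * pf id q ∧
      ∀ᶠ n in atTop, pf (θ n) r = pf (θ n) p * pf (θ n) q) ∧
    (∀ p : G →₀ ℂ, ∃ r : G →₀ ℂ, pf id r = star (pf id p) ∧ ∀ᶠ n in atTop, pf (θ n) r = star (pf (θ n) p)) ∧
    (∀ p : G →₀ ℂ, (∀ g ∈ p.support, g ∈ K) → ∀ᶠ n in atTop, pf (θ n) p = pf id p) ∧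
    (∃ r : G →₀ ℂ, pf id r = 1 ∧ ∀ᶠ n in atTop, pf (θ n) r = 1) ∧
    (∀ x ∈ LG G, ∀ ε : ℝ, 0 < ε → ∃ p : G →₀ ℂ, ‖x (dl 1) - pf id p (dl (1 : G))‖ < ε ∧
      (star x = x → star (pf id p) = pf id p ∧ ∀ᶠ n in atTop, star (pf (θ n) p) = pf (θ n) p) ∧
      (x ∈ LK K → ∀ g ∈ p.support, g ∈ K))

/-- RL1: formal properties of `Rel`. -/
def S_RL1 : Prop :=
  ∀ (G : Type) [Group G] (K : Subgroup G) (Kn : ℕ → Subgroup G) (θ : ℕ → G → G),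
    ExD G K Kn θ →
    (∀ x x' y y', Rel K θ x y → Rel K θ x' y' → Rel K θ (x + x') fun n => y n + y' n) ∧
    (∀ (c : ℂ) x y, Rel K θ x y → Rel K θ (c • x) fun n => c • y n) ∧
    (∀ x y, x ∈ LG G → Rel K θ x y → Rel K θ (star x) fun n => star (y n)) ∧
    (∀ x x' y y', x ∈ LG G → x' ∈ LG G → Rel K θ x y → Rel K θ x' y' →
      Rel K θ (x * x') fun n => y n * y' n) ∧
    (∀ x y y', Rel K θ x y → Rel K θ x y' →
      Tendsto (fun n => ‖(y n - y' n) (dl 1)‖) atTop (𝓝 0)) ∧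
    (∀ x y, Rel K θ x y →
      Tendsto (fun n => ⟪dl (1 : G), (y n) (dl 1)⟫_ℂ) atTop (𝓝 ⟪dl (1 : G), x (dl 1)⟫_ℂ)) ∧
    (∀ x ∈ LK K, Rel K θ x fun _ => x)

/-- RL2: resolvents and limits. -/
def S_RL2 : Prop :=
  ∀ (G : Type) [Group G] (K : Subgroup G) (Kn : ℕ → Subgroup G) (θ : ℕ → G → G),
    ExD G K Kn θ →
    (∀ p : G →₀ ℂ, star (pf id p) = pf id p → (∀ᶠ n in atTop, star (pf (θ n) p) = pf (θ n) p) →
      ∀ r, (1 - Complex.I • pf id p) * r = 1 → r * (1 - Complex.I • pf id p) = 1 →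
      ∃ y : ℕ → L2 G →L[ℂ] L2 G, (∀ n, ‖y n‖ ≤ 1) ∧ Rel K θ r y) ∧
    (∀ (x : L2 G →L[ℂ] L2 G) (xk : ℕ → L2 G →L[ℂ] L2 G) (y : ℕ → ℕ → L2 G →L[ℂ] L2 G),
      Tendsto (fun k => ‖(xk k) (dl 1) - x (dl 1)‖) atTop (𝓝 0) → (∀ k n, ‖y k n‖ ≤ 1) →
      (∀ k, Rel K θ (xk k) (y k)) → ∃ z : ℕ → L2 G →L[ℂ] L2 G, (∀ n, ‖z n‖ ≤ 1) ∧ Rel K θ x z)

/-- EXI: the inclusion `L(K) ⊆ L(G)` is existential. -/
def S_EXI : Prop :=
  ∀ (G : Type) [Group G] (K : Subgroup G) (Kn : ℕ → Subgroup G) (θ : ℕ → G → G),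
    ExD G K Kn θ → ∀ U : Ultrafilter ℕ, (U : Filter ℕ) ≤ cofinite →
      Existential (LK K) (LG G) (dl (1 : G)) U

end

end Pool.Agent.N571.EX
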